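import Pool.Agent.Helper743.Oracle

set_option autoImplicit false

/-! A universal family of consistent monotone functionals. -/

namespace Pool.Agent.H715R3.Disp

open Nat.Partrec (Code)
open Pool.Agent.Helper743 Encodable

/-- One attempt: run program `p` on a prefix of `ρ` of length `u.unpair.1` for `u.unpair.2`
steps. -/
def try1 (p : ℕ) (ρ : List ℕ) (x u : ℕ) : Option ℕ :=
  Code.evaln u.unpair.2 (Denumerable.ofNat Code p) (encode (ρ.take u.unpair.1, x))

/-- First success among the first `N` attempts. -/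
def gamN (p : ℕ) (ρ : List ℕ) (x : ℕ) (N : ℕ) : Option ℕ :=
  Nat.rec none (fun u acc => (Option.casesOn acc (try1 p ρ x u) some : Option ℕ)) N

lemma gamN_zero (p : ℕ) (ρ : List ℕ) (x : ℕ) : gamN p ρ x 0 = none := rfl
lemma gamN_succ (p : ℕ) (ρ : List ℕ) (x N : ℕ) :
    gamN p ρ x (N + 1) = (Option.casesOn (gamN p ρ x N) (try1 p ρ x N) some : Option ℕ) := rfl

/-- The functional with index `p` applied to the finite oracle `ρ` at `x`. -/
def gam (p : ℕ) (ρ : List ℕ) (x : ℕ) : Option ℕ := gamN p ρ x (ρ.length + 1)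

lemma gamN_none_iff (p : ℕ) (ρ : List ℕ) (x N : ℕ) :
    gamN p ρ x N = none ↔ ∀ u < N, try1 p ρ x u = none := by
  induction N with
  | zero => simp [gamN_zero]
  | succ N ih =>
    rw [gamN_succ]
    cases h : gamN p ρ x N with
    | none =>
      rw [h] at ih
      have ih' := ih.1 rfl
      simp only
      constructor
      · intro h1 u hu
        rcases Nat.lt_succ_iff_lt_or_eq.1 hu with h2 | h2
        · exact ih' u h2
        · rw [h2]; exact h1
      · intro h1; exact h1 N (Nat.lt_succ_self N)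
    | some y =>
      rw [h] at ih
      simp only [reduceCtorEq, false_iff] at ih ⊢
      intro h1
      exact ih (fun u hu => h1 u (Nat.lt_succ_of_lt hu))

lemma gamN_some_iff (p : ℕ) (ρ : List ℕ) (x N y : ℕ) :
    gamN p ρ x N = some y ↔ ∃ u < N, try1 p ρ x u = some y ∧ ∀ u' < u, try1 p ρ x u' = none := by
  induction N with
  | zero => simp [gamN_zero]
  | succ N ih =>
    rw [gamN_succ]
    cases h : gamN p ρ x N with
    | none =>
      have hn := (gamN_none_iff p ρ x N).1 h
      simp only
      constructor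
      · intro h1; exact ⟨N, Nat.lt_succ_self N, h1, hn⟩
      · rintro ⟨u, hu, h1, h2⟩
        rcases Nat.lt_succ_iff_lt_or_eq.1 hu with h3 | h3
        · rw [hn u h3] at h1; exact absurd h1 (by simp)
        · rw [← h3]; exact h1
    | some z =>
      rw [h] at ih
      simp only
      rw [ih]
      constructor
      · rintro ⟨u, hu, h1⟩; exact ⟨u, Nat.lt_succ_of_lt hu, h1⟩
      · rintro ⟨u, hu, h1, h2⟩
        rcases Nat.lt_succ_iff_lt_or_eq.1 hu with h3 | h3
        · exact ⟨u, h3, h1, h2⟩
        · subst h3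
          exfalso
          have := (gamN_none_iff p ρ x u).2 h2
          rw [h] at this
          exact absurd this (by simp)

lemma take_eq_of_prefix {σ τ : List ℕ} (h : σ <+: τ) {k : ℕ} (hk : k ≤ σ.length) :
    σ.take k = τ.take k := by
  obtain ⟨t, rfl⟩ := h
  rw [List.take_append_of_le_length hk]

lemma try1_eq {p x u : ℕ} {σ τ : List ℕ} (h : σ <+: τ) (hu : u < σ.length + 1) :
    try1 p σ x u = try1 p τ x u := by
  have h1 : u.unpair.1 ≤ σ.length := le_trans (Nat.unpair_left_le u) (by omega)
  rw [try1, try1, take_eq_of_prefix h h1]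

lemma gam_mono {p x y : ℕ} {σ τ : List ℕ} (h : σ <+: τ) (hy : gam p σ x = some y) :
    gam p τ x = some y := by
  rw [gam, gamN_some_iff] at hy ⊢
  obtain ⟨u, hu, h1, h2⟩ := hy
  refine ⟨u, lt_of_lt_of_le hu (by have := h.length_le; omega), ?_, fun u' hu' => ?_⟩
  · rw [← try1_eq h hu]; exact h1
  · rw [← try1_eq h (lt_trans hu' hu)]; exact h2 u' hu'

lemma gam_primrec : Primrec (fun q : (ℕ × List ℕ) × ℕ => gam q.1.1 q.1.2 q.2) := by
  have hf : Primrec (fun q : (ℕ × List ℕ) × ℕ => q.1.2.length + 1) :=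
    Primrec.succ.comp (Primrec.list_length.comp (Primrec.snd.comp Primrec.fst))
  have ht : Primrec (fun z : ((ℕ × List ℕ) × ℕ) × ℕ => try1 z.1.1.1 z.1.1.2 z.1.2 z.2) := by
    have u1 : Primrec (fun z : ((ℕ × List ℕ) × ℕ) × ℕ => z.2.unpair.1) :=
      (Primrec.fst.comp Primrec.unpair).comp Primrec.snd
    have u2 : Primrec (fun z : ((ℕ × List ℕ) × ℕ) × ℕ => z.2.unpair.2) :=
      (Primrec.snd.comp Primrec.unpair).comp Primrec.snd
    have c : Primrec (fun z : ((ℕ × List ℕ) × ℕ) × ℕ => Denumerable.ofNat Code z.1.1.1) :=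
      (Primrec.ofNat Code).comp (Primrec.fst.comp (Primrec.fst.comp Primrec.fst))
    have tk : Primrec (fun z : ((ℕ × List ℕ) × ℕ) × ℕ => z.1.1.2.take z.2.unpair.1) :=
      Primrec.list_take.comp u1 (Primrec.snd.comp (Primrec.fst.comp Primrec.fst))
    have en : Primrec (fun z : ((ℕ × List ℕ) × ℕ) × ℕ =>
        encode (z.1.1.2.take z.2.unpair.1, z.1.2)) :=
      Primrec.encode.comp (tk.pair (Primrec.snd.comp Primrec.fst))
    exact Code.primrec_evaln.comp ((u2.pair c).pair en)
  have hh : Primrec₂ (fun (q : (ℕ × List ℕ) × ℕ) (z : ℕ × Option ℕ) =>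
      (Option.casesOn z.2 (try1 q.1.1 q.1.2 q.2 z.1) some : Option ℕ)) := by
    have h1 : Primrec (fun w : ((ℕ × List ℕ) × ℕ) × (ℕ × Option ℕ) => w.2.2) :=
      Primrec.snd.comp Primrec.snd
    have h2 : Primrec (fun w : ((ℕ × List ℕ) × ℕ) × (ℕ × Option ℕ) =>
        try1 w.1.1.1 w.1.1.2 w.1.2 w.2.1) :=
      ht.comp (Primrec.fst.pair (Primrec.fst.comp Primrec.snd))
    have h3 : Primrec₂ (fun (_ : ((ℕ × List ℕ) × ℕ) × (ℕ × Option ℕ)) (y : ℕ) => some y) :=
      Primrec.option_some.comp Primrec.snd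
    exact Primrec.option_casesOn h1 h2 h3
  exact Primrec.nat_rec' hf (Primrec.const none) hh

/-- Every partial function recursive in `G` is given by some functional of the family. -/
theorem exists_gam (G : ℕ → ℕ) (f : ℕ →. ℕ) (h : Nat.RecursiveIn {(G : ℕ →. ℕ)} f) :
    ∃ p : ℕ, ∀ x y, y ∈ f x ↔ ∃ n, gam p (pre G n) x = some y := by
  obtain ⟨ev, hev, hm, hs⟩ := use_principle G f h
  have hc : Computable (fun z : ℕ => (decode z : Option (List ℕ × ℕ)).bind
      (fun q => ev q.1 q.2)) := by
    refine Computable.option_bind Computable.decode ?_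
    exact hev.comp (Computable.fst.comp Computable.snd) (Computable.snd.comp Computable.snd)
  obtain ⟨c, hcode⟩ := Code.exists_code.1 (Partrec.nat_iff.1 hc.ofOption)
  refine ⟨encode c, fun x y => ?_⟩
  have hce : Denumerable.ofNat Code (encode c) = c := Denumerable.ofNat_encode c
  have key : ∀ (σ : List ℕ) (x y s : ℕ), Code.evaln s c (encode (σ, x)) = some y →
      ev σ x = some y := by
    intro σ x y s hs'
    have h1 := Code.evaln_sound (Option.mem_def.2 hs')
    rw [hcode] at h1
    simpa [encodek] using h1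
  constructor
  · intro hy
    obtain ⟨n, hn⟩ := (hs x y).1 hy
    have h1 : y ∈ Code.eval c (encode (pre G n, x)) := by
      rw [hcode]
      simp [encodek, hn]
    obtain ⟨s, hs1⟩ := Code.evaln_complete.1 h1
    have h2 : try1 (encode c) (pre G (Nat.pair n s)) x (Nat.pair n s) = some y := by
      rw [try1, hce]
      simp only [Nat.unpair_pair]
      have : (pre G (Nat.pair n s)).take n = pre G n := by
        have h3 : pre G n <+: pre G (Nat.pair n s) := pre_prefix G (Nat.left_le_pair n s)
        have h4 := take_eq_of_prefix h3 (k := n) (by simp)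
        rw [← h4, List.take_of_length_le (by simp)]
      rw [this]
      exact Option.mem_def.1 hs1
    refine ⟨Nat.pair n s, ?_⟩
    cases hg : gam (encode c) (pre G (Nat.pair n s)) x with
    | none =>
      rw [gam, gamN_none_iff] at hg
      have := hg (Nat.pair n s) (by simp)
      rw [h2] at this
      exact absurd this (by simp)
    | some z =>
      have hg' := hg
      rw [gam, gamN_some_iff] at hg'
      obtain ⟨u, hu, h3, _⟩ := hg'
      rw [try1, hce] at h3
      have h4 := key _ _ _ _ h3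
      have h5 : ev (pre G (Nat.pair n s)) x = some z := by
        apply hm _ _ _ _ (List.take_prefix _ _) h4
      have h6 : z ∈ f x := (hs x z).2 ⟨_, h5⟩
      rw [Part.mem_unique h6 hy]
  · rintro ⟨n, hn⟩
    rw [gam, gamN_some_iff] at hn
    obtain ⟨u, hu, h3, _⟩ := hn
    rw [try1, hce] at h3
    have h4 := key _ _ _ _ h3
    exact (hs x y).2 ⟨n, hm _ _ _ _ (List.take_prefix _ _) h4⟩

end Pool.Agent.H715R3.Disp
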