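import Mathlib
import Pool.Agent.H369R3.UT.Defs

set_option autoImplicit false

open Set Filter Topology Metric MeasureTheory

namespace Pool.Agent.H715R3.UTA1

/-- sup-convolution on a set -/
noncomputable def sc (K : Set ℝ) (v : ℝ → ℝ) (n : ℝ) (t : ℝ) : ℝ :=
  sSup ((fun s => v s - n * |t - s|) '' K)

lemma bdd {K : Set ℝ} {v : ℝ → ℝ} {B : ℝ} (hB : ∀ s ∈ K, v s ≤ B) {n : ℝ} (hn : 0 ≤ n) (t : ℝ) :
    BddAbove ((fun s => v s - n * |t - s|) '' K) := by
  refine ⟨B, ?_⟩
  rintro _ ⟨s, hs, rfl⟩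
  have := hB s hs
  have h2 : 0 ≤ n * |t - s| := by positivity
  show v s - n * |t - s| ≤ B
  linarith

lemma le_sc {K : Set ℝ} {v : ℝ → ℝ} {B : ℝ} (hB : ∀ s ∈ K, v s ≤ B) {n : ℝ} (hn : 0 ≤ n)
    (t s : ℝ) (hs : s ∈ K) : v s - n * |t - s| ≤ sc K v n t :=
  le_csSup (bdd hB hn t) ⟨s, hs, rfl⟩

lemma sc_le {K : Set ℝ} {v : ℝ → ℝ} (hK : K.Nonempty) {n t c : ℝ}
    (h : ∀ s ∈ K, v s - n * |t - s| ≤ c) : sc K v n t ≤ c := by
  refine csSup_le (hK.image _) ?_
  rintro _ ⟨s, hs, rfl⟩
  exact h s hs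

lemma sc_cont {K : Set ℝ} {v : ℝ → ℝ} {B : ℝ} (hK : K.Nonempty) (hB : ∀ s ∈ K, v s ≤ B) {n : ℝ}
    (hn : 0 ≤ n) : Continuous (sc K v n) := by
  have key : ∀ t t' : ℝ, sc K v n t ≤ sc K v n t' + n * |t - t'| := by
    intro t t'
    refine sc_le hK fun s hs => ?_
    have h1 := le_sc hB hn t' s hs
    have h2 : |t' - s| ≤ |t - s| + |t - t'| := by
      have := abs_sub_le t' t s
      rw [abs_sub_comm t' t] at this
      linarith
    have h3 := mul_le_mul_of_nonneg_left h2 hn
    nlinarith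
  have h : LipschitzWith n.toNNReal (sc K v n) := by
    refine LipschitzWith.of_dist_le_mul fun t t' => ?_
    rw [Real.dist_eq, Real.dist_eq, Real.coe_toNNReal _ hn, abs_le]
    have h1 := key t t'
    have h2 := key t' t
    rw [abs_sub_comm t' t] at h2
    constructor <;> linarith
  exact h.continuous

theorem taskA1 : Pool.Agent.H369R3.UT.TaskA1 := by
  intro v c L husc hL hmaj
  set K : Set ℝ := Icc 0 (2 * Real.pi) with hK
  have hpi : (0 : ℝ) ≤ 2 * Real.pi := by positivity
  have hKne : K.Nonempty := ⟨0, left_mem_Icc.2 hpi⟩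
  obtain ⟨B, hB0⟩ := husc.bddAbove_of_isCompact isCompact_Icc
  have hB : ∀ s ∈ K, v s ≤ B := fun s hs => hB0 ⟨s, hs, rfl⟩
  have hge : ∀ (n : ℕ) (t : ℝ), t ∈ K → v t ≤ sc K v n t := by
    intro n t ht
    have := le_sc hB (Nat.cast_nonneg n) t t ht
    simpa using this
  have hle : ∀ (n : ℕ) (t : ℝ), sc K v n t ≤ B := by
    intro n t
    refine sc_le hKne fun s hs => ?_
    have := hB s hs
    have h2 : 0 ≤ (n : ℝ) * |t - s| := by positivity
    linarith
  have hlim : ∀ t ∈ K, Tendsto (fun n : ℕ => sc K v n t) atTop (𝓝 (v t)) := by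
    intro t ht
    rw [Metric.tendsto_atTop]
    intro ε hε
    have h1 : ∀ᶠ s in 𝓝[K] t, v s < v t + ε / 2 := husc t ht _ (by linarith)
    rw [eventually_nhdsWithin_iff, Metric.eventually_nhds_iff] at h1
    obtain ⟨δ, hδ, h1⟩ := h1
    obtain ⟨N, hN⟩ := exists_nat_ge ((B - L) / δ)
    refine ⟨N, fun n hn => ?_⟩
    have h2 : sc K v n t ≤ v t + ε / 2 := by
      refine sc_le hKne fun s hs => ?_
      rcases lt_or_ge (dist s t) δ with h | h
      · have h3 := h1 h hs
        have h4 : 0 ≤ (n : ℝ) * |t - s| := by positivity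
        linarith
      · rw [Real.dist_eq, abs_sub_comm] at h
        have h5 : (B - L) / δ ≤ n := hN.trans (by exact_mod_cast hn)
        rw [div_le_iff₀ hδ] at h5
        have h6 : (n : ℝ) * δ ≤ n * |t - s| := mul_le_mul_of_nonneg_left h (Nat.cast_nonneg n)
        have h7 := hB s hs
        have h8 := hL t ht
        linarith
    have h3 := hge n t ht
    rw [Real.dist_eq, abs_lt]
    constructor <;> linarith
  have hint : Tendsto (fun n : ℕ => ∫ θ in (0 : ℝ)..(2 * Real.pi), sc K v n θ) atTop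
      (𝓝 (∫ θ in (0 : ℝ)..(2 * Real.pi), v θ)) := by
    refine intervalIntegral.tendsto_integral_filter_of_dominated_convergence
      (fun _ => max |L| |B|) ?_ ?_ ?_ ?_
    · exact Eventually.of_forall fun n =>
        (sc_cont hKne hB (Nat.cast_nonneg n)).aestronglyMeasurable
    · refine Eventually.of_forall fun n => Eventually.of_forall fun x hx => ?_
      rw [uIoc_of_le hpi] at hx
      have hxK : x ∈ K := ⟨hx.1.le, hx.2⟩
      have h1 := hge n x hxK
      have h2 := hL x hxK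
      have h3 := hle n x
      rw [Real.norm_eq_abs, abs_le]
      constructor
      · have := neg_abs_le L
        have := le_max_left |L| |B|
        linarith
      · have := le_abs_self B
        have := le_max_right |L| |B|
        linarith
    · exact intervalIntegrable_const
    · refine Eventually.of_forall fun x hx => ?_
      rw [uIoc_of_le hpi] at hx
      exact hlim x ⟨hx.1.le, hx.2⟩
  have h9 := hint.const_mul ((2 * Real.pi)⁻¹)
  refine ge_of_tendsto' h9 fun n => ?_
  exact hmaj _ (sc_cont hKne hB (Nat.cast_nonneg n)) fun θ hθ => hge n θ hθ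

end Pool.Agent.H715R3.UTA1
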