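import Mathlib

set_option autoImplicit false

namespace Pool.Agent.H715R3.Comp

open Finset

theorem comp {v k lam : ℕ} (B : Fin v → Finset (Fin v)) (_hk1 : 1 ≤ k) (_hkv : k < v)
    (hk : ∀ i, (B i).card = k) (hr : ∀ x, (Finset.univ.filter (fun i => x ∈ B i)).card = k)
    (hp : ∀ x y : Fin v, x ≠ y →
      (Finset.univ.filter (fun i => x ∈ B i ∧ y ∈ B i)).card = lam)
    (H : Subgroup (Equiv.Perm (Fin v))) (haut : ∀ h ∈ H, ∀ i, ∃ j, (B i).image h = B j) :
    (∀ i, ((B i)ᶜ).card = v - k) ∧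
    (∀ x y : Fin v, x ≠ y →
      (Finset.univ.filter (fun i => x ∈ (B i)ᶜ ∧ y ∈ (B i)ᶜ)).card = v + lam - 2 * k) ∧
    (∀ h ∈ H, ∀ i, ∃ j, ((B i)ᶜ).image h = (B j)ᶜ) := by
  classical
  refine ⟨fun i => ?_, fun x y hxy => ?_, fun h hh i => ?_⟩
  · rw [card_compl, hk i, Fintype.card_fin]
  · have e1 : (univ.filter (fun i => x ∈ (B i)ᶜ ∧ y ∈ (B i)ᶜ)) =
        ((univ.filter (fun i => x ∈ B i)) ∪ (univ.filter (fun i => y ∈ B i)))ᶜ := by
      ext i
      simp only [mem_filter, mem_univ, true_and, mem_compl, mem_union, not_or]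
    have e2 : (univ.filter (fun i => x ∈ B i)) ∩ (univ.filter (fun i => y ∈ B i)) =
        univ.filter (fun i => x ∈ B i ∧ y ∈ B i) := by
      ext i
      simp only [mem_filter, mem_univ, true_and, mem_inter]
    have e3 := card_union_add_card_inter (univ.filter (fun i => x ∈ B i))
      (univ.filter (fun i => y ∈ B i))
    rw [e2, hp x y hxy, hr x, hr y] at e3
    have e4 : ((univ.filter (fun i => x ∈ B i)) ∪ (univ.filter (fun i => y ∈ B i))).card ≤ v := by
      refine (card_le_univ _).trans ?_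
      rw [Fintype.card_fin]
    rw [e1, card_compl, Fintype.card_fin]
    omega
  · obtain ⟨j, hj⟩ := haut h hh i
    refine ⟨j, ?_⟩
    rw [← hj]
    ext z
    simp only [mem_image, mem_compl]
    constructor
    · rintro ⟨w, hw, rfl⟩ ⟨w', hw', h'⟩
      exact hw ((h.injective h') ▸ hw')
    · intro hz
      refine ⟨h.symm z, fun hc => hz ⟨h.symm z, hc, by simp⟩, by simp⟩

end Pool.Agent.H715R3.Comp
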