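import Mathlib

set_option autoImplicit false

/-! Bushy trees in `List ℕ`. -/

namespace Pool.Agent.H715R3.Disp

/-- `P` is `K`-big above `σ`. -/
inductive Big (K : ℕ) (P : Set (List ℕ)) : List ℕ → Prop
  | here {σ : List ℕ} (h : σ ∈ P) : Big K P σ
  | step {σ : List ℕ} (s : Finset ℕ) (hs : K ≤ s.card) (h : ∀ x ∈ s, Big K P (σ ++ [x])) :
      Big K P σ

lemma Big.mono {K K' : ℕ} {P P' : Set (List ℕ)} {σ : List ℕ} (hK : K' ≤ K) (hP : P ⊆ P')
    (h : Big K P σ) : Big K' P' σ := by
  induction h with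
  | here h => exact Big.here (hP h)
  | step s hs _ ih => exact Big.step s (hK.trans hs) ih

/-- only extensions matter -/
lemma Big.restrict {K : ℕ} {P : Set (List ℕ)} {σ : List ℕ} (h : Big K P σ) :
    Big K {ρ | ρ ∈ P ∧ σ <+: ρ} σ := by
  induction h with
  | here h => exact Big.here ⟨h, List.prefix_rfl⟩
  | @step σ s hs _ ih =>
    refine Big.step s hs (fun x hx => (ih x hx).mono le_rfl ?_)
    rintro ρ ⟨h1, h2⟩
    exact ⟨h1, (List.prefix_append _ _).trans h2⟩

lemma Big.bind {K : ℕ} {P Q : Set (List ℕ)} {σ : List ℕ} (h : Big K P σ)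
    (hPQ : ∀ ρ ∈ P, Big K Q ρ) : Big K Q σ := by
  induction h with
  | here h => exact hPQ _ h
  | step s hs _ ih => exact Big.step s hs ih

lemma Big.split {K1 K2 : ℕ} {P P1 P2 : Set (List ℕ)} {σ : List ℕ} (hP : P ⊆ P1 ∪ P2)
    (h : Big (K1 + K2) P σ) : Big K1 P1 σ ∨ Big K2 P2 σ := by
  classical
  induction h with
  | here h =>
    rcases hP h with h1 | h1
    · exact Or.inl (Big.here h1)
    · exact Or.inr (Big.here h1)
  | @step σ s hs _ ih =>
    have hc : (s.filter (fun x => Big K1 P1 (σ ++ [x]))).card +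
        (s.filter (fun x => ¬ Big K1 P1 (σ ++ [x]))).card = s.card :=
      Finset.card_filter_add_card_filter_not _
    by_cases h1 : K1 ≤ (s.filter (fun x => Big K1 P1 (σ ++ [x]))).card
    · exact Or.inl (Big.step _ h1 (fun x hx => (Finset.mem_filter.1 hx).2))
    · refine Or.inr (Big.step (s.filter (fun x => ¬ Big K1 P1 (σ ++ [x]))) (by omega) ?_)
      intro x hx
      rw [Finset.mem_filter] at hx
      rcases ih x hx.1 with h2 | h2
      · exact absurd h2 hx.2
      · exact h2

lemma not_big_empty {σ : List ℕ} : ¬ Big 1 (∅ : Set (List ℕ)) σ := by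
  intro h
  induction h with
  | here h => exact h
  | step s hs _ ih =>
    obtain ⟨x, hx⟩ := Finset.card_pos.1 (lt_of_lt_of_le Nat.one_pos hs)
    exact ih x hx

lemma not_big_union {K : ℕ} {σ : List ℕ} (P : ℕ → Set (List ℕ)) (h : ℕ)
    (hP : ∀ v < h, ¬ Big K (P v) σ) : ¬ Big (K * h + 1) {ρ | ∃ v < h, ρ ∈ P v} σ := by
  induction h with
  | zero =>
    intro hb
    refine not_big_empty (hb.mono (by omega) ?_)
    rintro ρ ⟨v, hv, _⟩
    exact absurd hv (Nat.not_lt_zero v)
  | succ h ih =>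
    intro hb
    have h1 : K * (h + 1) + 1 = (K * h + 1) + K := by ring
    rw [h1] at hb
    have hsub : {ρ | ∃ v < h + 1, ρ ∈ P v} ⊆ {ρ | ∃ v < h, ρ ∈ P v} ∪ P h := by
      rintro ρ ⟨v, hv, hρ⟩
      rcases Nat.lt_succ_iff_lt_or_eq.1 hv with h2 | h2
      · exact Or.inl ⟨v, h2, hρ⟩
      · subst h2; exact Or.inr hρ
    rcases hb.split hsub with h2 | h2
    · exact ih (fun v hv => hP v (Nat.lt_succ_of_lt hv)) h2
    · exact hP h (Nat.lt_succ_self h) h2

lemma exists_ext {k : ℕ} {P : Set (List ℕ)} {σ : List ℕ} (h : ¬ Big k P σ) :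
    ∃ x, ¬ Big k P (σ ++ [x]) := by
  by_contra hcon
  push Not at hcon
  exact h (Big.step (Finset.range k) (by simp) (fun x _ => hcon x))

/-- a finite certificate of bigness -/
def BushyOK (K : ℕ) (D : List (List ℕ)) (N : ℕ) (L : List (List ℕ)) : Prop :=
  ∀ ρ ∈ D, ρ ∈ L ∨ K ≤ ((List.range N).filter (fun x => ρ ++ [x] ∈ D)).length

lemma range_filter_length (N : ℕ) (p : ℕ → Prop) [DecidablePred p] :
    ((List.range N).filter (fun x => p x)).length = ((Finset.range N).filter p).card := by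
  rw [← List.toFinset_card_of_nodup ((List.nodup_range).filter _)]
  congr 1
  ext x
  simp

lemma big_of_cert {K : ℕ} (hK : 1 ≤ K) {D : List (List ℕ)} {N : ℕ} {L : List (List ℕ)}
    (h : BushyOK K D N L) {σ : List ℕ} (hσ : σ ∈ D) : Big K {ρ | ρ ∈ L} σ := by
  -- bound on lengths
  obtain ⟨M, hM⟩ : ∃ M, ∀ ρ ∈ D, ρ.length ≤ M := by
    refine ⟨(D.map List.length).sum, fun ρ hρ => ?_⟩
    exact List.single_le_sum (by simp) _ (List.mem_map_of_mem hρ)
  have key : ∀ j, ∀ ρ ∈ D, M - ρ.length ≤ j → Big K {ρ | ρ ∈ L} ρ := by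
    intro j
    induction j with
    | zero =>
      intro ρ hρ hj
      rcases h ρ hρ with h1 | h1
      · exact Big.here h1
      · exfalso
        have h2 := lt_of_lt_of_le Nat.one_pos (hK.trans h1)
        rw [List.length_pos_iff_exists_mem] at h2
        obtain ⟨x, hx⟩ := h2
        rw [List.mem_filter] at hx
        have hx2 : ρ ++ [x] ∈ D := by simpa using hx.2
        have h3 := hM _ hx2
        simp at h3
        omega
    | succ j ih =>
      intro ρ hρ hj
      rcases h ρ hρ with h1 | h1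
      · exact Big.here h1
      · rw [range_filter_length] at h1
        refine Big.step _ h1 (fun x hx => ?_)
        rw [Finset.mem_filter] at hx
        refine ih _ hx.2 ?_
        have h3 := hM _ hx.2
        simp at h3 ⊢
        omega
  exact key _ σ hσ le_rfl

lemma cert_of_big {K : ℕ} {P : Set (List ℕ)} {σ : List ℕ} (h : Big K P σ) :
    ∃ (D : Finset (List ℕ)) (N : ℕ) (L : Finset (List ℕ)), σ ∈ D ∧
      (∀ ρ ∈ L, ρ ∈ P) ∧
      ∀ ρ ∈ D, ρ ∈ L ∨ K ≤ ((Finset.range N).filter (fun x => ρ ++ [x] ∈ D)).card := by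
  classical
  induction h with
  | @here σ h => exact ⟨{σ}, 0, {σ}, by simp, by simpa using h, by simp⟩
  | @step σ s hs _ ih =>
    choose! D N L h1 h2 h3 using ih
    refine ⟨insert σ (s.biUnion D), s.sup N + s.sup id + 1, s.biUnion L, by simp, ?_, ?_⟩
    · intro ρ hρ
      rw [Finset.mem_biUnion] at hρ
      obtain ⟨x, hx, hρ⟩ := hρ
      exact h2 x hx ρ hρ
    · intro ρ hρ
      rw [Finset.mem_insert] at hρ
      rcases hρ with hρ | hρ
      · right
        subst hρ
        refine hs.trans (Finset.card_le_card ?_)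
        intro x hx
        rw [Finset.mem_filter, Finset.mem_range]
        refine ⟨?_, Finset.mem_insert_of_mem (Finset.mem_biUnion.2 ⟨x, hx, h1 x hx⟩)⟩
        have : x ≤ s.sup id := Finset.le_sup (f := id) hx
        omega
      · rw [Finset.mem_biUnion] at hρ
        obtain ⟨x, hx, hρ⟩ := hρ
        rcases h3 x hx ρ hρ with h4 | h4
        · left; exact Finset.mem_biUnion.2 ⟨x, hx, h4⟩
        · right
          refine h4.trans (Finset.card_le_card ?_)
          intro y hy
          rw [Finset.mem_filter, Finset.mem_range] at hy ⊢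
          have : N x ≤ s.sup N := Finset.le_sup (f := N) hx
          exact ⟨by omega, Finset.mem_insert_of_mem (Finset.mem_biUnion.2 ⟨x, hx, hy.2⟩)⟩

lemma cert_of_big' {K : ℕ} {P : Set (List ℕ)} {σ : List ℕ} (h : Big K P σ) :
    ∃ (D : List (List ℕ)) (N : ℕ) (L : List (List ℕ)), σ ∈ D ∧
      (∀ ρ ∈ L, ρ ∈ P) ∧ BushyOK K D N L := by
  obtain ⟨D, N, L, h1, h2, h3⟩ := cert_of_big h
  refine ⟨D.toList, N, L.toList, by simpa using h1, by simpa using h2, ?_⟩
  intro ρ hρ
  rcases h3 ρ (by simpa using hρ) with h4 | h4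
  · left; simpa using h4
  · right
    rw [range_filter_length]
    simpa using h4

end Pool.Agent.H715R3.Disp
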