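import Pool.Agent.H715R3.D1
import Pool.Agent.H715R3.D2

set_option autoImplicit false

/-! The capturing process. -/

namespace Pool.Agent.H715R3.Disp

open Pool.Agent.Helper743 Encodable

/-- certificates: `((D, N), (L, V))` -/
abbrev CertT := (List (List ℕ) × ℕ) × (List (List ℕ) × List ℕ)

def dC (c : ℕ) : CertT := (decode c : Option CertT).getD (([], 0), ([], []))

lemma dC_encode (t : CertT) : dC (encode t) = t := by rw [dC, encodek]; rfl

def eM (e : ℕ) : ℕ := e.unpair.1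
def eP (e : ℕ) : ℕ := e.unpair.2.unpair.1
def eK (e : ℕ) : ℕ := e.unpair.2.unpair.2.unpair.1
def eS (e : ℕ) : List ℕ := (decode e.unpair.2.unpair.2.unpair.2 : Option (List ℕ)).getD []

def mkE (m p k : ℕ) (σ : List ℕ) : ℕ := Nat.pair m (Nat.pair p (Nat.pair k (encode σ)))

@[simp] lemma eM_mkE (m p k : ℕ) (σ : List ℕ) : eM (mkE m p k σ) = m := by simp [eM, mkE]
@[simp] lemma eP_mkE (m p k : ℕ) (σ : List ℕ) : eP (mkE m p k σ) = p := by simp [eP, mkE]
@[simp] lemma eK_mkE (m p k : ℕ) (σ : List ℕ) : eK (mkE m p k σ) = k := by simp [eK, mkE]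
@[simp] lemma eS_mkE (m p k : ℕ) (σ : List ℕ) : eS (mkE m p k σ) = σ := by simp [eS, mkE]
lemma le_mkE (m p k : ℕ) (σ : List ℕ) : m ≤ mkE m p k σ := Nat.left_le_pair _ _

/-- the bushiness budget -/
def KK (e j : ℕ) : ℕ := (2 ^ (e + 2) + 1 - j) * eK e

/-- current leaves -/
def Lvs (e : ℕ) (s : List ℕ) : List (List ℕ) := (s.head?.map (fun c => (dC c).2.1)).getD [eS e]

@[simp] lemma Lvs_nil (e : ℕ) : Lvs e [] = [eS e] := rfl
@[simp] lemma Lvs_cons (e c : ℕ) (t : List ℕ) : Lvs e (c :: t) = (dC c).2.1 := rfl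

/-- coordinates -/
def crd (e : ℕ) (s : List ℕ) (i : ℕ) : ℕ := Nat.pair e (Nat.pair (encode s) i)

lemma le_crd (e : ℕ) (s : List ℕ) (i : ℕ) : e ≤ crd e s i := Nat.left_le_pair _ _

def LeafOK (e : ℕ) (s : List ℕ) (V : List ℕ) (ρ : List ℕ) : Prop :=
  ∃ i < (Lvs e s).length, ρ.take ((Lvs e s).getD i []).length = (Lvs e s).getD i [] ∧
    gam (eP e) ρ (crd e s i) = some (V.getD i 0)

def Chk (e : ℕ) (s : List ℕ) (c : ℕ) : Prop :=
  eS e ∈ (dC c).1.1 ∧
  BushyOK (KK e (s.length + 1)) (dC c).1.1 (dC c).1.2 (dC c).2.1 ∧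
  ∀ ρ ∈ (dC c).2.1, LeafOK e s (dC c).2.2 ρ

/-- every entry satisfies `P` relative to the earlier part -/
def VG (P : ℕ → List ℕ → ℕ → Prop) (e : ℕ) : List ℕ → Prop
  | [] => True
  | c :: t => P e t c ∧ VG P e t

/-- `c` is the least certificate -/
def Lst (e : ℕ) (s : List ℕ) (c : ℕ) : Prop := Chk e s c ∧ ∀ c' < c, ¬ Chk e s c'

def Valid (e : ℕ) (s : List ℕ) : Prop := VG Lst e s

lemma valid_nil (e : ℕ) : Valid e [] := trivial
lemma valid_cons {e c : ℕ} {t : List ℕ} : Valid e (c :: t) ↔ Lst e t c ∧ Valid e t := Iff.rfl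

/-! primitive recursiveness -/

lemma exLt {β : Type*} [Primcodable β] {R : ℕ → β → Prop} (hR : PrimrecRel R) :
    PrimrecRel (fun (n : ℕ) (y : β) => ∃ x < n, R x y) := by
  have h := hR.exists_mem_list
  have h2 : PrimrecRel (fun (n : ℕ) (y : β) => ∃ x ∈ List.range n, R x y) :=
    h.comp (Primrec.list_range.comp Primrec.fst) Primrec.snd
  exact h2.of_eq (fun n y => by simp)

lemma allLt {β : Type*} [Primcodable β] {R : ℕ → β → Prop} (hR : PrimrecRel R) :
    PrimrecRel (fun (n : ℕ) (y : β) => ∀ x < n, R x y) := by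
  have h := hR.forall_mem_list
  have h2 : PrimrecRel (fun (n : ℕ) (y : β) => ∀ x ∈ List.range n, R x y) :=
    h.comp (Primrec.list_range.comp Primrec.fst) Primrec.snd
  exact h2.of_eq (fun n y => by simp)


lemma dC_primrec : Primrec dC := Primrec.option_getD.comp Primrec.decode (Primrec.const _)

lemma eP_primrec : Primrec eP :=
  Primrec.fst.comp (Primrec.unpair.comp (Primrec.snd.comp Primrec.unpair))

lemma un2_primrec : Primrec (fun e : ℕ => e.unpair.2.unpair.2) :=
  Primrec.snd.comp (Primrec.unpair.comp (Primrec.snd.comp Primrec.unpair))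

lemma eK_primrec : Primrec eK :=
  Primrec.fst.comp (Primrec.unpair.comp un2_primrec)

lemma eS_primrec : Primrec eS :=
  Primrec.option_getD.comp (Primrec.decode.comp (Primrec.snd.comp (Primrec.unpair.comp un2_primrec)))
    (Primrec.const _)

lemma pow_primrec : Primrec₂ (fun a b : ℕ => a ^ b) := Primrec₂.unpaired'.1 Nat.Primrec.pow

lemma KK_primrec : Primrec₂ KK := by
  have h1 : Primrec (fun q : ℕ × ℕ => 2 ^ (q.1 + 2)) :=
    pow_primrec.comp (Primrec.const 2) (Primrec.succ.comp (Primrec.succ.comp Primrec.fst))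
  have h2 : Primrec (fun q : ℕ × ℕ => 2 ^ (q.1 + 2) + 1 - q.2) :=
    Primrec.nat_sub.comp (Primrec.succ.comp h1) Primrec.snd
  exact Primrec.nat_mul.comp h2 (eK_primrec.comp Primrec.fst)

lemma Lvs_primrec : Primrec₂ Lvs := by
  have h1 : Primrec (fun q : ℕ × List ℕ => q.2.head?) := Primrec.list_head?.comp Primrec.snd
  have h2 : Primrec₂ (fun (_ : ℕ × List ℕ) (c : ℕ) => (dC c).2.1) :=
    Primrec.fst.comp (Primrec.snd.comp (dC_primrec.comp Primrec.snd))
  have h3 : Primrec (fun q : ℕ × List ℕ => [eS q.1]) :=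
    Primrec.list_cons.comp (eS_primrec.comp Primrec.fst) (Primrec.const [])
  exact Primrec.option_getD.comp (Primrec.option_map h1 h2) h3

lemma mem_primrec : PrimrecRel (fun (ρ : List ℕ) (L : List (List ℕ)) => ρ ∈ L) := by
  have h : PrimrecRel (fun (a ρ : List ℕ) => a = ρ) := Primrec.eq
  have h2 := h.exists_mem_list
  have h3 : PrimrecRel (fun (ρ : List ℕ) (L : List (List ℕ)) => ∃ a ∈ L, a = ρ) :=
    h2.comp Primrec.snd Primrec.fst
  exact h3.of_eq (fun ρ L => by simp)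

lemma bushy_primrec : PrimrecPred (fun q : (ℕ × ℕ) × (List (List ℕ) × List (List ℕ)) =>
    BushyOK q.1.1 q.2.1 q.1.2 q.2.2) := by
  have hR : PrimrecRel (fun (x : ℕ) (y : List ℕ × List (List ℕ)) => y.1 ++ [x] ∈ y.2) := by
    refine mem_primrec.comp (g := fun q : ℕ × (List ℕ × List (List ℕ)) => q.2.2) ?_ ?_
    · exact Primrec.list_append.comp (Primrec.fst.comp Primrec.snd)
        (Primrec.list_cons.comp Primrec.fst (Primrec.const []))
    · exact Primrec.snd.comp Primrec.snd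
  have hF := hR.listFilter
  have hR2 : PrimrecRel (fun (ρ : List ℕ) (q : (ℕ × ℕ) × (List (List ℕ) × List (List ℕ))) =>
      ρ ∈ q.2.2 ∨ q.1.1 ≤ ((List.range q.1.2).filter (fun x => ρ ++ [x] ∈ q.2.1)).length) := by
    refine PrimrecPred.or ?_ ?_
    · exact mem_primrec.comp Primrec.fst (Primrec.snd.comp (Primrec.snd.comp Primrec.snd))
    · have k1 : Primrec (fun z : List ℕ × ((ℕ × ℕ) × (List (List ℕ) × List (List ℕ))) =>
          z.2.1.1) := Primrec.fst.comp (Primrec.fst.comp Primrec.snd)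
      have k2 : Primrec (fun z : List ℕ × ((ℕ × ℕ) × (List (List ℕ) × List (List ℕ))) =>
          List.range z.2.1.2) :=
        Primrec.list_range.comp (Primrec.snd.comp (Primrec.fst.comp Primrec.snd))
      have k3 : Primrec (fun z : List ℕ × ((ℕ × ℕ) × (List (List ℕ) × List (List ℕ))) =>
          (z.1, z.2.2.1)) :=
        Primrec.fst.pair (Primrec.fst.comp (Primrec.snd.comp Primrec.snd))
      have k4 := Primrec.list_length.comp (hF.comp k2 k3)
      exact Primrec.nat_le.comp k1 k4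
  have h3 := hR2.forall_mem_list
  exact h3.comp (Primrec.fst.comp Primrec.snd) Primrec.id

lemma getD_primrec : Primrec₂ (fun (l : List ℕ) (i : ℕ) => l.getD i 0) := Primrec.list_getD 0

lemma getD2_primrec : Primrec₂ (fun (l : List (List ℕ)) (i : ℕ) => l.getD i []) :=
  Primrec.list_getD []

lemma crd_primrec : Primrec (fun q : (ℕ × List ℕ) × ℕ => crd q.1.1 q.1.2 q.2) :=
  Primrec₂.natPair.comp (Primrec.fst.comp Primrec.fst)
    (Primrec₂.natPair.comp (Primrec.encode.comp (Primrec.snd.comp Primrec.fst)) Primrec.snd)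

lemma leaf_primrec : PrimrecRel (fun (ρ : List ℕ) (q : (ℕ × List ℕ) × List ℕ) =>
    LeafOK q.1.1 q.1.2 q.2 ρ) := by
  -- parameters: z = (ρ, q)
  have hR : PrimrecRel (fun (i : ℕ) (z : List ℕ × ((ℕ × List ℕ) × List ℕ)) =>
      z.1.take ((Lvs z.2.1.1 z.2.1.2).getD i []).length = (Lvs z.2.1.1 z.2.1.2).getD i [] ∧
      gam (eP z.2.1.1) z.1 (crd z.2.1.1 z.2.1.2 i) = some (z.2.2.getD i 0)) := by
    have a1 : Primrec (fun w : ℕ × (List ℕ × ((ℕ × List ℕ) × List ℕ)) => w.2.1) :=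
      Primrec.fst.comp Primrec.snd
    have a2 : Primrec (fun w : ℕ × (List ℕ × ((ℕ × List ℕ) × List ℕ)) => w.2.2.1.1) :=
      Primrec.fst.comp (Primrec.fst.comp (Primrec.snd.comp Primrec.snd))
    have a3 : Primrec (fun w : ℕ × (List ℕ × ((ℕ × List ℕ) × List ℕ)) => w.2.2.1.2) :=
      Primrec.snd.comp (Primrec.fst.comp (Primrec.snd.comp Primrec.snd))
    have a4 : Primrec (fun w : ℕ × (List ℕ × ((ℕ × List ℕ) × List ℕ)) => w.2.2.2) :=
      Primrec.snd.comp (Primrec.snd.comp Primrec.snd)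
    have a5 : Primrec (fun w : ℕ × (List ℕ × ((ℕ × List ℕ) × List ℕ)) =>
        (Lvs w.2.2.1.1 w.2.2.1.2).getD w.1 []) :=
      getD2_primrec.comp (Lvs_primrec.comp a2 a3) Primrec.fst
    have a6 : Primrec (fun w : ℕ × (List ℕ × ((ℕ × List ℕ) × List ℕ)) =>
        crd w.2.2.1.1 w.2.2.1.2 w.1) :=
      crd_primrec.comp ((a2.pair a3).pair Primrec.fst)
    have a7 : Primrec (fun w : ℕ × (List ℕ × ((ℕ × List ℕ) × List ℕ)) =>
        gam (eP w.2.2.1.1) w.2.1 (crd w.2.2.1.1 w.2.2.1.2 w.1)) :=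
      gam_primrec.comp (((eP_primrec.comp a2).pair a1).pair a6)
    refine PrimrecPred.and ?_ ?_
    · exact Primrec.eq.comp (Primrec.list_take.comp (Primrec.list_length.comp a5) a1) a5
    · exact Primrec.eq.comp a7 (Primrec.option_some.comp (getD_primrec.comp a4 Primrec.fst))
  have hE := exLt hR
  have b1 : Primrec (fun z : List ℕ × ((ℕ × List ℕ) × List ℕ) =>
      (Lvs z.2.1.1 z.2.1.2).length) :=
    Primrec.list_length.comp (Lvs_primrec.comp (Primrec.fst.comp (Primrec.fst.comp Primrec.snd))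
      (Primrec.snd.comp (Primrec.fst.comp Primrec.snd)))
  exact hE.comp b1 Primrec.id

lemma chk_primrec : PrimrecPred (fun q : (ℕ × List ℕ) × ℕ => Chk q.1.1 q.1.2 q.2) := by
  have a1 : Primrec (fun q : (ℕ × List ℕ) × ℕ => q.1.1) := Primrec.fst.comp Primrec.fst
  have a2 : Primrec (fun q : (ℕ × List ℕ) × ℕ => q.1.2) := Primrec.snd.comp Primrec.fst
  have a3 : Primrec (fun q : (ℕ × List ℕ) × ℕ => dC q.2) := dC_primrec.comp Primrec.snd
  have a4 : Primrec (fun q : (ℕ × List ℕ) × ℕ => (dC q.2).1.1) :=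
    Primrec.fst.comp (Primrec.fst.comp a3)
  have a5 : Primrec (fun q : (ℕ × List ℕ) × ℕ => (dC q.2).1.2) :=
    Primrec.snd.comp (Primrec.fst.comp a3)
  have a6 : Primrec (fun q : (ℕ × List ℕ) × ℕ => (dC q.2).2.1) :=
    Primrec.fst.comp (Primrec.snd.comp a3)
  have a7 : Primrec (fun q : (ℕ × List ℕ) × ℕ => (dC q.2).2.2) :=
    Primrec.snd.comp (Primrec.snd.comp a3)
  have a8 : Primrec (fun q : (ℕ × List ℕ) × ℕ => KK q.1.1 (q.1.2.length + 1)) :=
    KK_primrec.comp a1 (Primrec.succ.comp (Primrec.list_length.comp a2))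
  refine PrimrecPred.and ?_ (PrimrecPred.and ?_ ?_)
  · exact mem_primrec.comp (eS_primrec.comp a1) a4
  · exact bushy_primrec.comp ((a8.pair a5).pair (a4.pair a6))
  · exact (leaf_primrec.forall_mem_list).comp a6 ((a1.pair a2).pair a7)

lemma least_primrec : PrimrecPred (fun q : (ℕ × List ℕ) × ℕ => Lst q.1.1 q.1.2 q.2) := by
  refine PrimrecPred.and chk_primrec ?_
  have h1 : PrimrecRel (fun (c : ℕ) (q : ℕ × List ℕ) => ¬ Chk q.1 q.2 c) :=
    (chk_primrec.comp (Primrec.snd.pair Primrec.fst)).not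
  exact (allLt h1).comp Primrec.snd Primrec.fst

lemma VG_primrec (P : ℕ → List ℕ → ℕ → Prop)
    (hP : PrimrecPred (fun q : (ℕ × List ℕ) × ℕ => P q.1.1 q.1.2 q.2)) :
    PrimrecPred (fun q : ℕ × List ℕ => VG P q.1 q.2) := by
  classical
  have hl := hP.decide
  have hh : Primrec₂ (fun (q : ℕ × List ℕ) (w : ℕ × List ℕ × Bool) =>
      (decide (P q.1 w.2.1 w.1) && w.2.2)) := by
    have b1 : Primrec (fun z : (ℕ × List ℕ) × (ℕ × List ℕ × Bool) => ((z.1.1, z.2.2.1), z.2.1)) :=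
      ((Primrec.fst.comp Primrec.fst).pair
        (Primrec.fst.comp (Primrec.snd.comp Primrec.snd))).pair
        (Primrec.fst.comp Primrec.snd)
    exact Primrec.and.comp (hl.comp b1) (Primrec.snd.comp (Primrec.snd.comp Primrec.snd))
  have h := Primrec.list_rec (Primrec.snd : Primrec (fun q : ℕ × List ℕ => q.2))
    (Primrec.const true) hh
  have h2 : Primrec (fun q : ℕ × List ℕ => decide (VG P q.1 q.2)) := by
    refine h.of_eq ?_
    rintro ⟨e, s⟩
    induction s with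
    | nil => simp [VG]
    | cons c t ih =>
      simp only at ih ⊢
      rw [ih]
      simp only [VG, Bool.decide_and]
  exact h2.primrecPred

lemma valid_primrec : PrimrecPred (fun q : ℕ × List ℕ => Valid q.1 q.2) :=
  VG_primrec Lst least_primrec

end Pool.Agent.H715R3.Disp
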