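import Pool.Agent.H715R3.D3

set_option autoImplicit false

/-! Correctness of the process and the density lemma. -/

namespace Pool.Agent.H715R3.Disp

open Pool.Agent.Helper743 Encodable

/-- the number coded by the first `n` bits -/
def pcN (B : ℕ → Bool) : ℕ → ℕ
  | 0 => 0
  | n + 1 => 2 * pcN B n + (B n).toNat

lemma pcN_lt (B : ℕ → Bool) (n : ℕ) : pcN B n < 2 ^ n := by
  induction n with
  | zero => simp [pcN]
  | succ n ih =>
    have h1 : (B n).toNat ≤ 1 := Bool.toNat_le _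
    rw [pcN, pow_succ]
    omega

lemma pcN_inj {B B' : ℕ → Bool} {n : ℕ} (h : pcN B n = pcN B' n) : ∀ i < n, B i = B' i := by
  induction n with
  | zero => intro i hi; exact absurd hi (Nat.not_lt_zero i)
  | succ n ih =>
    rw [pcN, pcN] at h
    have h1 : (B n).toNat ≤ 1 := Bool.toNat_le _
    have h2 : (B' n).toNat ≤ 1 := Bool.toNat_le _
    have h3 : pcN B n = pcN B' n := by omega
    have h4 : (B n).toNat = (B' n).toNat := by omega
    intro i hi
    rcases Nat.lt_succ_iff_lt_or_eq.1 hi with h5 | h5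
    · exact ih h3 i h5
    · subst h5
      cases hb : B i <;> cases hb' : B' i <;> simp_all

/-- `B` is never stuck -/
def SS : Set (ℕ → Bool) :=
  {B | ∀ e s, Valid e s → s.length = pcN B (e + 2) → ∃ c, Chk e s c}

lemma exists_lst {e : ℕ} {s : List ℕ} (h : ∃ c, Chk e s c) : ∃ c, Lst e s c := by
  classical
  exact ⟨Nat.find h, Nat.find_spec h, fun c' hc' => Nat.find_min h hc'⟩

lemma lst_unique {e : ℕ} {s : List ℕ} {c c' : ℕ} (h : Lst e s c) (h' : Lst e s c') : c = c' := by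
  rcases lt_trichotomy c c' with h1 | h1 | h1
  · exact absurd h.1 (h'.2 _ h1)
  · exact h1
  · exact absurd h'.1 (h.2 _ h1)

lemma valid_unique {e : ℕ} {s s' : List ℕ} (h : Valid e s) (h' : Valid e s')
    (hl : s.length = s'.length) : s = s' := by
  induction s generalizing s' with
  | nil =>
    cases s' with
    | nil => rfl
    | cons c' t' => simp at hl
  | cons c t ih =>
    cases s' with
    | nil => simp at hl
    | cons c' t' =>
      rw [valid_cons] at h h'
      have h1 : t = t' := ih h.2 h'.2 (by simpa using hl)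
      subst h1
      rw [lst_unique h.1 h'.1]

lemma chk_of_longer {e : ℕ} {s s' : List ℕ} (h : Valid e s) (h' : Valid e s')
    (hl : s.length < s'.length) : ∃ c, Chk e s c := by
  induction s' with
  | nil => simp at hl
  | cons c' t' ih =>
    rw [valid_cons] at h'
    rcases Nat.lt_succ_iff_lt_or_eq.1 (by simpa using hl : s.length < t'.length + 1) with h1 | h1
    · exact ih h'.2 h1
    · have h2 := valid_unique h h'.2 h1
      subst h2
      exact ⟨c', h'.1.1⟩

/-- at most one stuck length -/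
lemma stuck_unique {e : ℕ} {s s' : List ℕ} (h : Valid e s) (h' : Valid e s')
    (hs : ¬ ∃ c, Chk e s c) (hs' : ¬ ∃ c, Chk e s' c) : s = s' := by
  rcases lt_trichotomy s.length s'.length with h1 | h1 | h1
  · exact absurd (chk_of_longer h h' h1) hs
  · exact valid_unique h h' h1
  · exact absurd (chk_of_longer h' h h1) hs'

/-- the captured values -/
noncomputable def gg (B : ℕ → Bool) (n : ℕ) : ℕ := by
  classical
  exact if h : (Valid n.unpair.1 ((decode n.unpair.2.unpair.1 : Option (List ℕ)).getD []) ∧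
        ((decode n.unpair.2.unpair.1 : Option (List ℕ)).getD []).length = pcN B (n.unpair.1 + 2)) ∧
      (∃ c, Lst n.unpair.1 ((decode n.unpair.2.unpair.1 : Option (List ℕ)).getD []) c) then
    (dC h.2.choose).2.2.getD n.unpair.2.unpair.2 0 else 0

lemma gg_crd {B : ℕ → Bool} {e : ℕ} {s : List ℕ} {c i : ℕ} (hv : Valid e s)
    (hl : s.length = pcN B (e + 2)) (hc : Lst e s c) :
    gg B (crd e s i) = (dC c).2.2.getD i 0 := by
  have h1 : (crd e s i).unpair.1 = e := by simp [crd]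
  have h2 : ((decode (crd e s i).unpair.2.unpair.1 : Option (List ℕ)).getD []) = s := by
    simp [crd]
  have h3 : (crd e s i).unpair.2.unpair.2 = i := by simp [crd]
  have key : ∀ (e' : ℕ) (s' : List ℕ) (i' : ℕ), e' = e → s' = s → i' = i →
      ∀ (h : (Valid e' s' ∧ s'.length = pcN B (e' + 2)) ∧ (∃ c, Lst e' s' c)),
      (dC h.2.choose).2.2.getD i' 0 = (dC c).2.2.getD i 0 := by
    rintro e' s' i' rfl rfl rfl h
    rw [lst_unique h.2.choose_spec hc]
  have hcond : (Valid (crd e s i).unpair.1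
        ((decode (crd e s i).unpair.2.unpair.1 : Option (List ℕ)).getD []) ∧
        ((decode (crd e s i).unpair.2.unpair.1 : Option (List ℕ)).getD []).length =
          pcN B ((crd e s i).unpair.1 + 2)) ∧
      (∃ c, Lst (crd e s i).unpair.1
        ((decode (crd e s i).unpair.2.unpair.1 : Option (List ℕ)).getD []) c) := by
    rw [h1, h2]
    exact ⟨⟨hv, hl⟩, c, hc⟩
  rw [gg, dif_pos hcond]
  exact key _ _ _ h1 h2 h3 hcond

/-! facts about valid states -/

lemma take_prefix_of_eq {ρ τ : List ℕ} (h : ρ.take τ.length = τ) : τ <+: ρ := by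
  rw [← h]; exact List.take_prefix _ _

lemma getD_mem {L : List (List ℕ)} {i : ℕ} (h : i < L.length) : L.getD i [] ∈ L := by
  rw [List.getD_eq_getElem _ _ h]; exact List.getElem_mem h

lemma leaf_facts {e : ℕ} {s : List ℕ} (h : Valid e s) : ∀ ρ ∈ Lvs e s, eS e <+: ρ ∧
    ∀ B : ℕ → Bool, pcN B (e + 2) < s.length →
      ∃ n ≥ e, gam (eP e) ρ n = some (gg B n) := by
  induction s with
  | nil =>
    intro ρ hρ
    simp only [Lvs_nil, List.mem_singleton] at hρ
    subst hρ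
    exact ⟨List.prefix_rfl, fun B hB => absurd hB (by simp)⟩
  | cons c t ih =>
    rw [valid_cons] at h
    intro ρ hρ
    rw [Lvs_cons] at hρ
    obtain ⟨i, hi, h1, h2⟩ := h.1.1.2.2 ρ hρ
    have h3 := take_prefix_of_eq h1
    obtain ⟨h4, h5⟩ := ih h.2 _ (getD_mem hi)
    refine ⟨h4.trans h3, fun B hB => ?_⟩
    rcases Nat.lt_succ_iff_lt_or_eq.1 (by simpa using hB : pcN B (e + 2) < t.length + 1)
      with h6 | h6
    · obtain ⟨n, hn, h7⟩ := h5 B h6
      exact ⟨n, hn, gam_mono h3 h7⟩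
    · refine ⟨crd e t i, le_crd _ _ _, ?_⟩
      rw [h2, gg_crd h.2 h6.symm h.1]

lemma leaves_big {e : ℕ} (hk : 1 ≤ eK e) {s : List ℕ} (h : Valid e s)
    (hl : s.length ≤ 2 ^ (e + 2)) : Big (KK e s.length) {ρ | ρ ∈ Lvs e s} (eS e) := by
  cases s with
  | nil => exact Big.here (by simp)
  | cons c t =>
    rw [valid_cons] at h
    obtain ⟨h1, h2, _⟩ := h.1.1
    have hK : 1 ≤ KK e (t.length + 1) := by
      rw [KK]
      have h3 : 1 ≤ 2 ^ (e + 2) + 1 - (t.length + 1) := by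
        simp only [List.length_cons] at hl
        omega
      exact Nat.mul_pos h3 hk
    exact big_of_cert hK h2 h1

lemma reach_or_stuck (e N : ℕ) : (∃ s, Valid e s ∧ s.length = N) ∨
    (∃ s, Valid e s ∧ s.length < N ∧ ¬ ∃ c, Chk e s c) := by
  induction N with
  | zero => exact Or.inl ⟨[], valid_nil e, rfl⟩
  | succ N ih =>
    rcases ih with ⟨s, h1, h2⟩ | ⟨s, h1, h2, h3⟩
    · by_cases h3 : ∃ c, Chk e s c
      · obtain ⟨c, hc⟩ := exists_lst h3
        exact Or.inl ⟨c :: s, valid_cons.2 ⟨hc, h1⟩, by simp [h2]⟩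
      · exact Or.inr ⟨s, h1, by omega, h3⟩
    · exact Or.inr ⟨s, h1, by omega, h3⟩

/-- stuck processes have a leaf above which all values are small -/
lemma stuck_leaf {e : ℕ} (hk : 1 ≤ eK e) {s : List ℕ} (h : Valid e s)
    (hl : s.length < 2 ^ (e + 2)) (hst : ¬ ∃ c, Chk e s c) {P : Set (List ℕ)}
    (hP : ¬ Big (eK e) P (eS e)) (hb : ℕ → ℕ) :
    ∃ i < (Lvs e s).length, ¬ Big (eK e) P ((Lvs e s).getD i []) ∧
      ∀ v < hb (crd e s i), ¬ Big (KK e (s.length + 1))
        {ρ | gam (eP e) ρ (crd e s i) = some v} ((Lvs e s).getD i []) := by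
  classical
  by_contra hcon
  push Not at hcon
  have h0 := leaves_big hk h hl.le
  have hKK : KK e s.length = eK e + KK e (s.length + 1) := by
    rw [KK, KK]
    have h3 : 2 ^ (e + 2) + 1 - s.length = 1 + (2 ^ (e + 2) + 1 - (s.length + 1)) := by omega
    rw [h3, Nat.add_mul, Nat.one_mul]
  rw [hKK] at h0
  set K' := KK e (s.length + 1) with hK'
  have hsub : {ρ | ρ ∈ Lvs e s} ⊆ {τ | Big (eK e) P τ} ∪
      {τ | ∃ i < (Lvs e s).length, τ = (Lvs e s).getD i [] ∧
        ∃ v, Big K' {ρ | gam (eP e) ρ (crd e s i) = some v} τ} := by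
    intro τ hτ
    rw [Set.mem_ofPred_eq] at hτ
    obtain ⟨i, hi, h1⟩ := List.getElem_of_mem hτ
    have h2 : (Lvs e s).getD i [] = τ := by rw [List.getD_eq_getElem _ _ hi, h1]
    by_cases h3 : Big (eK e) P τ
    · exact Or.inl h3
    · right
      obtain ⟨v, _, h4⟩ := hcon i hi (by rw [h2]; exact h3)
      exact ⟨i, hi, h2.symm, v, by rw [← h2]; exact h4⟩
  rcases h0.split hsub with h1 | h1
  · exact hP (h1.bind (fun ρ hρ => hρ))
  · apply hst
    -- choose the values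
    let V : ℕ → ℕ := fun i => if h : ∃ v, Big K' {ρ | gam (eP e) ρ (crd e s i) = some v}
      ((Lvs e s).getD i []) then h.choose else 0
    have h2 : Big K' {ρ | ∃ i < (Lvs e s).length, (Lvs e s).getD i [] <+: ρ ∧
        gam (eP e) ρ (crd e s i) = some (V i)} (eS e) := by
      refine h1.bind ?_
      rintro τ ⟨i, hi, rfl, hv⟩
      have hV : V i = hv.choose := by simp only [V]; rw [dif_pos hv]
      refine (hv.choose_spec.restrict).mono le_rfl ?_
      rintro ρ ⟨h3, h4⟩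
      refine ⟨i, hi, h4, ?_⟩
      rw [hV]; exact h3
    obtain ⟨D, N, L, h3, h4, h5⟩ := cert_of_big' h2
    refine ⟨encode (((D, N), (L, (List.range (Lvs e s).length).map V)) : CertT), ?_⟩
    rw [Chk, dC_encode]
    refine ⟨h3, h5, fun ρ hρ => ?_⟩
    obtain ⟨i, hi, h6, h7⟩ := h4 ρ hρ
    refine ⟨i, hi, List.prefix_iff_eq_take.1 h6 |>.symm, ?_⟩
    rw [h7]
    congr 1
    rw [List.getD_eq_getElem _ _ (by simpa using hi)]
    simp

/-- The density lemma. -/
lemma density (hb : ℕ → ℕ) (p m : ℕ) {σ : List ℕ} {P : Set (List ℕ)} {k : ℕ}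
    (hk : 1 ≤ k) (hup : ∀ ρ ρ', ρ ∈ P → ρ <+: ρ' → ρ' ∈ P) (hs : ¬ Big k P σ) :
    ∃ (σ' : List ℕ) (P' : Set (List ℕ)) (k' : ℕ), σ <+: σ' ∧ P ⊆ P' ∧ 1 ≤ k' ∧
      (∀ ρ ρ', ρ ∈ P' → ρ <+: ρ' → ρ' ∈ P') ∧ ¬ Big k' P' σ' ∧
      ((∃ n, ∀ ρ, σ' <+: ρ → ρ ∉ P' → ∀ v < hb n, gam p ρ n ≠ some v) ∨
       (∀ B : ℕ → Bool, ∃ n ≥ m, gam p σ' n = some (gg B n))) := by
  set e := mkE m p k σ with he
  have e1 : eK e = k := by rw [he]; simp
  have e2 : eP e = p := by rw [he]; simp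
  have e3 : eS e = σ := by rw [he]; simp
  have e4 : m ≤ e := le_mkE _ _ _ _
  rcases reach_or_stuck e (2 ^ (e + 2)) with ⟨s, h1, h2⟩ | ⟨s, h1, h2, h3⟩
  · have h3 := leaves_big (by rw [e1]; exact hk) h1 h2.le
    rw [h2] at h3
    have hKK : KK e (2 ^ (e + 2)) = k := by
      rw [KK, e1]
      have : 2 ^ (e + 2) + 1 - 2 ^ (e + 2) = 1 := by omega
      rw [this, Nat.one_mul]
    rw [hKK, e3] at h3
    have h4 : ∃ ρ ∈ Lvs e s, ¬ Big k P ρ := by
      by_contra hcon
      push Not at hcon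
      exact hs (h3.bind hcon)
    obtain ⟨ρ, hρ, h5⟩ := h4
    obtain ⟨h6, h7⟩ := leaf_facts h1 ρ hρ
    rw [e3] at h6
    refine ⟨ρ, P, k, h6, le_rfl, hk, hup, h5, Or.inr (fun B => ?_)⟩
    obtain ⟨n, hn, h8⟩ := h7 B (by rw [h2]; exact pcN_lt B _)
    rw [e2] at h8
    exact ⟨n, e4.trans hn, h8⟩
  · obtain ⟨i, hi, h4, h5⟩ := stuck_leaf (by rw [e1]; exact hk) h1 h2 h3
      (by rw [e1, e3]; exact hs) hb
    obtain ⟨h6, _⟩ := leaf_facts h1 _ (getD_mem hi)
    rw [e3] at h6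
    rw [e1] at h4
    rw [e2] at h5
    set τ := (Lvs e s).getD i [] with hτ
    set n := crd e s i with hn
    set K' := KK e (s.length + 1) with hK'
    refine ⟨τ, P ∪ {ρ | ∃ v < hb n, ρ ∈ {ρ | gam p ρ n = some v}}, k + (K' * hb n + 1), h6,
      Set.subset_union_left, by omega, ?_, ?_, Or.inl ⟨n, ?_⟩⟩
    · rintro ρ ρ' (hρ | ⟨v, hv, hρ⟩) hpre
      · exact Or.inl (hup ρ ρ' hρ hpre)
      · exact Or.inr ⟨v, hv, gam_mono hpre hρ⟩
    · intro hbig
      rcases hbig.split le_rfl with h7 | h7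
      · exact h4 h7
      · exact not_big_union (fun v => {ρ | gam p ρ n = some v}) (hb n) h5 h7
    · intro ρ _ hρP v hv hval
      exact hρP (Or.inr ⟨v, hv, hval⟩)

/-- forcing conditions -/
structure Cond where
  σ : List ℕ
  P : Set (List ℕ)
  k : ℕ
  hk : 1 ≤ k
  up : ∀ ρ ρ', ρ ∈ P → ρ <+: ρ' → ρ' ∈ P
  small : ¬ Big k P σ

/-- the outcome at a condition -/
def Out (hb : ℕ → ℕ) (p m : ℕ) (c : Cond) : Prop :=
  (∃ n, ∀ ρ, c.σ <+: ρ → ρ ∉ c.P → ∀ v < hb n, gam p ρ n ≠ some v) ∨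
  (∀ B : ℕ → Bool, ∃ n ≥ m, gam p c.σ n = some (gg B n))

lemma Out.ext {hb : ℕ → ℕ} {p m : ℕ} {c c' : Cond} (h : Out hb p m c) (h1 : c.σ <+: c'.σ)
    (h2 : c.P ⊆ c'.P) : Out hb p m c' := by
  rcases h with ⟨n, h⟩ | h
  · exact Or.inl ⟨n, fun ρ hρ hP => h ρ (h1.trans hρ) (fun h3 => hP (h2 h3))⟩
  · refine Or.inr (fun B => ?_)
    obtain ⟨n, hn, h3⟩ := h B
    exact ⟨n, hn, gam_mono h1 h3⟩

lemma step_ex (hb : ℕ → ℕ) (p m : ℕ) (c : Cond) : ∃ c' : Cond, c.σ <+: c'.σ ∧ c.P ⊆ c'.P ∧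
    c.σ.length < c'.σ.length ∧ Out hb p m c' := by
  obtain ⟨σ', P', k', h1, h2, h3, h4, h5, h6⟩ := density hb p m c.hk c.up c.small
  obtain ⟨x, hx⟩ := exists_ext h5
  have h7 : Out hb p m ⟨σ', P', k', h3, h4, h5⟩ := h6
  refine ⟨⟨σ' ++ [x], P', k', h3, h4, hx⟩, h1.trans (List.prefix_append _ _), h2, ?_,
    h7.ext (List.prefix_append _ _) le_rfl⟩
  have := h1.length_le
  simp
  omega

/-- The generic. -/
theorem generic (hb : ℕ → ℕ) (P0 : Set (List ℕ)) (k0 : ℕ) (hk0 : 1 ≤ k0)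
    (hup : ∀ ρ ρ', ρ ∈ P0 → ρ <+: ρ' → ρ' ∈ P0) (hs : ¬ Big k0 P0 []) :
    ∃ a : ℕ → ℕ, (∀ n, pre a n ∉ P0) ∧ ∀ p,
      (∃ n, ∀ l, ∀ v < hb n, gam p (pre a l) n ≠ some v) ∨
      (∀ B : ℕ → Bool, ∀ m, ∃ n ≥ m, ∃ l, gam p (pre a l) n = some (gg B n)) := by
  choose! nxt h1 h2 h3 h4 using (fun (p m : ℕ) (c : Cond) => step_ex hb p m c)
  let c0 : Cond := ⟨[], P0, k0, hk0, hup, hs⟩
  let C : ℕ → Cond := fun i => Nat.rec c0 (fun i c => nxt i.unpair.1 i.unpair.2 c) i
  have hC0 : C 0 = c0 := rfl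
  have hCs : ∀ i, C (i + 1) = nxt i.unpair.1 i.unpair.2 (C i) := fun i => rfl
  have hpre : ∀ i, (C i).σ <+: (C (i + 1)).σ := fun i => by rw [hCs]; exact h1 _ _ _
  have hP : ∀ i, (C i).P ⊆ (C (i + 1)).P := fun i => by rw [hCs]; exact h2 _ _ _
  have hlen : ∀ i, (C i).σ.length < (C (i + 1)).σ.length := fun i => by rw [hCs]; exact h3 _ _ _
  have hpre' : ∀ i j, i ≤ j → (C i).σ <+: (C j).σ := by
    intro i j hij
    induction j, hij using Nat.le_induction with
    | base => exact List.prefix_rfl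
    | succ j _ ih => exact ih.trans (hpre j)
  have hP' : ∀ i j, i ≤ j → (C i).P ⊆ (C j).P := by
    intro i j hij
    induction j, hij using Nat.le_induction with
    | base => exact le_rfl
    | succ j _ ih => exact ih.trans (hP j)
  have hlen' : ∀ i, i ≤ (C i).σ.length := by
    intro i
    induction i with
    | zero => exact Nat.zero_le _
    | succ i ih => exact lt_of_le_of_lt ih (hlen i)
  let a : ℕ → ℕ := fun i => (C (i + 1)).σ.getD i 0
  have ha : ∀ i, (C i).σ = pre a (C i).σ.length := by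
    intro i
    apply pre_eq_of_prefix
    intro j hj
    have hj1 : j < (C (j + 1)).σ.length := hlen' (j + 1)
    have hj2 : a j = (C (j + 1)).σ[j] := by
      simp only [a]
      rw [List.getD_eq_getElem _ _ hj1]
    rw [hj2]
    rcases le_total i (j + 1) with h5 | h5
    · exact (hpre' _ _ h5).getElem hj
    · exact ((hpre' _ _ h5).getElem hj1).symm
  have hnot : ∀ i l, pre a l ∉ (C i).P := by
    intro i l hl
    -- choose j large
    set j := max i l with hj
    have h5 : pre a l <+: (C j).σ := by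
      rw [ha j]
      exact pre_prefix a ((le_max_right i l).trans (hlen' j))
    have h6 : pre a l ∈ (C j).P := hP' i j (le_max_left _ _) hl
    exact (C j).small (Big.here ((C j).up _ _ h6 h5))
  refine ⟨a, fun n => hnot 0 n, fun p => ?_⟩
  by_cases hF : ∃ m n, ∀ ρ, (C (Nat.pair p m + 1)).σ <+: ρ → ρ ∉ (C (Nat.pair p m + 1)).P →
      ∀ v < hb n, gam p ρ n ≠ some v
  · obtain ⟨m, n, hF⟩ := hF
    left
    refine ⟨n, fun l v hv hval => ?_⟩
    set c := C (Nat.pair p m + 1) with hc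
    have h5 : gam p (pre a (max l c.σ.length)) n = some v :=
      gam_mono (pre_prefix a (le_max_left _ _)) hval
    refine hF _ ?_ (hnot (Nat.pair p m + 1) _) v hv h5
    have h6 : c.σ = pre a c.σ.length := ha (Nat.pair p m + 1)
    have h7 : pre a c.σ.length <+: pre a (max l c.σ.length) := pre_prefix a (le_max_right _ _)
    rw [← h6] at h7
    exact h7
  · right
    intro B m
    push Not at hF
    have h5 := h4 (Nat.pair p m).unpair.1 (Nat.pair p m).unpair.2 (C (Nat.pair p m))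
    rw [← hCs] at h5
    simp only [Nat.unpair_pair] at h5
    rcases h5 with ⟨n, h5⟩ | h5
    · obtain ⟨ρ, h6, h7, v, hv, h8⟩ := hF m n
      exact absurd h8 (h5 ρ h6 h7 v hv)
    · obtain ⟨n, hn, h6⟩ := h5 B
      refine ⟨n, hn, (C (Nat.pair p m + 1)).σ.length, ?_⟩
      have key : ∀ ρ, ρ = (C (Nat.pair p m + 1)).σ → gam p ρ n = some (gg B n) := by
        intro ρ hρ
        rw [hρ]; exact h6
      exact key _ (ha (Nat.pair p m + 1)).symm

end Pool.Agent.H715R3.Disp
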