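import Pool.Agent.H715R3.D4

set_option autoImplicit false

/-! Computability of the captured values, and the capturing theorem. -/

namespace Pool.Agent.H715R3.Disp

open Pool.Agent.Helper743 Encodable

/-- the oracle attached to a Boolean sequence -/
def bn (B : ℕ → Bool) : ℕ → ℕ := fun n => (B n).toNat

def pcL (l : List ℕ) : ℕ := l.foldl (fun a b => 2 * a + b) 0

lemma pcL_pre (B : ℕ → Bool) (n : ℕ) : pcL (pre (bn B) n) = pcN B n := by
  induction n with
  | zero => rfl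
  | succ n ih =>
    rw [pre_succ, pcL, List.foldl_append]
    rw [pcL] at ih
    rw [ih]
    rfl

lemma pcL_primrec : Primrec pcL := by
  have h : Primrec₂ (fun (_ : List ℕ) (q : ℕ × ℕ) => 2 * q.1 + q.2) :=
    Primrec.nat_add.comp (Primrec.nat_mul.comp (Primrec.const 2) (Primrec.fst.comp Primrec.snd))
      (Primrec.snd.comp Primrec.snd)
  exact Primrec.list_foldl Primrec.id (Primrec.const 0) h

def xE (x : ℕ) : ℕ := x.unpair.1
def xS (x : ℕ) : List ℕ := (decode x.unpair.2.unpair.1 : Option (List ℕ)).getD []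
def xI (x : ℕ) : ℕ := x.unpair.2.unpair.2

lemma xE_primrec : Primrec xE := Primrec.fst.comp Primrec.unpair
lemma xS_primrec : Primrec xS :=
  Primrec.option_getD.comp (Primrec.decode.comp
    (Primrec.fst.comp (Primrec.unpair.comp (Primrec.snd.comp Primrec.unpair)))) (Primrec.const [])
lemma xI_primrec : Primrec xI :=
  Primrec.snd.comp (Primrec.unpair.comp (Primrec.snd.comp Primrec.unpair))

lemma gg_val {B : ℕ → Bool} {x c : ℕ} (hv : Valid (xE x) (xS x))
    (hl : (xS x).length = pcN B (xE x + 2)) (hc : Lst (xE x) (xS x) c) :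
    gg B x = (dC c).2.2.getD (xI x) 0 := by
  have hcond : (Valid x.unpair.1
        ((decode x.unpair.2.unpair.1 : Option (List ℕ)).getD []) ∧
        ((decode x.unpair.2.unpair.1 : Option (List ℕ)).getD []).length =
          pcN B (x.unpair.1 + 2)) ∧
      (∃ c, Lst x.unpair.1
        ((decode x.unpair.2.unpair.1 : Option (List ℕ)).getD []) c) :=
    ⟨⟨hv, hl⟩, c, hc⟩
  rw [gg, dif_pos hcond, lst_unique hcond.2.choose_spec hc]
  rfl

lemma gg_zero {B : ℕ → Bool} {x : ℕ}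
    (h : ¬ (Valid (xE x) (xS x) ∧ (xS x).length = pcN B (xE x + 2))) : gg B x = 0 := by
  rw [gg, dif_neg]
  intro h2
  exact h h2.1

open Classical in
/-- the verifier, with abstract parameters -/
noncomputable def verG (E : ℕ → ℕ) (S : ℕ → List ℕ) (I : ℕ → ℕ) (VA : ℕ → List ℕ → Prop)
    (LS : ℕ → List ℕ → ℕ → Prop) (vl : ℕ → List ℕ) (PC : List ℕ → ℕ)
    (σ : List ℕ) (x w : ℕ) : Option ℕ :=
  if σ.length < E x + 2 then none
  else if VA (E x) (S x) ∧ (S x).length = PC (σ.take (E x + 2)) then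
    (if LS (E x) (S x) w then some ((vl w).getD (I x) 0) else none)
  else some 0

lemma verG_primrec (E : ℕ → ℕ) (S : ℕ → List ℕ) (I : ℕ → ℕ) (VA : ℕ → List ℕ → Prop)
    (LS : ℕ → List ℕ → ℕ → Prop) (vl : ℕ → List ℕ) (PC : List ℕ → ℕ)
    (hE : Primrec E) (hS : Primrec S) (hI : Primrec I)
    (hVA : PrimrecPred (fun q : ℕ × List ℕ => VA q.1 q.2))
    (hLS : PrimrecPred (fun q : (ℕ × List ℕ) × ℕ => LS q.1.1 q.1.2 q.2))
    (hvl : Primrec vl) (hPC : Primrec PC) :
    Primrec (fun q : (List ℕ × ℕ) × ℕ => verG E S I VA LS vl PC q.1.1 q.1.2 q.2) := by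
  classical
  have a1 : Primrec (fun q : (List ℕ × ℕ) × ℕ => q.1.1) := Primrec.fst.comp Primrec.fst
  have a2 : Primrec (fun q : (List ℕ × ℕ) × ℕ => E q.1.2) :=
    hE.comp (Primrec.snd.comp Primrec.fst)
  have a3 : Primrec (fun q : (List ℕ × ℕ) × ℕ => S q.1.2) :=
    hS.comp (Primrec.snd.comp Primrec.fst)
  have a4 : Primrec (fun q : (List ℕ × ℕ) × ℕ => I q.1.2) :=
    hI.comp (Primrec.snd.comp Primrec.fst)
  have a5 : Primrec (fun q : (List ℕ × ℕ) × ℕ => E q.1.2 + 2) :=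
    Primrec.succ.comp (Primrec.succ.comp a2)
  have c1 : PrimrecPred (fun q : (List ℕ × ℕ) × ℕ => q.1.1.length < E q.1.2 + 2) :=
    Primrec.nat_lt.comp (Primrec.list_length.comp a1) a5
  have c2 : PrimrecPred (fun q : (List ℕ × ℕ) × ℕ => VA (E q.1.2) (S q.1.2)) :=
    hVA.comp (a2.pair a3)
  have c3 : PrimrecPred (fun q : (List ℕ × ℕ) × ℕ =>
      (S q.1.2).length = PC (q.1.1.take (E q.1.2 + 2))) :=
    Primrec.eq.comp (Primrec.list_length.comp a3) (hPC.comp (Primrec.list_take.comp a5 a1))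
  have c4 : PrimrecPred (fun q : (List ℕ × ℕ) × ℕ => LS (E q.1.2) (S q.1.2) q.2) :=
    hLS.comp ((a2.pair a3).pair Primrec.snd)
  have d1 : Primrec (fun q : (List ℕ × ℕ) × ℕ => (some ((vl q.2).getD (I q.1.2) 0) :
      Option ℕ)) :=
    Primrec.option_some.comp (getD_primrec.comp (hvl.comp Primrec.snd) a4)
  exact Primrec.ite c1 (Primrec.const none)
    (Primrec.ite (c2.and c3) (Primrec.ite c4 d1 (Primrec.const none)) (Primrec.const (some 0)))

def vlC (c : ℕ) : List ℕ := (dC c).2.2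

lemma vlC_primrec : Primrec vlC := Primrec.snd.comp (Primrec.snd.comp dC_primrec)

/-- the verifier -/
noncomputable def ver (σ : List ℕ) (x w : ℕ) : Option ℕ := verG xE xS xI Valid Lst vlC pcL σ x w

lemma ver_primrec : Primrec (fun q : (List ℕ × ℕ) × ℕ => ver q.1.1 q.1.2 q.2) :=
  verG_primrec xE xS xI Valid Lst vlC pcL xE_primrec xS_primrec xI_primrec valid_primrec
    least_primrec vlC_primrec pcL_primrec

lemma pre_take (G : ℕ → ℕ) {n m : ℕ} (h : n ≤ m) : (pre G m).take n = pre G n := by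
  have h1 := take_eq_of_prefix (pre_prefix G h) (k := n) (by simp)
  rw [← h1, List.take_of_length_le (by simp)]

theorem gg_TR {B : ℕ → Bool} (hB : B ∈ SS) : TR (gg B) (bn B) := by
  classical
  refine cert (TR.refl (bn B)) ver ver_primrec.to_comp (gg B) ?_ ?_
  · intro x
    by_cases h : Valid (xE x) (xS x) ∧ (xS x).length = pcN B (xE x + 2)
    · obtain ⟨c, hc⟩ := exists_lst (hB _ _ h.1 h.2)
      refine ⟨xE x + 2, c, ?_⟩
      rw [ver, verG, if_neg (by simp), if_pos, if_pos hc]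
      · rfl
      · rw [pre_take _ le_rfl, pcL_pre]; exact h
    · refine ⟨xE x + 2, 0, ?_⟩
      rw [ver, verG, if_neg (by simp), if_neg]
      · rfl
      · rw [pre_take _ le_rfl, pcL_pre]; exact h
  · intro x n w y hy
    rw [ver, verG] at hy
    by_cases h0 : (pre (bn B) n).length < xE x + 2
    · rw [if_pos h0] at hy; exact absurd hy (by simp)
    · rw [if_neg h0, pre_take _ (by simpa using h0), pcL_pre] at hy
      by_cases h : Valid (xE x) (xS x) ∧ (xS x).length = pcN B (xE x + 2)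
      · rw [if_pos h] at hy
        by_cases h2 : Lst (xE x) (xS x) w
        · rw [if_pos h2] at hy
          rw [gg_val h.1 h.2 h2]
          exact (Option.some.inj hy).symm
        · rw [if_neg h2] at hy; exact absurd hy (by simp)
      · rw [if_neg h] at hy
        rw [gg_zero h]
        exact (Option.some.inj hy).symm

/-- The capturing theorem. -/
theorem capture (hb : ℕ → ℕ) (P0 : Set (List ℕ)) (k0 : ℕ) (hk0 : 1 ≤ k0)
    (hup : ∀ ρ ρ', ρ ∈ P0 → ρ <+: ρ' → ρ' ∈ P0) (hs : ¬ Big k0 P0 []) :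
    ∃ a : ℕ → ℕ, (∀ n, pre a n ∉ P0) ∧ ∀ f : ℕ → ℕ, TR f a → (∀ n, f n < hb n) →
      ∀ B : ℕ → Bool, ∀ m, ∃ n ≥ m, gg B n = f n := by
  obtain ⟨a, h1, h2⟩ := generic hb P0 k0 hk0 hup hs
  refine ⟨a, h1, fun f hf hfb B m => ?_⟩
  obtain ⟨p, hp⟩ := exists_gam a _ hf
  rcases h2 p with ⟨n, hn⟩ | h3
  · exfalso
    obtain ⟨l, hl⟩ := (hp n (f n)).1 (Part.mem_some _)
    exact hn l (f n) (hfb n) hl
  · obtain ⟨n, hn, l, hl⟩ := h3 B m
    refine ⟨n, hn, ?_⟩
    have := (hp n (gg B n)).2 ⟨l, hl⟩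
    exact Part.mem_some_iff.1 this

/-- avoiding a function is `2`-small -/
lemma avoid_small (ψ : ℕ → ℕ) : ¬ Big 2 {ρ | ∃ i, ∃ h : i < ρ.length, ρ[i] = ψ i} [] := by
  have key : ∀ ρ, Big 2 {ρ | ∃ i, ∃ h : i < ρ.length, ρ[i] = ψ i} ρ →
      ρ ∈ {ρ : List ℕ | ∃ i, ∃ h : i < ρ.length, ρ[i] = ψ i} := by
    intro ρ h
    induction h with
    | here h => exact h
    | @step σ s hs _ ih =>
      obtain ⟨x, hx, hxne⟩ : ∃ x ∈ s, x ≠ ψ σ.length := by
        by_contra hcon
        push Not at hcon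
        have : s ⊆ {ψ σ.length} := fun x hx => by simpa using hcon x hx
        have := Finset.card_le_card this
        simp at this
        omega
      obtain ⟨i, hi, h1⟩ := ih x hx
      have hi' : i < σ.length + 1 := by simpa using hi
      rcases Nat.lt_succ_iff_lt_or_eq.1 hi' with h2 | h2
      · refine ⟨i, h2, ?_⟩
        rw [List.getElem_append_left h2] at h1
        exact h1
      · subst h2
        exfalso
        rw [List.getElem_concat_length rfl] at h1
        exact hxne h1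
  intro h
  obtain ⟨i, hi, _⟩ := key [] h
  exact absurd hi (by simp)

/-- The capturing theorem with avoidance. -/
theorem capture_avoid (hb ψ : ℕ → ℕ) :
    ∃ a : ℕ → ℕ, (∀ i, a i ≠ ψ i) ∧ ∀ f : ℕ → ℕ, TR f a → (∀ n, f n < hb n) →
      ∀ B : ℕ → Bool, ∀ m, ∃ n ≥ m, gg B n = f n := by
  obtain ⟨a, h1, h2⟩ := capture hb {ρ | ∃ i, ∃ h : i < ρ.length, ρ[i] = ψ i} 2 (by norm_num) (by
    rintro ρ ρ' ⟨i, hi, h⟩ hpre
    refine ⟨i, lt_of_lt_of_le hi hpre.length_le, ?_⟩
    rw [← h]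
    exact (hpre.getElem hi).symm) (avoid_small ψ)
  refine ⟨a, fun i hi => h1 (i + 1) ⟨i, by simp, ?_⟩, h2⟩
  simp only [pre, List.getElem_map, List.getElem_range]
  exact hi

end Pool.Agent.H715R3.Disp
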