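import Pool.Agent.H715R3.D5

set_option autoImplicit false

/-! Measure facts. -/

namespace Pool.Agent.H715R3.Disp

open Pool.Agent.Helper743 Encodable MeasureTheory
open scoped ENNReal

/-- the uniform measure on Cantor space -/
noncomputable abbrev mu : Measure (ℕ → Bool) :=
  Measure.infinitePi (fun _ : ℕ => (PMF.uniformOfFintype Bool).toMeasure)

lemma coin (b : Bool) : (PMF.uniformOfFintype Bool).toMeasure {b} = 2⁻¹ := by
  rw [PMF.toMeasure_apply_singleton _ _ (MeasurableSet.singleton b), PMF.uniformOfFintype_apply]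
  simp

lemma cyl_measure (b : ℕ → Bool) (n : ℕ) : mu {B | ∀ i < n, B i = b i} = (2⁻¹ : ℝ≥0∞) ^ n := by
  have h1 : {B : ℕ → Bool | ∀ i < n, B i = b i} =
      Set.pi (Finset.range n : Set ℕ) (fun i => ({b i} : Set Bool)) := by
    ext B
    simp [Set.mem_pi]
  rw [h1, Measure.infinitePi_pi _ (fun i _ => MeasurableSet.singleton _)]
  simp only [coin, Finset.prod_const, Finset.card_range]

/-- the event of being stuck in process `e` -/
def Stuck (e : ℕ) : Set (ℕ → Bool) :=
  {B | ∃ s, Valid e s ∧ s.length = pcN B (e + 2) ∧ ¬ ∃ c, Chk e s c}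

lemma stuck_measure (e : ℕ) : mu (Stuck e) ≤ (2⁻¹ : ℝ≥0∞) ^ (e + 2) := by
  by_cases h : (Stuck e).Nonempty
  · obtain ⟨B0, s0, h1, h2, h3⟩ := h
    rw [← cyl_measure B0 (e + 2)]
    refine measure_mono ?_
    rintro B ⟨s, h4, h5, h6⟩
    have h7 := stuck_unique h4 h1 h6 h3
    subst h7
    exact pcN_inj (h5.symm.trans h2)
  · rw [Set.not_nonempty_iff_eq_empty] at h
    rw [h]; simp

lemma SS_compl : SSᶜ = ⋃ e, Stuck e := by
  ext B
  simp only [SS, Stuck, Set.mem_compl_iff, Set.mem_ofPred_eq, Set.mem_iUnion]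
  push Not
  rfl

lemma SS_compl_lt : mu SSᶜ < 1 := by
  rw [SS_compl]
  refine lt_of_le_of_lt (measure_iUnion_le _) ?_
  refine lt_of_le_of_lt (ENNReal.tsum_le_tsum stuck_measure) ?_
  have h1 : ∀ e : ℕ, (2⁻¹ : ℝ≥0∞) ^ (e + 2) = (2⁻¹ : ℝ≥0∞) ^ 2 * (2⁻¹ : ℝ≥0∞) ^ e := by
    intro e; rw [← pow_add]; congr 1; ring
  rw [tsum_congr h1, ENNReal.tsum_mul_left, ENNReal.tsum_geometric, ENNReal.one_sub_inv_two, inv_inv, pow_two,
    mul_assoc, ENNReal.inv_mul_cancel (by norm_num) (by norm_num), mul_one]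
  exact ENNReal.inv_lt_one.2 (by norm_num)

lemma exists_in_SS {Q : (ℕ → Bool) → Prop} (h : ∀ᵐ B ∂mu, Q B) : ∃ B ∈ SS, Q B := by
  by_contra hcon
  push Not at hcon
  have h1 : mu {B | ¬ Q B} = 0 := h
  have h2 : (Set.univ : Set (ℕ → Bool)) ⊆ SSᶜ ∪ {B | ¬ Q B} := by
    intro B _
    by_cases hB : B ∈ SS
    · exact Or.inr (hcon B hB)
    · exact Or.inl hB
  have h3 : mu Set.univ ≤ mu SSᶜ + mu {B | ¬ Q B} := (measure_mono h2).trans (measure_union_le _ _)
  rw [h1, add_zero, measure_univ] at h3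
  exact absurd h3 (not_le.2 SS_compl_lt)

/-! ### the blocks -/

/-- base four logarithm -/
def lg : ℕ → ℕ
  | 0 => 0
  | k + 1 => if k + 1 = 4 ^ (lg k + 1) then lg k + 1 else lg k

lemma lg_spec (k : ℕ) (hk : 1 ≤ k) : 4 ^ lg k ≤ k ∧ k < 4 ^ (lg k + 1) := by
  induction k, hk using Nat.le_induction with
  | base => simp [lg]
  | succ k hk ih =>
    rw [lg]
    split_ifs with h
    · rw [← h]
      refine ⟨le_rfl, ?_⟩
      rw [pow_succ, ← h]; omega
    · exact ⟨by omega, by omega⟩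

lemma lg_eq {k n : ℕ} (h1 : 4 ^ n ≤ k) (h2 : k < 4 ^ (n + 1)) : lg k = n := by
  have hk : 1 ≤ k := le_trans (Nat.one_le_pow _ _ (by norm_num)) h1
  obtain ⟨h3, h4⟩ := lg_spec k hk
  have h5 : lg k < n + 1 := (Nat.pow_lt_pow_iff_right (by norm_num)).1 (lt_of_le_of_lt h3 h2)
  have h6 : n < lg k + 1 := (Nat.pow_lt_pow_iff_right (by norm_num)).1 (lt_of_le_of_lt h1 h4)
  omega

lemma lg_primrec : Primrec lg := by
  have hh : Primrec₂ (fun (_ : ℕ) (q : ℕ × ℕ) =>
      if q.1 + 1 = 4 ^ (q.2 + 1) then q.2 + 1 else q.2) := by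
    have a1 : Primrec (fun w : ℕ × (ℕ × ℕ) => w.2.1 + 1) :=
      Primrec.succ.comp (Primrec.fst.comp Primrec.snd)
    have a2 : Primrec (fun w : ℕ × (ℕ × ℕ) => w.2.2 + 1) :=
      Primrec.succ.comp (Primrec.snd.comp Primrec.snd)
    have a3 : Primrec (fun w : ℕ × (ℕ × ℕ) => 4 ^ (w.2.2 + 1)) :=
      pow_primrec.comp (Primrec.const 4) a2
    exact Primrec.ite (Primrec.eq.comp a1 a3) a2 (Primrec.snd.comp Primrec.snd)
  have h := Primrec.nat_rec' (Primrec.id : Primrec (fun k : ℕ => k)) (Primrec.const 0) hh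
  refine h.of_eq ?_
  intro k
  induction k with
  | zero => rfl
  | succ k ih =>
    simp only [id] at ih ⊢
    rw [lg, ← ih]

/-- bit `k` of the list coded by `z` is zero -/
def zbit (z k : ℕ) : Bool := decide (((decode z : Option (List ℕ)).getD []).getD k 0 = 0)

lemma zbit_primrec : Primrec₂ zbit := by
  have h1 : Primrec (fun q : ℕ × ℕ => ((decode q.1 : Option (List ℕ)).getD []).getD q.2 0) :=
    getD_primrec.comp (Primrec.option_getD.comp (Primrec.decode.comp Primrec.fst)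
      (Primrec.const [])) Primrec.snd
  exact (Primrec.eq.comp h1 (Primrec.const 0)).decide

/-- the sequence far from everything -/
noncomputable def DD (B : ℕ → Bool) (k : ℕ) : Bool :=
  if k = 4 ^ lg k then B (lg k) else zbit (gg B (lg k)) k

lemma DD_le {B : ℕ → Bool} (hB : B ∈ SS) : TR (bn (DD B)) (bn B) := by
  have h1 : TR (gg B) (bn B) := gg_TR hB
  have h2 : RecT {((bn B : ℕ → ℕ) : ℕ →. ℕ)} (bn B) := TR.refl _
  have h3 : RecT {((bn B : ℕ → ℕ) : ℕ →. ℕ)} (fun k => Nat.pair k (Nat.pair (gg B (lg k))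
      (bn B (lg k)))) := by
    refine RecT.pair (Computable.recT Computable.id) (RecT.pair ?_ ?_)
    · exact RecT.comp h1 (Computable.recT lg_primrec.to_comp)
    · exact RecT.comp h2 (Computable.recT lg_primrec.to_comp)
  have h4 : Primrec (fun z : ℕ => if z.unpair.1 = 4 ^ lg z.unpair.1 then z.unpair.2.unpair.2
      else (zbit z.unpair.2.unpair.1 z.unpair.1).toNat) := by
    have b1 : Primrec (fun z : ℕ => z.unpair.1) := Primrec.fst.comp Primrec.unpair
    have b2 : Primrec (fun z : ℕ => z.unpair.2.unpair.1) :=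
      Primrec.fst.comp (Primrec.unpair.comp (Primrec.snd.comp Primrec.unpair))
    have b3 : Primrec (fun z : ℕ => z.unpair.2.unpair.2) :=
      Primrec.snd.comp (Primrec.unpair.comp (Primrec.snd.comp Primrec.unpair))
    have b4 : Primrec (fun z : ℕ => 4 ^ lg z.unpair.1) :=
      pow_primrec.comp (Primrec.const 4) (lg_primrec.comp b1)
    have b5 : Primrec Bool.toNat := Primrec.dom_finite _
    exact Primrec.ite (Primrec.eq.comp b1 b4) b3 (b5.comp (zbit_primrec.comp b2 b1))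
  have h5 := RecT.comp (Computable.recT h4.to_comp) h3
  refine Nat.RecursiveIn.of_eq h5 ?_
  intro k
  simp only [Nat.unpair_pair, bn, DD]
  split_ifs <;> rfl

lemma le_DD (B : ℕ → Bool) : TR (bn B) (bn (DD B)) := by
  have h1 : RecT {((bn (DD B) : ℕ → ℕ) : ℕ →. ℕ)} (bn (DD B)) := TR.refl _
  have h2 : Primrec (fun n : ℕ => 4 ^ n) := pow_primrec.comp (Primrec.const 4) Primrec.id
  have h3 := RecT.comp h1 (Computable.recT h2.to_comp)
  refine Nat.RecursiveIn.of_eq h3 ?_
  intro n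
  have h4 : lg (4 ^ n) = n := lg_eq le_rfl (Nat.pow_lt_pow_right (by norm_num) (by omega))
  simp only [bn, DD, h4, if_true]

/-- agreement with a capture makes the sequence differ -/
lemma DD_ne {B C : ℕ → Bool} {n k : ℕ} (hg : gg B n = encode (pre (bn C) (4 ^ (n + 1))))
    (h1 : 4 ^ n < k) (h2 : k < 4 ^ (n + 1)) : C k ≠ DD B k := by
  have h3 : lg k = n := lg_eq h1.le h2
  rw [DD, h3, if_neg (by omega), hg, zbit, encodek, Option.getD_some]
  rw [List.getD_eq_getElem _ _ (by simpa using h2)]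
  simp only [pre, List.getElem_map, List.getElem_range, bn]
  cases C k <;> simp

end Pool.Agent.H715R3.Disp
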