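import Pool.Agent.H715R3.D6

set_option autoImplicit false

/-! The first half: dispersiveness. -/

namespace Pool.Agent.H715R3.Disp

open Pool.Agent.Helper743 Encodable MeasureTheory Filter

/-- the frequency of differences -/
noncomputable def fr (C D : ℕ → Bool) (n : ℕ) : ℝ :=
  (((Finset.range n).filter (fun k => C k ≠ D k)).card : ℝ) / (n : ℝ)

lemma fr_nonneg (C D : ℕ → Bool) (n : ℕ) : 0 ≤ fr C D n := by
  unfold fr; positivity

lemma fr_le_one (C D : ℕ → Bool) (n : ℕ) : fr C D n ≤ 1 := by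
  unfold fr
  apply div_le_one_of_le₀ _ (Nat.cast_nonneg n)
  have h := Finset.card_filter_le (Finset.range n) (fun k => C k ≠ D k)
  rw [Finset.card_range] at h
  exact_mod_cast h

lemma fr_bdd (C D : ℕ → Bool) : IsBoundedUnder (· ≤ ·) atTop (fr C D) :=
  isBoundedUnder_of ⟨1, fr_le_one C D⟩

lemma fr_cobdd (C D : ℕ → Bool) : IsCoboundedUnder (· ≤ ·) atTop (fr C D) :=
  isCoboundedUnder_le_of_le atTop (fr_nonneg C D)

lemma lim_le_one (C D : ℕ → Bool) : limsup (fr C D) atTop ≤ 1 :=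
  limsup_le_of_le (fr_cobdd C D) (Eventually.of_forall (fr_le_one C D))

lemma lim_nonneg (C D : ℕ → Bool) : 0 ≤ limsup (fr C D) atTop :=
  le_limsup_of_frequently_le (Frequently.of_forall (fr_nonneg C D)) (fr_bdd C D)

lemma lim_ge {C D : ℕ → Bool} {c : ℝ} (h : ∀ m, ∃ n ≥ m, c ≤ fr C D n) :
    c ≤ limsup (fr C D) atTop :=
  le_limsup_of_frequently_le (frequently_atTop.2 h) (fr_bdd C D)

lemma fr_block {C D : ℕ → Bool} {n : ℕ} (hn : 1 ≤ n)
    (h : ∀ k, 4 ^ n < k → k < 4 ^ (n + 1) → C k ≠ D k) : (11 / 16 : ℝ) ≤ fr C D (4 ^ (n + 1)) := by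
  have h1 : Finset.Ioo (4 ^ n) (4 ^ (n + 1)) ⊆
      (Finset.range (4 ^ (n + 1))).filter (fun k => C k ≠ D k) := by
    intro k hk
    rw [Finset.mem_Ioo] at hk
    rw [Finset.mem_filter, Finset.mem_range]
    exact ⟨hk.2, h k hk.1 hk.2⟩
  have h2 := Finset.card_le_card h1
  rw [Nat.card_Ioo] at h2
  have h3 : 4 ≤ 4 ^ n := by
    calc 4 = 4 ^ 1 := by norm_num
      _ ≤ 4 ^ n := Nat.pow_le_pow_right (by norm_num) hn
  have h4 : 3 * 4 ^ n ≤ ((Finset.range (4 ^ (n + 1))).filter (fun k => C k ≠ D k)).card + 1 := by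
    rw [pow_succ] at h2 ⊢
    omega
  have h5 : (3 * 4 ^ n : ℝ) ≤
      (((Finset.range (4 ^ (n + 1))).filter (fun k => C k ≠ D k)).card : ℝ) + 1 := by
    exact_mod_cast h4
  have h6 : (4 : ℝ) ≤ 4 ^ n := by exact_mod_cast h3
  unfold fr
  rw [le_div_iff₀ (by positivity)]
  push_cast
  rw [pow_succ]
  linarith

/-- bound for codes of zero-one lists -/
lemma exists_hb : ∃ hb : ℕ → ℕ, ∀ (C : ℕ → Bool) (n : ℕ),
    encode (pre (bn C) (4 ^ (n + 1))) < hb n := by
  have key : ∀ N : ℕ, ∃ b : ℕ, ∀ C : ℕ → Bool, encode (pre (bn C) N) < b := by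
    intro N
    let F : (Fin N → Bool) → ℕ := fun v =>
      encode (pre (bn (fun i => if h : i < N then v ⟨i, h⟩ else false)) N)
    refine ⟨Finset.univ.sup F + 1, fun C => ?_⟩
    have h1 : encode (pre (bn C) N) = F (fun i => C i) := by
      simp only [F]
      congr 1
      simp only [pre]
      apply List.map_congr_left
      intro i hi
      rw [List.mem_range] at hi
      simp [bn, hi]
    rw [h1, Nat.lt_succ_iff]
    exact Finset.le_sup (Finset.mem_univ _)
  choose b hb using fun n : ℕ => key (4 ^ (n + 1))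
  exact ⟨b, fun C n => hb n C⟩

/-- The far sequence. -/
theorem far {a : ℕ → ℕ} {hb : ℕ → ℕ}
    (hhb : ∀ (C : ℕ → Bool) (n : ℕ), encode (pre (bn C) (4 ^ (n + 1))) < hb n)
    (hcap : ∀ f : ℕ → ℕ, TR f a → (∀ n, f n < hb n) → ∀ B : ℕ → Bool, ∀ m, ∃ n ≥ m, gg B n = f n)
    {C : ℕ → Bool} (hC : TR (bn C) a) (B : ℕ → Bool) :
    (11 / 16 : ℝ) ≤ limsup (fr C (DD B)) atTop := by
  apply lim_ge
  intro m
  have h1 : TR (fun n => encode (pre (bn C) (4 ^ (n + 1)))) a := by
    have h2 : Primrec (fun n : ℕ => 4 ^ (n + 1)) :=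
      pow_primrec.comp (Primrec.const 4) (Primrec.succ.comp Primrec.id)
    exact RecT.comp (recT_pre hC) (Computable.recT h2.to_comp)
  obtain ⟨n, hn, hg⟩ := hcap _ h1 (hhb C) B (m + 1)
  refine ⟨4 ^ (n + 1), ?_, ?_⟩
  · have : n + 1 < 4 ^ (n + 1) := Nat.lt_pow_self (by norm_num)
    omega
  · exact fr_block (by omega) (fun k h3 h4 => DD_ne hg h3 h4)

lemma TEq_iff {C D : ℕ → Bool} : TuringEquivalent (fun n => Part.some (C n).toNat)
    (fun n => Part.some (D n).toNat) ↔ TR (bn C) (bn D) ∧ TR (bn D) (bn C) := by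
  rw [TR_iff, TR_iff]
  rfl

/-- The max-formula is bigger than one half. -/
theorem formula {a : ℕ → ℕ} {hb : ℕ → ℕ} {A : ℕ → Bool} (hA : TR (bn A) a)
    (hhb : ∀ (C : ℕ → Bool) (n : ℕ), encode (pre (bn C) (4 ^ (n + 1))) < hb n)
    (hcap : ∀ f : ℕ → ℕ, TR f a → (∀ n, f n < hb n) → ∀ B : ℕ → Bool, ∀ m, ∃ n ≥ m, gg B n = f n)
    {B : ℕ → Bool} (hB : B ∈ SS) :
    (1 / 2 : ℝ) < max
            (⨆ C : {C : ℕ → Bool // TuringEquivalent (fun n => Part.some (C n).toNat)
                                        (fun n => Part.some (A n).toNat)},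
              ⨅ D : {D : ℕ → Bool // TuringEquivalent (fun n => Part.some (D n).toNat)
                                        (fun n => Part.some (B n).toNat)},
                Filter.limsup
                  (fun n : ℕ => (((Finset.range n).filter (fun k => C.1 k ≠ D.1 k)).card : ℝ) / (n : ℝ))
                  Filter.atTop)
            (⨆ D : {D : ℕ → Bool // TuringEquivalent (fun n => Part.some (D n).toNat)
                                        (fun n => Part.some (B n).toNat)},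
              ⨅ C : {C : ℕ → Bool // TuringEquivalent (fun n => Part.some (C n).toNat)
                                        (fun n => Part.some (A n).toNat)},
                Filter.limsup
                  (fun n : ℕ => (((Finset.range n).filter (fun k => C.1 k ≠ D.1 k)).card : ℝ) / (n : ℝ))
                  Filter.atTop) := by
  refine lt_of_lt_of_le (by norm_num : (1 / 2 : ℝ) < 11 / 16) (le_max_of_le_right ?_)
  have hD : TuringEquivalent (fun n => Part.some (DD B n).toNat)
      (fun n => Part.some (B n).toNat) := TEq_iff.2 ⟨DD_le hB, le_DD B⟩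
  have hAA : TuringEquivalent (fun n => Part.some (A n).toNat)
      (fun n => Part.some (A n).toNat) := TuringEquivalent.refl _
  haveI : Nonempty {C : ℕ → Bool // TuringEquivalent (fun n => Part.some (C n).toNat)
                                        (fun n => Part.some (A n).toNat)} := ⟨⟨A, hAA⟩⟩
  refine le_ciSup_of_le ?_ ⟨DD B, hD⟩ (le_ciInf ?_)
  · refine ⟨1, ?_⟩
    rintro _ ⟨D, rfl⟩
    refine ciInf_le_of_le ?_ ⟨A, hAA⟩ (lim_le_one A D.1)
    refine ⟨0, ?_⟩
    rintro _ ⟨C, rfl⟩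
    exact lim_nonneg C.1 D.1
  · intro C
    exact far hhb hcap ((TEq_iff.1 C.2).1.trans hA) B

end Pool.Agent.H715R3.Disp
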