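import Pool.Agent.H715R3.D7

set_option autoImplicit false

/-! The second half: no weak genericity. -/

namespace Pool.Agent.H715R3.Disp

open Pool.Agent.Helper743 Encodable MeasureTheory Filter
open scoped ENNReal

/-- Boolean graph of a function -/
def gr (a : ℕ → ℕ) (n : ℕ) : Bool := decide (a n.unpair.1 = n.unpair.2)

lemma gr_le (a : ℕ → ℕ) : TR (bn (gr a)) a := by
  have h1 : RecT {((a : ℕ → ℕ) : ℕ →. ℕ)} a := TR.refl a
  have c1 : Primrec (fun n : ℕ => n.unpair.1) := Primrec.fst.comp Primrec.unpair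
  have c2 : Primrec (fun n : ℕ => n.unpair.2) := Primrec.snd.comp Primrec.unpair
  have h2 : RecT {((a : ℕ → ℕ) : ℕ →. ℕ)} (fun n => Nat.pair (a n.unpair.1) n.unpair.2) :=
    RecT.pair (RecT.comp h1 (Computable.recT c1.to_comp)) (Computable.recT c2.to_comp)
  have c3 : Primrec (fun z : ℕ => if z.unpair.1 = z.unpair.2 then 1 else 0) :=
    Primrec.ite (Primrec.eq.comp c1 c2) (Primrec.const 1) (Primrec.const 0)
  have h3 := RecT.comp (Computable.recT c3.to_comp) h2
  refine Nat.RecursiveIn.of_eq h3 ?_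
  intro n
  simp only [Nat.unpair_pair, bn, gr]
  by_cases h : a n.unpair.1 = n.unpair.2 <;> simp [h]

lemma le_gr (a : ℕ → ℕ) : TR a (bn (gr a)) := by
  have h1 : RecT {((bn (gr a) : ℕ → ℕ) : ℕ →. ℕ)} (bn (gr a)) := TR.refl _
  have c1 : Primrec (fun z : ℕ => 1 - z) := Primrec.nat_sub.comp (Primrec.const 1) Primrec.id
  have h2 : RecT {((bn (gr a) : ℕ → ℕ) : ℕ →. ℕ)} (fun z => 1 - bn (gr a) z) :=
    RecT.comp (Computable.recT c1.to_comp) h1
  have key : ∀ x y, 1 - bn (gr a) (Nat.pair x y) = 0 ↔ a x = y := by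
    intro x y
    unfold bn gr
    rw [Nat.unpair_pair]
    by_cases h : a x = y <;> simp [h]
  have hex : ∀ x, ∃ n, (fun z => 1 - bn (gr a) z) (Nat.pair x n) = 0 :=
    fun x => ⟨a x, (key x (a x)).2 rfl⟩
  have h3 := RecT.find h2 hex
  refine Nat.RecursiveIn.of_eq h3 ?_
  intro x
  congr 1
  exact ((key x _).1 (Nat.find_spec (hex x))).symm

/-- the event that functional `p` takes value `v` at `n` -/
def EV (p n v : ℕ) : Set (ℕ → Bool) := {B | ∃ l, gam p (pre (bn B) l) n = some v}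

lemma meas_pre (Q : List ℕ → Prop) (l : ℕ) : MeasurableSet {B : ℕ → Bool | Q (pre (bn B) l)} := by
  have h1 : Measurable (fun (B : ℕ → Bool) (i : Fin l) => B i) :=
    measurable_pi_lambda _ (fun i => measurable_pi_apply _)
  have h2 : {B : ℕ → Bool | Q (pre (bn B) l)} = (fun (B : ℕ → Bool) (i : Fin l) => B i) ⁻¹'
      {v | Q (pre (bn (fun i => if h : i < l then v ⟨i, h⟩ else false)) l)} := by
    ext B
    simp only [Set.mem_ofPred_eq, Set.mem_preimage]
    have h3 : pre (bn B) l = pre (bn (fun i => if h : i < l then B i else false)) l := by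
      simp only [pre]
      apply List.map_congr_left
      intro i hi
      rw [List.mem_range] at hi
      simp [bn, hi]
    rw [h3]
  rw [h2]
  exact h1 (MeasurableSet.of_discrete)

lemma EV_meas (p n v : ℕ) : MeasurableSet (EV p n v) := by
  have h1 : EV p n v = ⋃ l, {B | gam p (pre (bn B) l) n = some v} := by
    ext B; simp [EV]
  rw [h1]
  exact MeasurableSet.iUnion (fun l => meas_pre (fun σ => gam p σ n = some v) l)

lemma EV_disj (p n : ℕ) {v v' : ℕ} (h : v ≠ v') : Disjoint (EV p n v) (EV p n v') := by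
  rw [Set.disjoint_left]
  rintro B ⟨l, hl⟩ ⟨l', hl'⟩
  have h1 := gam_mono (pre_prefix (bn B) (le_max_left l l')) hl
  have h2 := gam_mono (pre_prefix (bn B) (le_max_right l l')) hl'
  rw [h1] at h2
  exact h (Option.some.inj h2)

lemma likely_card (p n : ℕ) (F : Finset ℕ) (hF : ∀ v ∈ F, (2⁻¹ : ℝ≥0∞) ^ n < mu (EV p n v)) :
    F.card ≤ 2 ^ n := by
  have h1 : mu (⋃ v ∈ F, EV p n v) = ∑ v ∈ F, mu (EV p n v) :=
    measure_biUnion_finset (fun v _ v' _ hne => EV_disj p n hne) (fun v _ => EV_meas p n v)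
  have h2 : (F.card : ℝ≥0∞) * (2⁻¹ : ℝ≥0∞) ^ n ≤ 1 := by
    calc (F.card : ℝ≥0∞) * (2⁻¹ : ℝ≥0∞) ^ n = ∑ v ∈ F, (2⁻¹ : ℝ≥0∞) ^ n := by
          rw [Finset.sum_const, nsmul_eq_mul]
      _ ≤ ∑ v ∈ F, mu (EV p n v) := Finset.sum_le_sum (fun v hv => (hF v hv).le)
      _ = mu (⋃ v ∈ F, EV p n v) := h1.symm
      _ ≤ 1 := prob_le_one
  have h3 : (F.card : ℝ≥0∞) ≤ 2 ^ n := by
    rw [← ENNReal.inv_pow, ← div_eq_mul_inv] at h2
    have h4 := (ENNReal.div_le_iff (by positivity) (by simp)).1 h2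
    rwa [one_mul] at h4
  exact_mod_cast h3

lemma likely_enum (p n : ℕ) : ∃ w : ℕ → ℕ, ∀ v, (2⁻¹ : ℝ≥0∞) ^ n < mu (EV p n v) →
    ∃ j < 2 ^ n, w j = v := by
  have hfin : {v | (2⁻¹ : ℝ≥0∞) ^ n < mu (EV p n v)}.Finite := by
    by_contra hinf
    obtain ⟨F, hF1, hF2⟩ := Set.Infinite.exists_subset_card_eq hinf (2 ^ n + 1)
    have := likely_card p n F (fun v hv => hF1 hv)
    omega
  refine ⟨fun j => (hfin.toFinset.toList).getD j 0, fun v hv => ?_⟩
  have h1 : v ∈ hfin.toFinset.toList := by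
    rw [Finset.mem_toList, Set.Finite.mem_toFinset]; exact hv
  obtain ⟨j, hj, h2⟩ := List.getElem_of_mem h1
  refine ⟨j, ?_, ?_⟩
  · have h3 := likely_card p n hfin.toFinset (fun v hv => by
      rw [Set.Finite.mem_toFinset] at hv; exact hv)
    rw [Finset.length_toList] at hj
    omega
  · simp only
    rw [List.getD_eq_getElem _ _ hj, h2]

/-- the avoiding function -/
def av (a : ℕ → ℕ) (p n : ℕ) : ℕ :=
  encode ((List.range (2 ^ n)).map (fun j => a (Nat.pair p (Nat.pair n j))))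

lemma av_TR (a : ℕ → ℕ) (p : ℕ) : TR (av a p) a := by
  have h0 := recT_pre (O := {((a : ℕ → ℕ) : ℕ →. ℕ)}) (TR.refl a)
  have c1 : Primrec (fun n : ℕ => Nat.pair p (Nat.pair n (2 ^ n))) :=
    Primrec₂.natPair.comp (Primrec.const p) (Primrec₂.natPair.comp Primrec.id
      (pow_primrec.comp (Primrec.const 2) Primrec.id))
  have h1 : RecT {((a : ℕ → ℕ) : ℕ →. ℕ)} (fun n =>
      Nat.pair n (encode (pre a (Nat.pair p (Nat.pair n (2 ^ n)))))) :=
    RecT.pair (Computable.recT Computable.id) (RecT.comp h0 (Computable.recT c1.to_comp))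
  have c2 : Primrec (fun z : ℕ => z.unpair.1) := Primrec.fst.comp Primrec.unpair
  have c3 : Primrec (fun z : ℕ => ((decode z.unpair.2 : Option (List ℕ)).getD [])) :=
    Primrec.option_getD.comp (Primrec.decode.comp (Primrec.snd.comp Primrec.unpair))
      (Primrec.const [])
  have c4 : Primrec (fun z : ℕ => (List.range (2 ^ z.unpair.1)).map (fun j =>
      ((decode z.unpair.2 : Option (List ℕ)).getD []).getD
        (Nat.pair p (Nat.pair z.unpair.1 j)) 0)) := by
    refine Primrec.list_map (Primrec.list_range.comp (pow_primrec.comp (Primrec.const 2) c2)) ?_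
    have d1 : Primrec (fun q : ℕ × ℕ => ((decode q.1.unpair.2 : Option (List ℕ)).getD [])) :=
      c3.comp Primrec.fst
    have d2 : Primrec (fun q : ℕ × ℕ => Nat.pair p (Nat.pair q.1.unpair.1 q.2)) :=
      Primrec₂.natPair.comp (Primrec.const p) (Primrec₂.natPair.comp (c2.comp Primrec.fst)
        Primrec.snd)
    exact getD_primrec.comp d1 d2
  have h2 := RecT.comp (Computable.recT (Primrec.encode.comp c4).to_comp) h1
  refine Nat.RecursiveIn.of_eq h2 ?_
  intro n
  simp only [Nat.unpair_pair, encodek, Option.getD_some, av]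
  congr 2
  apply List.map_congr_left
  intro j hj
  rw [List.mem_range] at hj
  have h3 : Nat.pair p (Nat.pair n j) < Nat.pair p (Nat.pair n (2 ^ n)) :=
    Nat.pair_lt_pair_right _ (Nat.pair_lt_pair_right _ hj)
  rw [List.getD_eq_getElem _ _ (by simpa using h3)]
  simp [pre]

/-- the function to be avoided -/
theorem exists_psi : ∃ ψ : ℕ → ℕ, ∀ a : ℕ → ℕ, (∀ i, a i ≠ ψ i) →
    ∀ p n, mu (EV p n (av a p n)) ≤ (2⁻¹ : ℝ≥0∞) ^ n := by
  choose w hw using likely_enum
  refine ⟨fun i => ((decode (w i.unpair.1 i.unpair.2.unpair.1 i.unpair.2.unpair.2) :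
    Option (List ℕ)).getD []).getD i.unpair.2.unpair.2 0, fun a ha p n => ?_⟩
  by_contra hcon
  rw [not_le] at hcon
  obtain ⟨j, hj, h1⟩ := hw p n _ hcon
  apply ha (Nat.pair p (Nat.pair n j))
  simp only [Nat.unpair_pair]
  rw [h1, av, encodek, Option.getD_some, List.getD_eq_getElem _ _ (by simpa using hj)]
  simp

lemma ae_avoid {a : ℕ → ℕ} (h : ∀ p n, mu (EV p n (av a p n)) ≤ (2⁻¹ : ℝ≥0∞) ^ n) :
    ∀ᵐ B ∂mu, ∀ p, ∃ N, ∀ n ≥ N, B ∉ EV p n (av a p n) := by
  rw [ae_all_iff]
  intro p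
  have h1 : ∑' n, mu (EV p n (av a p n)) ≠ ∞ := by
    refine ne_top_of_le_ne_top ?_ (ENNReal.tsum_le_tsum (h p))
    rw [ENNReal.tsum_geometric, ENNReal.one_sub_inv_two, inv_inv]
    norm_num
  filter_upwards [ae_eventually_notMem h1] with B hB
  exact eventually_atTop.1 hB

/-! ### the sets of strings -/

/-- the check that `σ` meets `f` at coordinate `n` -/
def Meets (N : ℕ) (σ : List Bool) (n y : ℕ) : Prop :=
  N ≤ n ∧ σ.getD (Nat.pair n y) false = true ∧ ∀ x < y, σ.getD (Nat.pair n x) false = false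

lemma meets_primrec (N : ℕ) :
    PrimrecPred (fun q : (List Bool × ℕ) × ℕ => Meets N q.1.1 q.1.2 q.2) := by
  have g1 : Primrec₂ (fun (l : List Bool) (i : ℕ) => l.getD i false) := Primrec.list_getD false
  have a1 : Primrec (fun q : (List Bool × ℕ) × ℕ => q.1.1) := Primrec.fst.comp Primrec.fst
  have a2 : Primrec (fun q : (List Bool × ℕ) × ℕ => q.1.2) := Primrec.snd.comp Primrec.fst
  have a3 : Primrec (fun q : (List Bool × ℕ) × ℕ =>
      q.1.1.getD (Nat.pair q.1.2 q.2) false) := g1.comp a1 (Primrec₂.natPair.comp a2 Primrec.snd)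
  refine PrimrecPred.and (Primrec.nat_le.comp (Primrec.const N) a2) (PrimrecPred.and ?_ ?_)
  · exact Primrec.eq.comp a3 (Primrec.const true)
  · have h1 : PrimrecRel (fun (x : ℕ) (q : List Bool × ℕ) =>
        q.1.getD (Nat.pair q.2 x) false = false) := by
      have b1 : Primrec (fun z : ℕ × (List Bool × ℕ) =>
          z.2.1.getD (Nat.pair z.2.2 z.1) false) :=
        g1.comp (Primrec.fst.comp Primrec.snd)
          (Primrec₂.natPair.comp (Primrec.snd.comp Primrec.snd) Primrec.fst)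
      exact Primrec.eq.comp b1 (Primrec.const false)
    exact (allLt h1).comp Primrec.snd Primrec.fst

/-- the dense set attached to `f` and `N` -/
def WW (f : ℕ → ℕ) (N : ℕ) : Set (List Bool) := {σ | ∃ n, Meets N σ n (f n)}

lemma WW_dense (f : ℕ → ℕ) (N : ℕ) (σ : List Bool) : ∃ τ ∈ WW f N, σ <+: τ := by
  set n := max N σ.length with hn
  set q := Nat.pair n (f n) with hq
  have h1 : σ.length ≤ q := (le_max_right _ _).trans (Nat.left_le_pair _ _)
  refine ⟨σ ++ List.replicate (q - σ.length) false ++ [true], ⟨n, le_max_left _ _, ?_, ?_⟩, ?_⟩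
  · rw [List.getD_eq_getElem _ _ (by simp; omega)]
    rw [List.getElem_append_right (by simp; omega)]
    simp
  · intro x hx
    have h2 : Nat.pair n x < q := Nat.pair_lt_pair_right _ hx
    have h3 : σ.length ≤ Nat.pair n x := (le_max_right _ _).trans (Nat.left_le_pair _ _)
    rw [List.getD_eq_getElem _ _ (by simp; omega)]
    rw [List.getElem_append_left (by simp; omega)]
    rw [List.getElem_append_right h3]
    simp
  · rw [List.append_assoc]; exact List.prefix_append _ _

lemma WW_ce {A : ℕ → Bool} {f : ℕ → ℕ} (hf : TR f (bn A)) (N : ℕ) :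
    ∃ g : ℕ →. ℕ, TuringReducible g (fun n => Part.some (A n).toNat) ∧
      ∀ σ : List Bool, σ ∈ WW f N ↔ (g (Encodable.encode σ)).Dom := by
  classical
  have c1 : Primrec (fun z : ℕ => if Meets N ((decode z.unpair.1.unpair.1 :
      Option (List Bool)).getD []) z.unpair.1.unpair.2 z.unpair.2 then 0 else 1) := by
    have b1 : Primrec (fun z : ℕ => z.unpair.1.unpair.1) :=
      Primrec.fst.comp (Primrec.unpair.comp (Primrec.fst.comp Primrec.unpair))
    have b2 : Primrec (fun z : ℕ => z.unpair.1.unpair.2) :=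
      Primrec.snd.comp (Primrec.unpair.comp (Primrec.fst.comp Primrec.unpair))
    have b3 : Primrec (fun z : ℕ => z.unpair.2) := Primrec.snd.comp Primrec.unpair
    have b4 : Primrec (fun z : ℕ => ((decode z.unpair.1.unpair.1 :
      Option (List Bool)).getD [])) :=
      Primrec.option_getD.comp (Primrec.decode.comp b1) (Primrec.const [])
    exact Primrec.ite ((meets_primrec N).comp ((b4.pair b2).pair b3)) (Primrec.const 0)
      (Primrec.const 1)
  have b5 : Primrec (fun z : ℕ => z.unpair.2) := Primrec.snd.comp Primrec.unpair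
  have h1 : RecT {((bn A : ℕ → ℕ) : ℕ →. ℕ)} (fun z => Nat.pair z (f z.unpair.2)) :=
    RecT.pair (Computable.recT Computable.id) (RecT.comp hf (Computable.recT b5.to_comp))
  have h2 := RecT.comp (Computable.recT c1.to_comp) h1
  have h3 := Nat.RecursiveIn.rfind h2
  refine ⟨_, RecursiveIn.iff_nat.2 h3, fun σ => ?_⟩
  rw [Nat.rfind_dom]
  have key : ∀ n, (if Meets N ((decode (Nat.pair (Nat.pair (encode σ) n)
      (f (Nat.pair (encode σ) n).unpair.2)).unpair.1.unpair.1 :
      Option (List Bool)).getD []) (Nat.pair (Nat.pair (encode σ) n)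
      (f (Nat.pair (encode σ) n).unpair.2)).unpair.1.unpair.2 (Nat.pair (Nat.pair (encode σ) n)
      (f (Nat.pair (encode σ) n).unpair.2)).unpair.2 then 0 else 1) = 0 ↔
      Meets N σ n (f n) := by
    intro n
    simp only [Nat.unpair_pair, encodek, Option.getD_some]
    by_cases h : Meets N σ n (f n) <;> simp [h]
  constructor
  · rintro ⟨n, hn⟩
    refine ⟨n, ?_, ?_⟩
    · simpa using hn
    · intro m _
      trivial
  · rintro ⟨n, hn, _⟩
    refine ⟨n, (key n).1 ?_⟩
    simpa using hn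

/-- the partial function read off from `G` -/
lemma gamma_ex {B G : ℕ → Bool} (hG : TR (bn G) (bn B)) :
    ∃ p, ∀ n y, (∃ l, gam p (pre (bn B) l) n = some y) ↔
      (G (Nat.pair n y) = true ∧ ∀ x < y, G (Nat.pair n x) = false) := by
  have c1 : Primrec (fun z : ℕ => 1 - z) := Primrec.nat_sub.comp (Primrec.const 1) Primrec.id
  have h2 : RecT {((bn B : ℕ → ℕ) : ℕ →. ℕ)} (fun z => 1 - bn G z) :=
    RecT.comp (Computable.recT c1.to_comp) hG
  have h3 := Nat.RecursiveIn.rfind h2
  obtain ⟨p, hp⟩ := exists_gam (bn B) _ h3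
  refine ⟨p, fun n y => ?_⟩
  rw [← hp, Nat.mem_rfind]
  have k1 : ∀ z, 1 - bn G z = 0 ↔ G z = true := by
    intro z; unfold bn; cases G z <;> simp
  constructor
  · rintro ⟨h4, h5⟩
    refine ⟨(k1 _).1 (by simpa using h4), fun x hx => ?_⟩
    have h6 := h5 hx
    have h7 : ¬ (1 - bn G (Nat.pair n x) = 0) := by simpa using h6
    rw [k1] at h7
    simpa using h7
  · rintro ⟨h4, h5⟩
    refine ⟨?_, ?_⟩
    · have := (k1 _).2 h4
      simp [this]
    · intro x hx
      have h6 : ¬ (1 - bn G (Nat.pair n x) = 0) := by rw [k1, h5 x hx]; simp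
      simp [h6]

/-- The second half. -/
theorem no_generic {a : ℕ → ℕ} {B : ℕ → Bool}
    (hB : ∀ p, ∃ N, ∀ n ≥ N, B ∉ EV p n (av a p n)) :
    ¬ ∃ G : ℕ → Bool,
            TuringReducible (fun n => Part.some (G n).toNat) (fun n => Part.some (B n).toNat) ∧
            ∀ W : Set (List Bool),
              (∃ f : ℕ →. ℕ, TuringReducible f (fun n => Part.some (gr a n).toNat) ∧
                  ∀ σ : List Bool, σ ∈ W ↔ (f (Encodable.encode σ)).Dom) →
              (∀ σ : List Bool, ∃ τ ∈ W, σ <+: τ) →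
              ∃ n : ℕ, List.ofFn (fun i : Fin n => G i) ∈ W := by
  rintro ⟨G, hG, hW⟩
  have hG' : TR (bn G) (bn B) := TR_iff.2 hG
  obtain ⟨p, hp⟩ := gamma_ex hG'
  obtain ⟨N, hN⟩ := hB p
  have hf : TR (av a p) (bn (gr a)) := (av_TR a p).trans (le_gr a)
  obtain ⟨l, n, h1, h2, h3⟩ := hW (WW (av a p) N) (WW_ce hf N) (WW_dense (av a p) N)
  have k1 : ∀ i, i < l → (List.ofFn (fun i : Fin l => G i)).getD i false = G i := by
    intro i hi
    rw [List.getD_eq_getElem _ _ (by simpa using hi)]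
    simp
  have h4 : Nat.pair n (av a p n) < l := by
    by_contra hcon
    rw [List.getD_eq_default _ _ (by simpa using hcon)] at h2
    exact absurd h2 (by simp)
  apply hN n h1
  refine (hp n (av a p n)).2 ⟨?_, fun x hx => ?_⟩
  · rw [← k1 _ h4]; exact h2
  · have h5 : Nat.pair n x < l := (Nat.pair_lt_pair_right _ hx).trans h4
    rw [← k1 _ h5]; exact h3 x hx

end Pool.Agent.H715R3.Disp
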