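import Mathlib

set_option autoImplicit false

/-!
Enumeration operators, enumeration reducibility, uniformly e-invariant functions, the Scott
domain and its Wadge order.
-/

namespace Pool.Agent.H715R3.EScott

open Nat.Partrec

/-- `D u` is the finite set with canonical index `u` (binary digits). -/
def D (u : ℕ) : Set ℕ := {k | u.testBit k = true}

/-- `W j` is the `j`-th computably enumerable set: the domain of the `j`-th partial computable
function. -/
def W (j : ℕ) : Set ℕ := {n | (Code.eval (Code.ofNatCode j) n).Dom}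

/-- `Gam j B = Γ_j(B)`: the `j`-th enumeration operator applied to `B`. -/
def Gam (j : ℕ) (B : Set ℕ) : Set ℕ := {n | ∃ u, Nat.pair n u ∈ W j ∧ D u ⊆ B}

/-- Enumeration reducibility `A ≤_e B`. -/
def ELe (A B : Set ℕ) : Prop := ∃ j, A = Gam j B

/-- A predicate enumerated by a primitive recursive relation is some `W j`. -/
lemma exists_W (R : ℕ → ℕ → Prop) (hR : PrimrecRel R) : ∃ j, W j = {n | ∃ s, R n s} := by
  classical
  obtain ⟨_, hR'⟩ := hR
  have hc2 : Computable₂ (fun n s : ℕ => decide (R n s)) := by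
    refine Computable.of_eq hR'.to_comp ?_
    intro p
    congr
  have hp : Partrec (fun n : ℕ => Nat.rfind ((fun s => (decide (R n s)) : ℕ → Bool) : ℕ →. Bool)) :=
    Partrec.rfind hc2.partrec₂
  obtain ⟨c, hc⟩ := Code.exists_code.1 (Partrec.nat_iff.1 hp)
  refine ⟨Encodable.encode c, ?_⟩
  ext n
  have h1 : Code.ofNatCode (Encodable.encode c) = c := by
    have := Denumerable.ofNat_encode c
    exact this
  simp only [W, Set.mem_ofPred_eq, h1, hc]
  refine Nat.rfind_dom.trans ?_
  constructor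
  · rintro ⟨s, hs, -⟩
    exact ⟨s, by simpa using hs⟩
  · rintro ⟨s, hs⟩
    exact ⟨s, by simpa using hs, fun _ => trivial⟩

lemma mem_W_iff (j n : ℕ) : n ∈ W j ↔ ∃ s, (Code.evaln s (Code.ofNatCode j) n).isSome = true := by
  simp only [W, Set.mem_ofPred_eq, Part.dom_iff_mem]
  constructor
  · rintro ⟨y, hy⟩
    obtain ⟨k, hk⟩ := Code.evaln_complete.1 hy
    exact ⟨k, by rw [Option.mem_def.1 hk]; rfl⟩
  · rintro ⟨s, hs⟩
    obtain ⟨y, hy⟩ := Option.isSome_iff_exists.1 hs
    exact ⟨y, Code.evaln_sound (Option.mem_def.2 hy)⟩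

lemma evaln_isSome_mono {c : Code} {s t n : ℕ} (h : s ≤ t)
    (hs : (Code.evaln s c n).isSome = true) : (Code.evaln t c n).isSome = true := by
  obtain ⟨y, hy⟩ := Option.isSome_iff_exists.1 hs
  have := Code.evaln_mono h (Option.mem_def.2 hy)
  rw [Option.mem_def.1 this]; rfl

lemma testBit_primrec : PrimrecRel (fun u k : ℕ => u.testBit k = true) := by
  have hpow : Primrec (fun p : ℕ × ℕ => p.1 ^ p.2) := by
    have := Nat.Primrec.pow
    exact Primrec₂.unpaired'.1 this
  have h2 : Primrec (fun p : ℕ × ℕ => (p.1 / 2 ^ p.2) % 2) := by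
    refine Primrec.nat_mod.comp (Primrec.nat_div.comp Primrec.fst ?_) (Primrec.const 2)
    exact hpow.comp ((Primrec.const 2).pair Primrec.snd)
  have h3 : PrimrecPred (fun p : ℕ × ℕ => (p.1 / 2 ^ p.2) % 2 = 1) :=
    Primrec.eq.comp h2 (Primrec.const 1)
  refine PrimrecPred.of_eq h3 ?_
  intro p
  show (p.1 / 2 ^ p.2 % 2 = 1) ↔ (p.1.testBit p.2 = true)
  rw [Nat.testBit_eq_decide_div_mod_eq]
  simp

lemma D_finite (u : ℕ) : (D u).Finite := by
  apply Set.Finite.subset (Set.finite_lt_nat u)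
  intro k hk
  simp only [D, Set.mem_ofPred_eq] at hk ⊢
  by_contra h
  push Not at h
  have : u < 2 ^ k := lt_of_le_of_lt h Nat.lt_two_pow_self
  rw [Nat.testBit_lt_two_pow this] at hk
  exact absurd hk (by simp)

lemma lt_of_mem_D {u k : ℕ} (hk : k ∈ D u) : k < u := by
  simp only [D, Set.mem_ofPred_eq] at hk
  by_contra h
  push Not at h
  have : u < 2 ^ k := lt_of_le_of_lt h Nat.lt_two_pow_self
  rw [Nat.testBit_lt_two_pow this] at hk
  exact absurd hk (by simp)

/-- Every finite set has a canonical index. -/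
lemma exists_D (F : Finset ℕ) : ∃ u, D u = ↑F := by
  induction F using Finset.induction_on with
  | empty => exact ⟨0, by ext k; simp [D]⟩
  | insert a s ha ih =>
    obtain ⟨u, hu⟩ := ih
    refine ⟨u ||| 2 ^ a, ?_⟩
    ext k
    have := congrArg (fun S => k ∈ S) hu
    simp only [D, Set.mem_ofPred_eq, eq_iff_iff] at this
    simp only [D, Set.mem_ofPred_eq, Nat.testBit_or, Nat.testBit_two_pow, Bool.or_eq_true,
      decide_eq_true_eq, this, Finset.coe_insert, Set.mem_insert_iff]
    constructor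
    · rintro (h | h)
      · exact Or.inr h
      · exact Or.inl h.symm
    · rintro (h | h)
      · exact Or.inr h.symm
      · exact Or.inl h

lemma bex {β : Type*} [Primcodable β] {R : ℕ → β → Prop} (hR : PrimrecRel R) {f : β → ℕ}
    (hf : Primrec f) : PrimrecPred (fun b => ∃ x < f b, R x b) := by
  have := hR.exists_mem_list.comp (Primrec.list_range.comp hf) Primrec.id
  refine PrimrecPred.of_eq this ?_
  intro b; simp

lemma ball {β : Type*} [Primcodable β] {R : ℕ → β → Prop} (hR : PrimrecRel R) {f : β → ℕ}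
    (hf : Primrec f) : PrimrecPred (fun b => ∀ x < f b, R x b) := by
  have := hR.forall_mem_list.comp (Primrec.list_range.comp hf) Primrec.id
  refine PrimrecPred.of_eq this ?_
  intro b; simp

lemma evaln_rel (c : Code) {β : Type*} [Primcodable β] {f g : β → ℕ}
    (hf : Primrec f) (hg : Primrec g) :
    PrimrecPred (fun b => (Code.evaln (f b) c (g b)).isSome = true) := by
  have h := Code.primrec_evaln.comp ((hf.pair (Primrec.const c)).pair hg)
  exact Primrec.eq.comp (Primrec.option_isSome.comp h) (Primrec.const true)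

/-- Composition of enumeration operators. -/
theorem ELe.trans {A B C : Set ℕ} (h1 : ELe A B) (h2 : ELe B C) : ELe A C := by
  obtain ⟨i, rfl⟩ := h1
  obtain ⟨j, rfl⟩ := h2
  classical
  set ci := Code.ofNatCode i with hci
  set cj := Code.ofNatCode j with hcj
  let R : ℕ → ℕ → Prop := fun m s => ∃ v < s,
    (Code.evaln s ci (Nat.pair m.unpair.1 v)).isSome = true ∧
    ∀ k < v, v.testBit k = true → ∃ w < s,
      (Code.evaln s cj (Nat.pair k w)).isSome = true ∧
        ∀ l < w, w.testBit l = true → m.unpair.2.testBit l = true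
  have hR : PrimrecRel R := by
    -- context: b = (m, s)
    have e1 : Primrec (fun p : ℕ × (ℕ × (ℕ × (ℕ × (ℕ × ℕ)))) => p.2.2.2.2.1.unpair.2) :=
      (Primrec.snd.comp Primrec.unpair).comp
        (Primrec.fst.comp (Primrec.snd.comp (Primrec.snd.comp (Primrec.snd.comp Primrec.snd))))
    -- innermost: l, (w, (k, (v, (m, s))))
    have h1 : PrimrecRel (fun (l : ℕ) (p : ℕ × (ℕ × (ℕ × (ℕ × ℕ)))) =>
        p.1.testBit l = true → p.2.2.2.1.unpair.2.testBit l = true) := by
      have a := testBit_primrec.comp (Primrec.fst.comp Primrec.snd)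
        (Primrec.fst : Primrec (fun q : ℕ × (ℕ × (ℕ × (ℕ × (ℕ × ℕ)))) => q.1))
      have b := testBit_primrec.comp e1
        (Primrec.fst : Primrec (fun q : ℕ × (ℕ × (ℕ × (ℕ × (ℕ × ℕ)))) => q.1))
      have := a.not.or b
      refine PrimrecPred.of_eq this ?_
      intro q
      show (¬ (q.2.1.testBit q.1 = true) ∨ _) ↔ (q.2.1.testBit q.1 = true → _)
      exact (imp_iff_not_or).symm
    have h2 : PrimrecPred (fun (p : ℕ × (ℕ × (ℕ × (ℕ × ℕ)))) =>
        ∀ l < p.1, p.1.testBit l = true → p.2.2.2.1.unpair.2.testBit l = true) :=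
      ball h1 Primrec.fst
    have h3 : PrimrecRel (fun (w : ℕ) (p : (ℕ × (ℕ × (ℕ × ℕ)))) =>
        (Code.evaln p.2.2.2 cj (Nat.pair p.1 w)).isSome = true ∧
        ∀ l < w, w.testBit l = true → p.2.2.1.unpair.2.testBit l = true) := by
      have a : PrimrecPred (fun q : ℕ × (ℕ × (ℕ × (ℕ × ℕ))) =>
          (Code.evaln q.2.2.2.2 cj (Nat.pair q.2.1 q.1)).isSome = true) :=
        evaln_rel cj (Primrec.snd.comp (Primrec.snd.comp (Primrec.snd.comp Primrec.snd)))
          (Primrec₂.natPair.comp (Primrec.fst.comp Primrec.snd) Primrec.fst)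
      exact a.and h2
    have h4 : PrimrecPred (fun (p : (ℕ × (ℕ × (ℕ × ℕ)))) =>
        ∃ w < p.2.2.2, (Code.evaln p.2.2.2 cj (Nat.pair p.1 w)).isSome = true ∧
        ∀ l < w, w.testBit l = true → p.2.2.1.unpair.2.testBit l = true) :=
      bex h3 (Primrec.snd.comp (Primrec.snd.comp Primrec.snd))
    have h5 : PrimrecRel (fun (k : ℕ) (p : ℕ × (ℕ × ℕ)) =>
        p.1.testBit k = true → ∃ w < p.2.2, (Code.evaln p.2.2 cj (Nat.pair k w)).isSome = true ∧
        ∀ l < w, w.testBit l = true → p.2.1.unpair.2.testBit l = true) := by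
      have a := testBit_primrec.comp (Primrec.fst.comp Primrec.snd)
        (Primrec.fst : Primrec (fun q : ℕ × (ℕ × (ℕ × ℕ)) => q.1))
      have := a.not.or h4
      refine PrimrecPred.of_eq this ?_
      intro q
      show (¬ (q.2.1.testBit q.1 = true) ∨ _) ↔ (q.2.1.testBit q.1 = true → _)
      exact (imp_iff_not_or).symm
    have h6 : PrimrecPred (fun (p : ℕ × (ℕ × ℕ)) =>
        ∀ k < p.1, p.1.testBit k = true → ∃ w < p.2.2,
          (Code.evaln p.2.2 cj (Nat.pair k w)).isSome = true ∧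
          ∀ l < w, w.testBit l = true → p.2.1.unpair.2.testBit l = true) :=
      ball h5 Primrec.fst
    have h7 : PrimrecRel (fun (v : ℕ) (p : ℕ × ℕ) =>
        (Code.evaln p.2 ci (Nat.pair p.1.unpair.1 v)).isSome = true ∧
        ∀ k < v, v.testBit k = true → ∃ w < p.2,
          (Code.evaln p.2 cj (Nat.pair k w)).isSome = true ∧
          ∀ l < w, w.testBit l = true → p.1.unpair.2.testBit l = true) := by
      have a : PrimrecPred (fun q : ℕ × (ℕ × ℕ) =>
          (Code.evaln q.2.2 ci (Nat.pair q.2.1.unpair.1 q.1)).isSome = true) :=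
        evaln_rel ci (Primrec.snd.comp Primrec.snd)
          (Primrec₂.natPair.comp ((Primrec.fst.comp Primrec.unpair).comp
            (Primrec.fst.comp Primrec.snd)) Primrec.fst)
      exact a.and h6
    exact bex h7 Primrec.snd
  obtain ⟨k, hk⟩ := exists_W R hR
  refine ⟨k, ?_⟩
  ext n
  constructor
  · rintro ⟨v, hv, hvB⟩
    -- finitely many k in D v
    have hfin := D_finite v
    have hch : ∀ k ∈ D v, ∃ w, Nat.pair k w ∈ W j ∧ D w ⊆ C := fun k hk => hvB hk
    choose! w hw1 hw2 using hch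
    -- bound for stages
    obtain ⟨s0, hs0⟩ := (mem_W_iff i _).1 hv
    have hst : ∀ k ∈ D v, ∃ s, (Code.evaln s cj (Nat.pair k (w k))).isSome = true :=
      fun k hk => (mem_W_iff j _).1 (hw1 k hk)
    choose! st hst using hst
    obtain ⟨M, hM⟩ := (hfin.image (fun k => max (w k) (st k))).bddAbove
    have hM' : ∀ k ∈ D v, w k ≤ M ∧ st k ≤ M := by
      intro k hk
      have := hM ⟨k, hk, rfl⟩
      exact ⟨le_trans (le_max_left _ _) this, le_trans (le_max_right _ _) this⟩
    -- union of D (w k)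
    have hfinU : (⋃ k ∈ D v, D (w k)).Finite := hfin.biUnion (fun k _ => D_finite _)
    obtain ⟨u, hu⟩ := exists_D hfinU.toFinset
    refine ⟨u, ?_, ?_⟩
    · rw [hk]
      refine ⟨max (max s0 (M+1)) (v+1), v, by omega, ?_, ?_⟩
      · simp only [Nat.unpair_pair]
        exact evaln_isSome_mono (by omega) hs0
      · intro k hkv hkb
        obtain ⟨h1, h2⟩ := hM' k hkb
        refine ⟨w k, by omega, evaln_isSome_mono (by omega) (hst k hkb), ?_⟩
        intro l _ hl
        have : l ∈ D u := by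
          rw [hu]
          simp only [Set.Finite.coe_toFinset, Set.mem_iUnion]
          exact ⟨k, hkb, hl⟩
        simpa [D] using this
    · rw [hu]
      simp only [Set.Finite.coe_toFinset]
      exact Set.iUnion₂_subset (fun k hk => hw2 k hk)
  · rintro ⟨u, hu, huC⟩
    rw [hk] at hu
    obtain ⟨s, v, hvs, hv, hall⟩ := hu
    simp only [Nat.unpair_pair] at hv hall
    refine ⟨v, (mem_W_iff i _).2 ⟨s, hv⟩, ?_⟩
    intro k hkv
    obtain ⟨w, hws, hw, hwl⟩ := hall k (lt_of_mem_D hkv) hkv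
    refine ⟨w, (mem_W_iff j _).2 ⟨s, hw⟩, ?_⟩
    intro l hl
    exact huC (hwl l (lt_of_mem_D hl) hl)

lemma ELe.refl (A : Set ℕ) : ELe A A := by
  have hR : PrimrecRel (fun m _s : ℕ => m.unpair.2 = 2 ^ m.unpair.1) := by
    have hpow : Primrec (fun p : ℕ × ℕ => p.1 ^ p.2) := Primrec₂.unpaired'.1 Nat.Primrec.pow
    have h1 : Primrec (fun q : ℕ × ℕ => q.1.unpair.2) :=
      (Primrec.snd.comp Primrec.unpair).comp Primrec.fst
    have h2 : Primrec (fun q : ℕ × ℕ => 2 ^ q.1.unpair.1) :=
      hpow.comp ((Primrec.const 2).pair ((Primrec.fst.comp Primrec.unpair).comp Primrec.fst))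
    exact Primrec.eq.comp h1 h2
  obtain ⟨j, hj⟩ := exists_W _ hR
  refine ⟨j, ?_⟩
  ext n
  have hD : D (2 ^ n) = {n} := by
    ext k
    simp only [D, Set.mem_ofPred_eq, Nat.testBit_two_pow, decide_eq_true_eq,
      Set.mem_singleton_iff]
    exact eq_comm
  constructor
  · intro hn
    refine ⟨2 ^ n, ?_, ?_⟩
    · rw [hj]; exact ⟨0, by simp⟩
    · rw [hD]; simpa using hn
  · rintro ⟨u, hu, huA⟩
    rw [hj] at hu
    obtain ⟨s, hs⟩ := hu
    simp only [Nat.unpair_pair] at hs
    subst hs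
    rw [hD] at huA
    exact huA rfl

/-- The join of two sets. -/
def join (A B : Set ℕ) : Set ℕ := {m | (∃ n ∈ A, m = 2 * n) ∨ (∃ n ∈ B, m = 2 * n + 1)}

lemma ele_of_computable_singleton (t : ℕ → ℕ) (ht : Primrec t) (A B : Set ℕ)
    (h : ∀ n, n ∈ A ↔ t n ∈ B) : ELe A B := by
  have hR : PrimrecRel (fun m _s : ℕ => m.unpair.2 = 2 ^ (t m.unpair.1)) := by
    have hpow : Primrec (fun p : ℕ × ℕ => p.1 ^ p.2) := Primrec₂.unpaired'.1 Nat.Primrec.pow
    have h1 : Primrec (fun q : ℕ × ℕ => q.1.unpair.2) :=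
      (Primrec.snd.comp Primrec.unpair).comp Primrec.fst
    have h2 : Primrec (fun q : ℕ × ℕ => 2 ^ (t q.1.unpair.1)) :=
      hpow.comp ((Primrec.const 2).pair (ht.comp ((Primrec.fst.comp Primrec.unpair).comp Primrec.fst)))
    exact Primrec.eq.comp h1 h2
  obtain ⟨j, hj⟩ := exists_W _ hR
  refine ⟨j, ?_⟩
  ext n
  have hD : D (2 ^ (t n)) = {t n} := by
    ext k
    simp only [D, Set.mem_ofPred_eq, Nat.testBit_two_pow, decide_eq_true_eq,
      Set.mem_singleton_iff]
    exact eq_comm
  constructor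
  · intro hn
    refine ⟨2 ^ (t n), ?_, ?_⟩
    · rw [hj]; exact ⟨0, by simp⟩
    · rw [hD]; simpa using (h n).1 hn
  · rintro ⟨u, hu, huA⟩
    rw [hj] at hu
    obtain ⟨s, hs⟩ := hu
    simp only [Nat.unpair_pair] at hs
    subst hs
    rw [hD] at huA
    exact (h n).2 (huA rfl)

lemma ele_join_left (A B : Set ℕ) : ELe A (join A B) := by
  refine ele_of_computable_singleton (fun n => 2 * n) ?_ _ _ ?_
  · exact Primrec.nat_mul.comp (Primrec.const 2) Primrec.id
  · intro n
    simp only [join, Set.mem_ofPred_eq]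
    constructor
    · intro h; exact Or.inl ⟨n, h, rfl⟩
    · rintro (⟨m, hm, he⟩ | ⟨m, hm, he⟩)
      · have : n = m := by omega
        rwa [this]
      · omega

lemma ele_join_right (A B : Set ℕ) : ELe B (join A B) := by
  refine ele_of_computable_singleton (fun n => 2 * n + 1) ?_ _ _ ?_
  · exact Primrec.succ.comp (Primrec.nat_mul.comp (Primrec.const 2) Primrec.id)
  · intro n
    simp only [join, Set.mem_ofPred_eq]
    constructor
    · intro h; exact Or.inr ⟨n, h, rfl⟩
    · rintro (⟨m, hm, he⟩ | ⟨m, hm, he⟩)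
      · omega
      · have : n = m := by omega
        rwa [this]

end Pool.Agent.H715R3.EScott
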