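import Pool.Agent.H715R3.EScott

set_option autoImplicit false

namespace Pool.Agent.H715R3.EScott

/-- `f` is uniformly e-invariant: some `u : ℕ → ℕ` is such that whenever `A ≡_e B` via
`⟨i, j⟩` (that is `A = Γ_i(B)` and `B = Γ_j(A)`), also `f A ≡_e f B` via `u ⟨i, j⟩`. -/
def UInv (f : Set ℕ → Set ℕ) : Prop :=
  ∃ u : ℕ → ℕ, ∀ (A B : Set ℕ) (i j : ℕ), A = Gam i B → B = Gam j A →
    f A = Gam (u (Nat.pair i j)).unpair.1 (f B) ∧ f B = Gam (u (Nat.pair i j)).unpair.2 (f A)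

/-- The type of uniformly e-invariant functions `𝒫(ℕ) → 𝒫(ℕ)`. -/
def UI : Type := {f : Set ℕ → Set ℕ // UInv f}

/-- Comparison on an upper cone of the enumeration degrees. -/
def TriLe (f g : UI) : Prop := ∃ A : Set ℕ, ∀ X : Set ℕ, ELe A X → ELe (f.1 X) (g.1 X)

/-- The preorder `≤_e^▽` on uniformly e-invariant functions. -/
instance : Preorder UI where
  le := TriLe
  le_refl f := ⟨∅, fun X _ => ELe.refl _⟩
  le_trans f g h := by
    rintro ⟨A, hA⟩ ⟨B, hB⟩
    exact ⟨join A B, fun X hX =>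
      (hA X ((ele_join_left A B).trans hX)).trans (hB X ((ele_join_right A B).trans hX))⟩

set_option warn.classDefReducibility false in
/-- The Scott topology on `𝒫(ℕ)`, generated by the sets `[F] = {X : F ⊆ X}`, `F` finite. -/
def scott : TopologicalSpace (Set ℕ) :=
  TopologicalSpace.generateFrom (Set.range (fun F : Finset ℕ => {X : Set ℕ | (F : Set ℕ) ⊆ X}))

/-- The type of subsets of the Scott domain. -/
def WSub : Type := Set (Set ℕ)

/-- Wadge reducibility on the Scott domain. -/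
def WLe (S T : WSub) : Prop :=
  ∃ h : Set ℕ → Set ℕ, @Continuous _ _ scott scott h ∧ (S : Set (Set ℕ)) = h ⁻¹' (T : Set (Set ℕ))

/-- The Wadge preorder on subsets of the Scott domain. -/
instance : Preorder WSub where
  le := WLe
  le_refl S := ⟨id, @continuous_id _ scott, rfl⟩
  le_trans S T U := by
    rintro ⟨h, hh, rfl⟩ ⟨k, hk, rfl⟩
    exact ⟨k ∘ h, @Continuous.comp _ _ _ scott scott scott _ _ hk hh, rfl⟩

/-- The empty subset of the Scott domain. -/
def wEmpty : WSub := (∅ : Set (Set ℕ))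

/-- The whole Scott domain. -/
def wUniv : WSub := (Set.univ : Set (Set ℕ))

/-- The constant function with value `∅`. -/
def botUI : UI := ⟨fun _ => ∅, ⟨fun _ => Nat.pair (ELe.refl ∅).choose (ELe.refl ∅).choose, by
  intro A B i j _ _
  simp only [Nat.unpair_pair]
  exact ⟨(ELe.refl ∅).choose_spec, (ELe.refl ∅).choose_spec⟩⟩⟩

lemma empty_ele (B : Set ℕ) : ELe ∅ B := by
  obtain ⟨j, hj⟩ := exists_W (fun _ _ => False) (by
    exact PrimrecPred.of_eq (Primrec.eq.comp (Primrec.const 0 : Primrec (fun _ : ℕ × ℕ => 0))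
      (Primrec.const 1)) (by simp))
  refine ⟨j, ?_⟩
  ext n
  simp only [Set.mem_empty_iff_false, Gam, Set.mem_ofPred_eq, hj, exists_false, false_iff]
  rintro ⟨u, hu, -⟩
  simp at hu

lemma botUI_le (f : UI) : botUI ≤ f := ⟨∅, fun _ _ => empty_ele _⟩

/-- General non-isomorphism theorem. -/
theorem noIso (𝒮 : Set WSub) (𝓕 : Set UI) (h0 : wEmpty ∈ 𝒮)
    (h1 : wUniv ∈ 𝒮) (hb : botUI ∈ 𝓕) :
    IsEmpty (Antisymmetrization 𝒮 (· ≤ ·) ≃o Antisymmetrization 𝓕 (· ≤ ·)) := by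
  constructor
  intro e
  let q : Antisymmetrization 𝓕 (· ≤ ·) := toAntisymmetrization (· ≤ ·) (⟨botUI, hb⟩ : 𝓕)
  have hq : ∀ x, q ≤ x := by
    intro x
    induction x using Quotient.inductionOn with
    | _ f => exact botUI_le f.1
  obtain ⟨S, hS⟩ := Quotient.exists_rep (e.symm q)
  have k0 : e.symm q ≤ toAntisymmetrization (· ≤ ·) (⟨wEmpty, h0⟩ : 𝒮) := by
    rw [← e.le_iff_le, e.apply_symm_apply]; exact hq _
  have k1 : e.symm q ≤ toAntisymmetrization (· ≤ ·) (⟨wUniv, h1⟩ : 𝒮) := by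
    rw [← e.le_iff_le, e.apply_symm_apply]; exact hq _
  rw [← hS] at k0 k1
  have k0' : WLe S.1 (∅ : Set (Set ℕ)) := k0
  have k1' : WLe S.1 (Set.univ : Set (Set ℕ)) := k1
  obtain ⟨h, _, hh⟩ := k0'
  obtain ⟨k, _, hk⟩ := k1'
  rw [Set.preimage_empty] at hh
  rw [Set.preimage_univ] at hk
  have : (∅ : Set (Set ℕ)) = Set.univ := hh.symm.trans hk
  exact absurd this (Set.empty_ne_univ)

end Pool.Agent.H715R3.EScott
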