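import Pool.Agent.H715R3.EScott2

set_option autoImplicit false

namespace Pool.Agent.H715R3.EScott

open Cardinal Nat.Partrec

/-! ### Scott continuous maps are determined by finite sets -/

lemma scott_open_char {V : Set (Set ℕ)} (hV : @IsOpen _ scott V) :
    ∀ X ∈ V, ∃ F : Finset ℕ, (F : Set ℕ) ⊆ X ∧ ∀ Y : Set ℕ, (F : Set ℕ) ⊆ Y → Y ∈ V := by
  induction hV with
  | basic s hs =>
    obtain ⟨F, rfl⟩ := hs
    intro X hX
    exact ⟨F, hX, fun Y hY => hY⟩
  | univ => intro X _; exact ⟨∅, by simp, fun _ _ => trivial⟩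
  | inter s t _ _ ihs iht =>
    rintro X ⟨h1, h2⟩
    obtain ⟨F, hF, hF'⟩ := ihs X h1
    obtain ⟨G, hG, hG'⟩ := iht X h2
    refine ⟨F ∪ G, by simp [hF, hG], fun Y hY => ⟨hF' Y ?_, hG' Y ?_⟩⟩
    · exact fun x hx => hY (by simp only [Finset.coe_union]; exact Or.inl hx)
    · exact fun x hx => hY (by simp only [Finset.coe_union]; exact Or.inr hx)
  | sUnion S _ ih =>
    rintro X ⟨s, hs, hX⟩
    obtain ⟨F, hF, hF'⟩ := ih s hs X hX
    exact ⟨F, hF, fun Y hY => ⟨s, hs, hF' Y hY⟩⟩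

lemma scott_det {h : Set ℕ → Set ℕ} (hh : @Continuous _ _ scott scott h) (X : Set ℕ) (n : ℕ) :
    n ∈ h X ↔ ∃ F : Finset ℕ, (F : Set ℕ) ⊆ X ∧ n ∈ h (F : Set ℕ) := by
  have hO : @IsOpen _ scott {Y : Set ℕ | (({n} : Finset ℕ) : Set ℕ) ⊆ Y} :=
    TopologicalSpace.isOpen_generateFrom_of_mem ⟨{n}, rfl⟩
  have hpre := @IsOpen.preimage _ _ scott scott _ hh _ hO
  have key := scott_open_char hpre
  have hmem : ∀ Y, Y ∈ h ⁻¹' {Y : Set ℕ | (({n} : Finset ℕ) : Set ℕ) ⊆ Y} ↔ n ∈ h Y := by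
    intro Y; simp
  constructor
  · intro hn
    obtain ⟨F, hF, hF'⟩ := key X ((hmem X).2 hn)
    exact ⟨F, hF, (hmem _).1 (hF' _ (le_refl _))⟩
  · rintro ⟨F, hF, hn⟩
    obtain ⟨G, hG, hG'⟩ := key F ((hmem _).2 hn)
    exact (hmem _).1 (hG' X (hG.trans hF))

lemma card_scott_cont :
    #{h : Set ℕ → Set ℕ // @Continuous _ _ scott scott h} ≤ 𝔠 := by
  have hinj : Function.Injective
      (fun (h : {h : Set ℕ → Set ℕ // @Continuous _ _ scott scott h}) (F : Finset ℕ) =>
        h.1 (F : Set ℕ)) := by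
    intro h k hhk
    apply Subtype.ext
    funext X
    ext n
    rw [scott_det h.2, scott_det k.2]
    have : ∀ F : Finset ℕ, h.1 (F : Set ℕ) = k.1 (F : Set ℕ) := fun F => congrFun hhk F
    simp only [this]
  refine (Cardinal.mk_le_of_injective hinj).trans ?_
  simp

/-! ### An injective choice lemma -/

/-- If every initial choice of fewer than `#I` points can be avoided, there is a choice
of points which pairwise avoid each other. -/
theorem exists_choice {I X : Type} (C : I → Set X) (E : X → X → Prop)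
    (h : ∀ (i : I) (S : Set X), #S < #I → ∃ x ∈ C i, ∀ y ∈ S, ¬ E x y) :
    ∃ (r : I → I → Prop), (∀ i j, i ≠ j → r i j ∨ r j i) ∧
      ∃ f : I → X, (∀ i, f i ∈ C i) ∧ ∀ i j, r j i → ¬ E (f i) (f j) := by
  classical
  obtain ⟨r, wo, hr⟩ := Cardinal.exists_ord_eq I
  refine ⟨r, fun i j hij => ?_, ?_⟩
  · by_contra hcon
    push Not at hcon
    exact hij (wo.toTrichotomous.trichotomous i j hcon.1 hcon.2)
  have key : ∀ (i : I) (g : ∀ j, r j i → X), ∃ x ∈ C i, ∀ j (hj : r j i), ¬ E x (g j hj) := by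
    intro i g
    have hc : #(Set.range (fun j : {j // r j i} => g j.1 j.2)) < #I := by
      refine lt_of_le_of_lt Cardinal.mk_range_le ?_
      have := Cardinal.card_typein_lt (r := r) i hr
      rwa [Ordinal.card_typein] at this
    obtain ⟨x, hx, hx'⟩ := h i _ hc
    exact ⟨x, hx, fun j hj => hx' _ ⟨⟨j, hj⟩, rfl⟩⟩
  choose F hF1 hF2 using key
  let f : I → X := wo.wf.fix (fun i g => F i g)
  have hf : ∀ i, f i = F i (fun j _ => f j) := fun i => wo.wf.fix_eq _ i
  refine ⟨f, fun i => ?_, fun i j hj => ?_⟩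
  · rw [hf]; exact hF1 _ _
  · rw [hf i]; exact hF2 i _ j hj

/-! ### Counting e-degrees -/

/-- Enumeration equivalence. -/
def EEq (A B : Set ℕ) : Prop := ELe A B ∧ ELe B A

lemma EEq.symm {A B : Set ℕ} (h : EEq A B) : EEq B A := ⟨h.2, h.1⟩
lemma EEq.trans {A B C : Set ℕ} (h : EEq A B) (k : EEq B C) : EEq A C :=
  ⟨h.1.trans k.1, k.2.trans h.2⟩

lemma countable_below (B : Set ℕ) : {A : Set ℕ | ELe A B}.Countable := by
  have : {A : Set ℕ | ELe A B} = Set.range (fun j => Gam j B) := by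
    ext A
    constructor
    · rintro ⟨j, hj⟩; exact ⟨j, hj.symm⟩
    · rintro ⟨j, hj⟩; exact ⟨j, hj.symm⟩
  rw [this]
  exact Set.countable_range _

lemma exists_not_ce : ∃ K : Set ℕ, ¬ ELe K ∅ := by
  by_contra hcon
  push Not at hcon
  have h1 : (Set.univ : Set (Set ℕ)).Countable :=
    (countable_below ∅).mono (fun A _ => hcon A)
  have h2 : Countable (Set ℕ) := Set.countable_univ_iff.1 h1
  have h3 : #(Set ℕ) ≤ ℵ₀ := Cardinal.mk_le_aleph0_iff.2 h2
  rw [Cardinal.mk_set_nat] at h3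
  exact absurd h3 (not_le.2 Cardinal.aleph0_lt_continuum)

lemma join_inj {A B C : Set ℕ} (h : join A B = join A C) : B = C := by
  ext n
  have := congrArg (fun S => (2 * n + 1) ∈ S) h
  simp only [join, Set.mem_ofPred_eq, eq_iff_iff] at this
  constructor
  · intro hn
    rcases this.1 (Or.inr ⟨n, hn, rfl⟩) with ⟨m, _, he⟩ | ⟨m, hm, he⟩
    · omega
    · have : n = m := by omega
      rwa [this]
  · intro hn
    rcases this.2 (Or.inr ⟨n, hn, rfl⟩) with ⟨m, _, he⟩ | ⟨m, hm, he⟩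
    · omega
    · have : n = m := by omega
      rwa [this]

lemma avoid (A : Set ℕ) (S : Set (Set ℕ)) (hS : #S < 𝔠) :
    ∃ X, ELe A X ∧ ∀ Y ∈ S, ¬ EEq X Y := by
  by_contra hcon
  push Not at hcon
  -- all joins `join A B` lie in the union of the classes of members of S
  have hsub : Set.range (fun B => join A B) ⊆ ⋃ Y ∈ S, {X | EEq X Y} := by
    rintro _ ⟨B, rfl⟩
    obtain ⟨Y, hY, hXY⟩ := hcon (join A B) (ele_join_left A B)
    exact Set.mem_biUnion hY hXY
  have h1 : #(Set.range (fun B => join A B)) = 𝔠 := by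
    rw [Cardinal.mk_range_eq _ (fun B C h => join_inj h), Cardinal.mk_set_nat]
  have h2 : #(⋃ Y ∈ S, {X | EEq X Y} : Set (Set ℕ)) ≤ #S * ℵ₀ := by
    refine (Cardinal.mk_biUnion_le _ _).trans ?_
    gcongr
    apply ciSup_le'
    intro Y
    refine Cardinal.le_aleph0_iff_set_countable.2 ?_
    exact (countable_below Y.1).mono (fun X hX => hX.1)
  have h3 : 𝔠 ≤ #S * ℵ₀ := by
    rw [← h1]
    exact (Cardinal.mk_le_mk_of_subset hsub).trans h2
  have h4 : #S * ℵ₀ < 𝔠 := by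
    rcases lt_or_ge #S ℵ₀ with h | h
    · exact lt_of_le_of_lt (mul_le_mul' h.le le_rfl) (by
        rw [Cardinal.aleph0_mul_aleph0]; exact Cardinal.aleph0_lt_continuum)
    · rw [Cardinal.mul_aleph0_eq h]
      exact hS
  exact absurd h3 (not_le.2 h4)

/-! ### The functions `f_W` -/

/-- Shift: `{0} ∪ (X + 1)`. -/
def sh (X : Set ℕ) : Set ℕ := {n | n = 0 ∨ ∃ m ∈ X, n = m + 1}

lemma ele_sh (X : Set ℕ) : ELe X (sh X) := by
  refine ele_of_computable_singleton (fun n => n + 1) Primrec.succ _ _ ?_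
  intro n
  simp [sh]

lemma evaln_rel' (c : Code) {β : Type*} [Primcodable β] {f g : β → ℕ}
    (hf : Primrec f) (hg : Primrec g) :
    PrimrecPred (fun b => (Code.evaln (f b) c (g b)).isSome = true) := evaln_rel c hf hg

lemma D_two_mul_add_one (u : ℕ) : D (2 * u + 1) = sh (D u) := by
  ext k
  rcases k with _ | k
  · simp [D, sh]
  · simp only [D, Set.mem_ofPred_eq, sh, Nat.testBit_succ]
    have : (2 * u + 1) / 2 = u := by omega
    rw [this]
    simp

/-- The index of the operator sending `sh B` to `sh (Γ_i(B))` and `∅` to `∅`. -/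
lemma exists_shift_index (i : ℕ) : ∃ a : ℕ, Gam a ∅ = ∅ ∧ ∀ B, Gam a (sh B) = sh (Gam i B) := by
  classical
  set ci := Code.ofNatCode i with hci
  let R : ℕ → ℕ → Prop := fun m s =>
    (m.unpair.1 = 0 ∧ m.unpair.2 = 1) ∨
    ((m.unpair.1 ≠ 0 ∧ m.unpair.2 % 2 = 1) ∧
      (Code.evaln s ci (Nat.pair (m.unpair.1 - 1) (m.unpair.2 / 2))).isSome = true)
  have hR : PrimrecRel R := by
    have p1 : Primrec (fun q : ℕ × ℕ => q.1.unpair.1) :=
      (Primrec.fst.comp Primrec.unpair).comp Primrec.fst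
    have p2 : Primrec (fun q : ℕ × ℕ => q.1.unpair.2) :=
      (Primrec.snd.comp Primrec.unpair).comp Primrec.fst
    have a1 : PrimrecPred (fun q : ℕ × ℕ => q.1.unpair.1 = 0) :=
      Primrec.eq.comp p1 (Primrec.const 0)
    have a2 : PrimrecPred (fun q : ℕ × ℕ => q.1.unpair.2 = 1) :=
      Primrec.eq.comp p2 (Primrec.const 1)
    have a3 : PrimrecPred (fun q : ℕ × ℕ => q.1.unpair.2 % 2 = 1) :=
      Primrec.eq.comp (Primrec.nat_mod.comp p2 (Primrec.const 2)) (Primrec.const 1)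
    have a4 : PrimrecPred (fun q : ℕ × ℕ =>
        (Code.evaln q.2 ci (Nat.pair (q.1.unpair.1 - 1) (q.1.unpair.2 / 2))).isSome = true) := by
      refine evaln_rel ci Primrec.snd ?_
      exact Primrec₂.natPair.comp (Primrec.nat_sub.comp p1 (Primrec.const 1))
        (Primrec.nat_div.comp p2 (Primrec.const 2))
    exact (a1.and a2).or ((a1.not.and a3).and a4)
  obtain ⟨a, ha⟩ := exists_W R hR
  refine ⟨a, ?_, ?_⟩
  · ext n
    simp only [Set.mem_empty_iff_false, iff_false]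
    rintro ⟨u, hu, hu0⟩
    rw [ha] at hu
    obtain ⟨s, hs⟩ := hu
    simp only [R, Nat.unpair_pair] at hs
    have hodd : u % 2 = 1 := by
      rcases hs with ⟨_, h⟩ | ⟨⟨_, h⟩, _⟩
      · omega
      · exact h
    have : (0 : ℕ) ∈ D u := by
      simp [D, Nat.testBit_zero, hodd]
    exact hu0 this
  · intro B
    ext n
    constructor
    · rintro ⟨u, hu, huB⟩
      rw [ha] at hu
      obtain ⟨s, hs⟩ := hu
      simp only [R, Nat.unpair_pair] at hs
      rcases hs with ⟨h, _⟩ | ⟨⟨h, hodd⟩, hs⟩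
      · exact Or.inl h
      · refine Or.inr ⟨n - 1, ⟨u / 2, (mem_W_iff i _).2 ⟨s, hs⟩, ?_⟩, by omega⟩
        intro k hk
        have hu2 : u = 2 * (u / 2) + 1 := by omega
        have : k + 1 ∈ D u := by
          rw [hu2, D_two_mul_add_one]
          exact Or.inr ⟨k, hk, rfl⟩
        rcases huB this with h | ⟨m, hm, he⟩
        · omega
        · have : k = m := by omega
          rwa [this]
    · rintro (h | ⟨m, ⟨u, hu, huB⟩, rfl⟩)
      · subst h
        refine ⟨1, ?_, ?_⟩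
        · rw [ha]; exact ⟨0, by simp [R]⟩
        · intro k hk
          have : k < 1 := lt_of_mem_D hk
          exact Or.inl (by omega)
      · obtain ⟨s, hs⟩ := (mem_W_iff i _).1 hu
        refine ⟨2 * u + 1, ?_, ?_⟩
        · rw [ha]
          refine ⟨s, Or.inr ⟨⟨by simp, by simp⟩, ?_⟩⟩
          simp only [Nat.unpair_pair, Nat.add_sub_cancel]
          have : (2 * u + 1) / 2 = u := by omega
          rw [this]
          exact hs
        · rw [D_two_mul_add_one]
          rintro k (h | ⟨m', hm', rfl⟩)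
          · exact Or.inl h
          · exact Or.inr ⟨m', huB hm', rfl⟩

lemma sh_ele (X : Set ℕ) : ELe (sh X) X := by
  classical
  let R : ℕ → ℕ → Prop := fun m _s =>
    (m.unpair.1 = 0 ∧ m.unpair.2 = 0) ∨ (m.unpair.1 ≠ 0 ∧ m.unpair.2 = 2 ^ (m.unpair.1 - 1))
  have hR : PrimrecRel R := by
    have p1 : Primrec (fun q : ℕ × ℕ => q.1.unpair.1) :=
      (Primrec.fst.comp Primrec.unpair).comp Primrec.fst
    have p2 : Primrec (fun q : ℕ × ℕ => q.1.unpair.2) :=
      (Primrec.snd.comp Primrec.unpair).comp Primrec.fst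
    have hpow : Primrec (fun p : ℕ × ℕ => p.1 ^ p.2) := Primrec₂.unpaired'.1 Nat.Primrec.pow
    have a1 : PrimrecPred (fun q : ℕ × ℕ => q.1.unpair.1 = 0) :=
      Primrec.eq.comp p1 (Primrec.const 0)
    have a2 : PrimrecPred (fun q : ℕ × ℕ => q.1.unpair.2 = 0) :=
      Primrec.eq.comp p2 (Primrec.const 0)
    have a3 : PrimrecPred (fun q : ℕ × ℕ => q.1.unpair.2 = 2 ^ (q.1.unpair.1 - 1)) :=
      Primrec.eq.comp p2 (hpow.comp ((Primrec.const 2).pair
        (Primrec.nat_sub.comp p1 (Primrec.const 1))))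
    exact (a1.and a2).or (a1.not.and a3)
  obtain ⟨a, ha⟩ := exists_W R hR
  refine ⟨a, ?_⟩
  have hD0 : D 0 = ∅ := by ext k; simp [D]
  have hDp : ∀ n, D (2 ^ n) = {n} := by
    intro n
    ext k
    simp only [D, Set.mem_ofPred_eq, Nat.testBit_two_pow, decide_eq_true_eq,
      Set.mem_singleton_iff]
    exact eq_comm
  ext n
  constructor
  · rintro (h | ⟨m, hm, rfl⟩)
    · subst h
      refine ⟨0, ?_, by rw [hD0]; exact Set.empty_subset _⟩
      rw [ha]; exact ⟨0, Or.inl (by simp)⟩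
    · refine ⟨2 ^ m, ?_, by rw [hDp]; simpa using hm⟩
      rw [ha]; exact ⟨0, Or.inr (by simp)⟩
  · rintro ⟨u, hu, huX⟩
    rw [ha] at hu
    obtain ⟨s, hs⟩ := hu
    simp only [R, Nat.unpair_pair] at hs
    rcases hs with ⟨h, _⟩ | ⟨h, he⟩
    · exact Or.inl h
    · subst he
      rw [hDp] at huX
      exact Or.inr ⟨n - 1, huX rfl, by omega⟩

/-- The function equal to `sh X` on `Z` and `∅` off `Z`. -/
noncomputable def fZ (Z : Set (Set ℕ)) : Set ℕ → Set ℕ := by
  classical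
  exact fun X => if X ∈ Z then sh X else ∅

lemma fZ_uinv {Z : Set (Set ℕ)} (hZ : ∀ A B, EEq A B → (A ∈ Z ↔ B ∈ Z)) : UInv (fZ Z) := by
  classical
  choose a ha0 ha1 using exists_shift_index
  refine ⟨fun e => Nat.pair (a e.unpair.1) (a e.unpair.2), ?_⟩
  intro A B i j hA hB
  have hAB : EEq A B := ⟨⟨i, hA⟩, ⟨j, hB⟩⟩
  simp only [Nat.unpair_pair]
  by_cases h : A ∈ Z
  · have h' : B ∈ Z := (hZ A B hAB).1 h
    simp only [fZ, h, h', if_true]
    rw [ha1, ha1, ← hA, ← hB]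
    exact ⟨rfl, rfl⟩
  · have h' : B ∉ Z := fun hb => h ((hZ A B hAB).2 hb)
    simp only [fZ, h, h', if_false]
    rw [ha0, ha0]
    exact ⟨rfl, rfl⟩

lemma fZ_ele (Z : Set (Set ℕ)) (X : Set ℕ) : ELe (fZ Z X) X := by
  classical
  by_cases h : X ∈ Z
  · simp only [fZ, h, if_true]; exact sh_ele X
  · simp only [fZ, h, if_false]; exact empty_ele X

end Pool.Agent.H715R3.EScott
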