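import Pool.Agent.H715R3.EScott3

set_option autoImplicit false

namespace Pool.Agent.H715R3.EScott

open Cardinal

/-- `f` is not constant (up to `≡_e`) on any upper cone. -/
def NonConst (f : UI) : Prop :=
  ∀ A C : Set ℕ, ∃ X : Set ℕ, ELe A X ∧ ¬ (ELe (f.1 X) C ∧ ELe C (f.1 X))

/-- The complement in the Scott domain. -/
def wcompl (S : WSub) : WSub := (Sᶜ : Set (Set ℕ))

theorem noEmbed :
    ¬ ∃ φ : {f : UI // NonConst f ∧ ∀ X : Set ℕ, ELe (f.1 X) X} → WSub,
      (∀ f g, f.1 ≤ g.1 → WLe (φ f) (φ g) ∨ WLe (φ f) (wcompl (φ g))) ∧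
      (∀ f g, φ f = φ g → f.1 ≤ g.1) := by
  classical
  rintro ⟨φ, hmono, hinj⟩
  obtain ⟨K, hK⟩ := exists_not_ce
  -- index set
  let I : Type := (Set ℕ ⊕ Bool) × Set ℕ
  have hI : #I = 𝔠 := by
    have : #I = (#(Set ℕ) + #Bool) * #(Set ℕ) := by simp [I]
    rw [this, Cardinal.mk_set_nat]
    simp
  obtain ⟨r, htri, P, hP1, hP2⟩ := exists_choice (I := I)
    (C := fun i => {X : Set ℕ | ELe i.2 X ∧ ELe K X}) EEq (by
      intro i S hS
      rw [hI] at hS
      obtain ⟨X, hX, hX'⟩ := avoid (join i.2 K) S hS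
      exact ⟨X, ⟨(ele_join_left _ _).trans hX, (ele_join_right _ _).trans hX⟩, hX'⟩)
  have hPne : ∀ i j : I, EEq (P i) (P j) → i = j := by
    intro i j hij
    by_contra hne
    rcases htri i j hne with h | h
    · exact hP2 j i h hij.symm
    · exact hP2 i j h hij
  -- the invariant set attached to W
  let Z : Set (Set ℕ) → Set (Set ℕ) := fun W =>
    {X | ∃ s : Set ℕ ⊕ Bool, ∃ A : Set ℕ,
      ((∃ w ∈ W, s = Sum.inl w) ∨ s = Sum.inr true) ∧ EEq X (P (s, A))}
  have hZ : ∀ W, ∀ A B, EEq A B → (A ∈ Z W ↔ B ∈ Z W) := by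
    intro W A B hAB
    constructor
    · rintro ⟨s, C, hs, h⟩; exact ⟨s, C, hs, hAB.symm.trans h⟩
    · rintro ⟨s, C, hs, h⟩; exact ⟨s, C, hs, hAB.trans h⟩
  let F : Set (Set ℕ) → UI := fun W => ⟨fZ (Z W), fZ_uinv (hZ W)⟩
  have hmem : ∀ W s A, P (s, A) ∈ Z W ↔ ((∃ w ∈ W, s = Sum.inl w) ∨ s = Sum.inr true) := by
    intro W s A
    constructor
    · rintro ⟨s', A', hs', h⟩
      have := hPne _ _ h
      have e : s = s' := congrArg Prod.fst this
      rw [e]; exact hs'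
    · intro hs
      exact ⟨s, A, hs, ELe.refl _, ELe.refl _⟩
  have hval1 : ∀ W X, X ∈ Z W → (F W).1 X = sh X := by
    intro W X h; simp only [F, fZ, h, if_true]
  have hval0 : ∀ W X, X ∉ Z W → (F W).1 X = ∅ := by
    intro W X h; simp only [F, fZ, h, if_false]
  have hKP : ∀ i, ELe K (P i) := fun i => (hP1 i).2
  have hnc : ∀ W, NonConst (F W) := by
    intro W A C
    by_contra hcon
    push Not at hcon
    have h1 := hcon (P (Sum.inr true, A)) (hP1 (Sum.inr true, A)).1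
    have h2 := hcon (P (Sum.inr false, A)) (hP1 (Sum.inr false, A)).1
    rw [hval1 W _ ((hmem W _ _).2 (Or.inr rfl))] at h1
    have hnot : P (Sum.inr false, A) ∉ Z W := by
      rw [hmem]
      rintro (⟨w, _, h⟩ | h)
      · exact absurd h (by simp)
      · exact absurd h (by simp)
    rw [hval0 W _ hnot] at h2
    exact hK ((hKP _).trans ((ele_sh _).trans (h1.1.trans h2.2)))
  have hbelow : ∀ W X, ELe ((F W).1 X) X := fun W X => fZ_ele _ _
  -- the identity
  let idUI : UI := ⟨id, ⟨id, by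
    intro A B i j h1 h2
    simp only [id, Nat.unpair_pair]
    exact ⟨h1, h2⟩⟩⟩
  have hidnc : NonConst idUI := by
    intro A C
    by_contra hcon
    push Not at hcon
    have h1 := hcon (P (Sum.inr true, A)) (hP1 (Sum.inr true, A)).1
    have h2 := hcon (P (Sum.inr false, A)) (hP1 (Sum.inr false, A)).1
    have : EEq (P (Sum.inr true, A)) (P (Sum.inr false, A)) :=
      ⟨h1.1.trans h2.2, h2.1.trans h1.2⟩
    have e : (Sum.inr true : Set ℕ ⊕ Bool) = Sum.inr false := congrArg Prod.fst (hPne _ _ this)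
    exact absurd (Sum.inr.inj e) (by decide)
  let ID : {f : UI // NonConst f ∧ ∀ X : Set ℕ, ELe (f.1 X) X} :=
    ⟨idUI, hidnc, fun X => ELe.refl X⟩
  let G : Set (Set ℕ) → {f : UI // NonConst f ∧ ∀ X : Set ℕ, ELe (f.1 X) X} :=
    fun W => ⟨F W, hnc W, hbelow W⟩
  have hGid : ∀ W, (G W).1 ≤ ID.1 := fun W => ⟨∅, fun X _ => hbelow W X⟩
  -- injectivity of `W ↦ φ (G W)`
  have hsub : ∀ W W', (G W).1 ≤ (G W').1 → W ⊆ W' := by
    rintro W W' ⟨A, hA⟩ w hw
    by_contra hw'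
    have h := hA (P (Sum.inl w, A)) (hP1 (Sum.inl w, A)).1
    have e1 : (G W).1.1 (P (Sum.inl w, A)) = sh (P (Sum.inl w, A)) :=
      hval1 W _ ((hmem W _ _).2 (Or.inl ⟨w, hw, rfl⟩))
    have e2 : (G W').1.1 (P (Sum.inl w, A)) = ∅ := by
      apply hval0 W'
      rw [hmem]
      rintro (⟨v, hv, h⟩ | h)
      · exact hw' (by rw [Sum.inl.inj h]; exact hv)
      · exact absurd h (by simp)
    rw [e1, e2] at h
    exact hK ((hKP _).trans ((ele_sh _).trans h))
  have hGinj : Function.Injective (fun W => φ (G W)) := by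
    intro W W' h
    exact Set.Subset.antisymm (hsub _ _ (hinj _ _ h)) (hsub _ _ (hinj _ _ h.symm))
  -- each value lies in a small set
  have hval : ∀ W, ∃ q : {h : Set ℕ → Set ℕ // @Continuous _ _ scott scott h} × Bool,
      φ (G W) = q.1.1 ⁻¹' (cond q.2 (φ ID : Set (Set ℕ)) (wcompl (φ ID) : Set (Set ℕ))) := by
    intro W
    rcases hmono _ _ (hGid W) with ⟨h, hc, hh⟩ | ⟨h, hc, hh⟩
    · exact ⟨(⟨h, hc⟩, true), hh⟩
    · exact ⟨(⟨h, hc⟩, false), hh⟩
  choose q hq using hval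
  have hqinj : Function.Injective q := by
    intro W W' h
    apply hGinj
    show φ (G W) = φ (G W')
    rw [hq W, hq W', h]
  have hle := Cardinal.mk_le_of_injective hqinj
  have h1 : #({h : Set ℕ → Set ℕ // @Continuous _ _ scott scott h} × Bool) ≤ 𝔠 := by
    rw [Cardinal.mk_prod]
    simp only [Cardinal.lift_id]
    refine (mul_le_mul' card_scott_cont le_rfl).trans ?_
    simp
  have h2 : #(Set (Set ℕ)) = 2 ^ 𝔠 := by
    rw [Cardinal.mk_set, Cardinal.mk_set_nat]
  rw [h2] at hle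
  exact absurd (hle.trans h1) (not_le.2 (Cardinal.cantor _))

end Pool.Agent.H715R3.EScott
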