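import Mathlib

set_option autoImplicit false

/-!
Recursively presented groups have computably enumerable word problem.
-/

namespace Pool.Agent.H715R3.Medv

open Nat.Partrec

/-- Projection of a computable relation is r.e. -/
lemma rePred_exists {α : Type*} [Primcodable α] {R : α → ℕ → Bool} (hR : Computable₂ R) :
    REPred (fun a => ∃ n, R a n = true) := by
  have hp : Partrec (fun a : α => Nat.rfind ((fun s => R a s : ℕ → Bool) : ℕ →. Bool)) :=
    Partrec.rfind hR.partrec₂
  refine REPred.of_eq hp.dom_re ?_
  intro a
  refine Nat.rfind_dom.trans ?_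
  constructor
  · rintro ⟨s, hs, -⟩
    exact ⟨s, by simpa using hs⟩
  · rintro ⟨s, hs⟩
    exact ⟨s, by simpa using hs, fun _ => trivial⟩

variable {r : ℕ}

/-- Formal inverse of a word. -/
def winv (w : List (Fin r × Bool)) : List (Fin r × Bool) := (w.map fun p => (p.1, !p.2)).reverse

lemma winv_primrec : Primrec (winv (r := r)) := by
  refine Primrec.list_reverse.comp (Primrec.list_map Primrec.id ?_)
  exact ((Primrec.fst.comp Primrec.snd).pair (Primrec.not.comp (Primrec.snd.comp Primrec.snd))).to₂

lemma mk_winv (w : List (Fin r × Bool)) : FreeGroup.mk (winv w) = (FreeGroup.mk w)⁻¹ := by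
  rw [FreeGroup.inv_mk]; rfl

lemma reduce_primrec : Primrec (FreeGroup.reduce (α := Fin r)) := by
  have h : (FreeGroup.reduce (α := Fin r)) = fun L => L.foldr (fun hd1 ih =>
      List.casesOn ih [hd1] fun hd2 tl2 =>
        if hd1.1 = hd2.1 ∧ hd1.2 = not hd2.2 then tl2 else hd1 :: hd2 :: tl2) [] := by
    funext L
    induction L with
    | nil => rfl
    | cons x xs ih =>
      rw [List.foldr_cons, ← ih]
      rfl
  rw [h]
  have hf : Primrec (fun a : List (Fin r × Bool) × ((Fin r × Bool) × List (Fin r × Bool)) =>
      a.2.2) := Primrec.snd.comp Primrec.snd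
  have hg : Primrec (fun a : List (Fin r × Bool) × ((Fin r × Bool) × List (Fin r × Bool)) =>
      [a.2.1]) :=
    Primrec.list_cons.comp (Primrec.fst.comp Primrec.snd) (Primrec.const [])
  have hh : Primrec₂ (fun (a : List (Fin r × Bool) × ((Fin r × Bool) × List (Fin r × Bool)))
      (b : (Fin r × Bool) × List (Fin r × Bool)) =>
      if a.2.1.1 = b.1.1 ∧ a.2.1.2 = (!b.1.2) then b.2 else a.2.1 :: b.1 :: b.2) := by
    refine Primrec.ite ?_ ?_ ?_
    · refine PrimrecPred.and ?_ ?_
      · exact Primrec.eq.comp
          (Primrec.fst.comp (Primrec.fst.comp (Primrec.snd.comp Primrec.fst)))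
          (Primrec.fst.comp (Primrec.fst.comp Primrec.snd))
      · exact Primrec.eq.comp
          (Primrec.snd.comp (Primrec.fst.comp (Primrec.snd.comp Primrec.fst)))
          (Primrec.not.comp (Primrec.snd.comp (Primrec.fst.comp Primrec.snd)))
    · exact Primrec.snd.comp Primrec.snd
    · exact Primrec.list_cons.comp (Primrec.fst.comp (Primrec.snd.comp Primrec.fst))
        (Primrec.list_cons.comp (Primrec.fst.comp Primrec.snd) (Primrec.snd.comp Primrec.snd))
  have hcase := Primrec.list_casesOn hf hg hh
  have hh' : Primrec₂ (fun (_a : List (Fin r × Bool)) (b : (Fin r × Bool) × List (Fin r × Bool)) =>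
      (List.casesOn b.2 [b.1] fun hd2 tl2 =>
        if b.1.1 = hd2.1 ∧ b.1.2 = not hd2.2 then tl2 else b.1 :: hd2 :: tl2 :
          List (Fin r × Bool))) := hcase
  exact Primrec.list_foldr Primrec.id (Primrec.const []) hh'

/-- Value of a derivation: product of conjugates of relators. -/
def dval (rel : ℕ → List (Fin r × Bool)) (D : List (List (Fin r × Bool) × (ℕ × Bool))) :
    List (Fin r × Bool) :=
  D.flatMap (fun d => d.1 ++ ((bif d.2.2 then rel d.2.1 else winv (rel d.2.1)) ++ winv d.1))

lemma mem_normalClosure_iff (rel : ℕ → List (Fin r × Bool)) (g : FreeGroup (Fin r)) :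
    g ∈ Subgroup.normalClosure (Set.range (fun n => FreeGroup.mk (rel n))) ↔
      ∃ D, g = FreeGroup.mk (dval rel D) := by
  constructor
  · intro h
    unfold Subgroup.normalClosure at h
    induction h using Subgroup.closure_induction with
    | mem x hx =>
      obtain ⟨a, ⟨n, rfl⟩, hc⟩ := Group.mem_conjugatesOfSet_iff.1 hx
      obtain ⟨c, hc⟩ := isConj_iff.1 hc
      refine ⟨[(c.toWord, (n, true))], ?_⟩
      rw [← hc]
      simp only [dval, List.flatMap_cons, List.flatMap_nil, List.append_nil, cond_true]
      rw [← FreeGroup.mul_mk, ← FreeGroup.mul_mk, mk_winv, FreeGroup.mk_toWord, mul_assoc]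
    | one => exact ⟨[], by simp [dval, FreeGroup.one_eq_mk]⟩
    | mul x y _ _ hx hy =>
      obtain ⟨D, hD⟩ := hx
      obtain ⟨E, hE⟩ := hy
      refine ⟨D ++ E, ?_⟩
      rw [hD, hE]
      simp only [dval, List.flatMap_append, FreeGroup.mul_mk]
    | inv x hm hx =>
      clear hm
      obtain ⟨D, hD⟩ := hx
      subst hD
      induction D with
      | nil => exact ⟨[], by simp [dval, FreeGroup.inv_mk, FreeGroup.invRev]⟩
      | cons d D ih =>
        obtain ⟨E, hE⟩ := ih
        refine ⟨E ++ [(d.1, (d.2.1, !d.2.2))], ?_⟩
        have e1 : FreeGroup.mk (dval rel (d :: D)) =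
            FreeGroup.mk (d.1 ++ ((bif d.2.2 then rel d.2.1 else winv (rel d.2.1)) ++ winv d.1)) *
              FreeGroup.mk (dval rel D) := by
          simp only [dval, List.flatMap_cons, FreeGroup.mul_mk]
        rw [e1, mul_inv_rev, hE]
        have e2 : FreeGroup.mk (dval rel (E ++ [(d.1, (d.2.1, !d.2.2))])) =
            FreeGroup.mk (dval rel E) * FreeGroup.mk (d.1 ++
              ((bif (!d.2.2) then rel d.2.1 else winv (rel d.2.1)) ++ winv d.1)) := by
          simp only [dval, List.flatMap_append, List.flatMap_cons, List.flatMap_nil,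
            List.append_nil, FreeGroup.mul_mk]
        rw [e2]
        congr 1
        simp only [← FreeGroup.mul_mk, mk_winv, mul_inv_rev, inv_inv, mul_assoc]
        congr 1
        congr 1
        cases d.2.2 <;> simp [mk_winv]
  · rintro ⟨D, rfl⟩
    induction D with
    | nil => simp [dval, ← FreeGroup.one_eq_mk]
    | cons d D ih =>
      have e1 : FreeGroup.mk (dval rel (d :: D)) =
          FreeGroup.mk (d.1 ++ ((bif d.2.2 then rel d.2.1 else winv (rel d.2.1)) ++ winv d.1)) *
            FreeGroup.mk (dval rel D) := by
        simp only [dval, List.flatMap_cons, FreeGroup.mul_mk]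
      rw [e1]
      refine Subgroup.mul_mem _ ?_ ih
      have hn : (Subgroup.normalClosure (Set.range (fun n => FreeGroup.mk (rel n)))).Normal :=
        Subgroup.normalClosure_normal
      have hm : FreeGroup.mk (rel d.2.1) ∈
          Subgroup.normalClosure (Set.range (fun n => FreeGroup.mk (rel n))) :=
        Subgroup.subset_normalClosure ⟨d.2.1, rfl⟩
      rw [← FreeGroup.mul_mk, ← FreeGroup.mul_mk, mk_winv, ← mul_assoc]
      refine hn.conj_mem _ ?_ _
      cases d.2.2
      · simp only [cond_false, mk_winv]; exact Subgroup.inv_mem _ hm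
      · simpa using hm

/-- The word problem of a recursively presented group is r.e. -/
theorem wordProblem_re (rel : ℕ → List (Fin r × Bool)) (hrel : Primrec rel) :
    REPred (fun w : List (Fin r × Bool) => FreeGroup.mk w ∈
      Subgroup.normalClosure (Set.range (fun n => FreeGroup.mk (rel n)))) := by
  have hdval : Primrec (dval rel) := by
    refine Primrec.list_flatMap Primrec.id ?_
    have d : Primrec (fun p : List (List (Fin r × Bool) × (ℕ × Bool)) ×
        (List (Fin r × Bool) × (ℕ × Bool)) => p.2) := Primrec.snd
    have h1 := Primrec.fst.comp d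
    have h2 := hrel.comp (Primrec.fst.comp (Primrec.snd.comp d))
    have h3 := Primrec.snd.comp (Primrec.snd.comp d)
    exact Primrec.list_append.comp h1 (Primrec.list_append.comp
      (Primrec.cond h3 h2 (winv_primrec.comp h2)) (winv_primrec.comp h1))
  let R : List (Fin r × Bool) → ℕ → Bool := fun w n =>
    ((Encodable.decode n : Option (List (List (Fin r × Bool) × (ℕ × Bool)))).map
      (fun D => decide (FreeGroup.reduce w = FreeGroup.reduce (dval rel D)))).getD false
  have hR : Primrec₂ R := by
    refine Primrec.option_getD.comp (Primrec.option_map (Primrec.decode.comp Primrec.snd) ?_)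
      (Primrec.const false)
    have : PrimrecPred (fun p : (List (Fin r × Bool) × ℕ) ×
        List (List (Fin r × Bool) × (ℕ × Bool)) =>
        FreeGroup.reduce p.1.1 = FreeGroup.reduce (dval rel p.2)) :=
      Primrec.eq.comp (reduce_primrec.comp (Primrec.fst.comp Primrec.fst))
        (reduce_primrec.comp (hdval.comp Primrec.snd))
    exact (this.decide).to₂
  refine REPred.of_eq (rePred_exists hR.to_comp) ?_
  intro w
  rw [mem_normalClosure_iff]
  constructor
  · rintro ⟨n, hn⟩
    simp only [R] at hn
    cases hD : (Encodable.decode n : Option (List (List (Fin r × Bool) × (ℕ × Bool)))) with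
    | none => rw [hD] at hn; simp at hn
    | some D =>
      rw [hD] at hn
      simp only [Option.map_some, Option.getD_some, decide_eq_true_eq] at hn
      exact ⟨D, FreeGroup.reduce.exact hn⟩
  · rintro ⟨D, hD⟩
    refine ⟨Encodable.encode D, ?_⟩
    simp only [R, Encodable.encodek, Option.map_some, Option.getD_some, decide_eq_true_eq]
    exact FreeGroup.reduce.sound hD

end Pool.Agent.H715R3.Medv
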