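import Pool.Agent.H715R3.MedvA

set_option autoImplicit false

/-!
A finitely generated recursively presented group in which every generator `s` has a computable
sequence of words `U s n` with `U s n = 1` for `n ∈ A` and `U s n = s` for `n ∈ B`.
-/

namespace Pool.Agent.H715R3.Medv

open Nat.Partrec

/-! ### A representation by permutations -/

/-- The space the operators act on. -/
abbrev V : Type := List ℕ → ZMod 2

lemma v_add_self (a : V) : a + a = 0 := by
  funext l
  exact CharTwo.add_self_eq_zero (a l)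

/-- `(X f)(l) = f (0 :: l)`. -/
def opX : V →+ V where
  toFun f := fun l => f (0 :: l)
  map_zero' := rfl
  map_add' _ _ := rfl

/-- `(Y f)(k :: l) = f ((k+1) :: l)`, `(Y f)([]) = 0`. -/
def opY : V →+ V where
  toFun f := fun l => match l with
    | [] => 0
    | k :: l => f ((k + 1) :: l)
  map_zero' := by funext l; cases l <;> rfl
  map_add' f g := by funext l; cases l <;> simp

/-- `(Z f)(k :: l) = f l` if `χ k`, and `0` otherwise. -/
def opZ (χ : ℕ → Bool) : V →+ V where
  toFun f := fun l => match l with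
    | [] => 0
    | k :: l => if χ k then f l else 0
  map_zero' := by funext l; cases l <;> simp
  map_add' f g := by
    funext l; cases l with
    | nil => simp
    | cons k l => by_cases h : χ k <;> simp [h]

/-- Powers of `Y`. -/
def opYp (n : ℕ) (f : V →+ V) : V →+ V := match n with
  | 0 => f
  | n + 1 => opY.comp (opYp n f)

lemma opYp_apply (n : ℕ) (f : V →+ V) (v : V) (k : ℕ) (l : List ℕ) :
    opYp n f v (k :: l) = f v ((k + n) :: l) := by
  induction n generalizing k with
  | zero => rfl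
  | succ n ih =>
    show opYp n f v ((k + 1) :: l) = _
    rw [ih]
    have : k + 1 + n = k + (n + 1) := by omega
    rw [this]

lemma xyz (χ : ℕ → Bool) (n : ℕ) :
    opX.comp (opYp n (opZ χ)) = if χ n then AddMonoidHom.id V else 0 := by
  ext f l
  show opYp n (opZ χ) f (0 :: l) = _
  rw [opYp_apply]
  show (if χ (0 + n) then f l else 0) = _
  rw [Nat.zero_add]
  by_cases h : χ n <;> simp [h]

/-- Elementary transvection on `V^3`. -/
def tv (i j : Fin 3) (f : V →+ V) (v : Fin 3 → V) : Fin 3 → V :=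
  fun l => if l = i then v i + f (v j) else v l

lemma tv_invol {i j : Fin 3} (h : i ≠ j) (f : V →+ V) : Function.Involutive (tv i j f) := by
  intro v
  funext l
  by_cases hl : l = i
  · subst hl
    simp only [tv, if_true, h.symm, if_false]
    rw [add_assoc, v_add_self, add_zero]
  · simp only [tv, hl, if_false]

/-- The corresponding permutation. -/
def pv (i j : Fin 3) (f : V →+ V) : Equiv.Perm (Fin 3 → V) :=
  if h : i ≠ j then (tv_invol h f).toPerm else 1

lemma pv_apply {i j : Fin 3} (h : i ≠ j) (f : V →+ V) (v : Fin 3 → V) :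
    pv i j f v = tv i j f v := by
  simp only [pv, h, ne_eq, not_false_eq_true, dif_pos]
  rfl

lemma pv_comm {i k j : Fin 3} (h1 : i ≠ k) (h2 : k ≠ j) (h3 : i ≠ j) (f g : V →+ V) :
    pv i k f * (pv k j g * (pv i k f * pv k j g)) = pv i j (f.comp g) := by
  apply Equiv.ext
  intro v
  simp only [Equiv.Perm.mul_apply, pv_apply h1, pv_apply h2, pv_apply h3]
  funext l
  by_cases hl : l = i
  · subst hl
    simp only [tv, if_true, h1, h1.symm, h2, h2.symm, h3, h3.symm, if_false, AddMonoidHom.comp_apply,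
      map_add]
    have : v l + (f (v k) + f (g (v j))) + (f (v k) + f (g (v j)) + f (g (v j))) =
        v l + f (g (v j)) + (f (v k) + f (v k)) + (f (g (v j)) + f (g (v j))) := by abel
    rw [this, v_add_self, v_add_self]; simp
  · by_cases hk : l = k
    · subst hk
      simp only [tv, if_true, h1, h1.symm, h2, h2.symm, h3, h3.symm, if_false, hl]
      rw [add_assoc, v_add_self, add_zero]
    · simp only [tv, hl, hk, if_false]

lemma pv_zero (i j : Fin 3) : pv i j 0 = 1 := by
  by_cases h : i ≠ j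
  · apply Equiv.ext
    intro v
    rw [pv_apply h]
    funext l
    by_cases hl : l = i
    · subst hl; simp [tv]
    · simp [tv, hl]
  · simp [pv, h]

lemma pv_self (i : Fin 3) (f : V →+ V) : pv i i f = 1 := by simp [pv]

/-! ### The words -/

/-- Words on 36 letters. -/
abbrev Wd : Type := List (Fin 36 × Bool)

/-- The generator `e_{ij}(l)`. -/
def gi (i j : Fin 3) (l : Fin 4) : Fin 36 := ⟨12 * i.val + 4 * j.val + l.val, by omega⟩

/-- Positive commutator word (for involutions). -/
def cm (u v : Wd) : Wd := u ++ (v ++ (u ++ v))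

/-- Third index. -/
def k3 (i j : Fin 3) : Fin 3 := -(i + j)

/-- Pairs of words for `e_{ij}(y^n l)` and `e_{kj}(y^n l)`. -/
def Fp (l0 : Fin 4) (i j : Fin 3) (n : ℕ) : Wd × Wd :=
  Nat.rec ([(gi i j l0, true)], [(gi (k3 i j) j l0, true)])
    (fun _ p => (cm [(gi i (k3 i j) 2, true)] p.2, cm [(gi (k3 i j) i 2, true)] p.1)) n

lemma Fp_zero (l0 : Fin 4) (i j : Fin 3) :
    Fp l0 i j 0 = ([(gi i j l0, true)], [(gi (k3 i j) j l0, true)]) := rfl

lemma Fp_succ (l0 : Fin 4) (i j : Fin 3) (n : ℕ) :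
    Fp l0 i j (n + 1) = (cm [(gi i (k3 i j) 2, true)] (Fp l0 i j n).2,
      cm [(gi (k3 i j) i 2, true)] (Fp l0 i j n).1) := rfl

/-- The operators attached to the letters `1, x, y, z`. -/
def op (χ : ℕ → Bool) (l : Fin 4) : V →+ V :=
  if l = 0 then AddMonoidHom.id V else if l = 1 then opX else if l = 2 then opY else opZ χ

/-- Row index, column index, letter of a generator. -/
def gI (g : Fin 36) : Fin 3 := ⟨g.val / 12, by omega⟩
/-- Column index. -/
def gJ (g : Fin 36) : Fin 3 := ⟨(g.val / 4) % 3, by omega⟩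
/-- Letter. -/
def gL (g : Fin 36) : Fin 4 := ⟨g.val % 4, by omega⟩

lemma gI_gi (i j : Fin 3) (l : Fin 4) : gI (gi i j l) = i := by
  apply Fin.ext; simp only [gI, gi]; omega
lemma gJ_gi (i j : Fin 3) (l : Fin 4) : gJ (gi i j l) = j := by
  apply Fin.ext; simp only [gJ, gi]; omega
lemma gL_gi (i j : Fin 3) (l : Fin 4) : gL (gi i j l) = l := by
  apply Fin.ext; simp only [gL, gi]; omega
lemma gi_eta (g : Fin 36) : gi (gI g) (gJ g) (gL g) = g := by
  apply Fin.ext; simp only [gI, gJ, gL, gi]; omega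

/-- The image of the generators. -/
def rho (χ : ℕ → Bool) (g : Fin 36) : Equiv.Perm (Fin 3 → V) := pv (gI g) (gJ g) (op χ (gL g))

/-- The image of a word. -/
def rw' (χ : ℕ → Bool) (w : Wd) : Equiv.Perm (Fin 3 → V) :=
  FreeGroup.lift (rho χ) (FreeGroup.mk w)

lemma rw_append (χ : ℕ → Bool) (u v : Wd) : rw' χ (u ++ v) = rw' χ u * rw' χ v := by
  simp only [rw', ← FreeGroup.mul_mk, map_mul]

lemma rw_nil (χ : ℕ → Bool) : rw' χ [] = 1 := by
  simp [rw', ← FreeGroup.one_eq_mk]

lemma rw_single (χ : ℕ → Bool) (g : Fin 36) : rw' χ [(g, true)] = rho χ g := by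
  simp [rw']

lemma rw_single_inv (χ : ℕ → Bool) (g : Fin 36) : rw' χ [(g, false)] = (rho χ g)⁻¹ := by
  simp [rw']

lemma rho_gi (χ : ℕ → Bool) (i j : Fin 3) (l : Fin 4) :
    rho χ (gi i j l) = pv i j (op χ l) := by
  simp only [rho, gI_gi, gJ_gi, gL_gi]

lemma rw_cm (χ : ℕ → Bool) (u v : Wd) :
    rw' χ (cm u v) = rw' χ u * (rw' χ v * (rw' χ u * rw' χ v)) := by
  simp only [cm, rw_append]

lemma k3_ne1 {i j : Fin 3} (h : i ≠ j) : i ≠ k3 i j := by
  revert h; revert i j; decide
lemma k3_ne2 {i j : Fin 3} (h : i ≠ j) : k3 i j ≠ j := by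
  revert h; revert i j; decide
lemma k3_k3 (i j : Fin 3) : k3 (k3 i j) i = j := by
  revert i j; decide

lemma rw_Fp (χ : ℕ → Bool) (l0 : Fin 4) {i j : Fin 3} (h : i ≠ j) (n : ℕ) :
    rw' χ (Fp l0 i j n).1 = pv i j (opYp n (op χ l0)) ∧
    rw' χ (Fp l0 i j n).2 = pv (k3 i j) j (opYp n (op χ l0)) := by
  induction n with
  | zero =>
    rw [Fp_zero]
    exact ⟨by rw [rw_single, rho_gi]; rfl, by rw [rw_single, rho_gi]; rfl⟩
  | succ n ih =>
    rw [Fp_succ]
    have hop : op χ 2 = opY := by simp [op]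
    constructor
    · rw [rw_cm, rw_single, rho_gi, ih.2, hop]
      exact pv_comm (k3_ne1 h) (k3_ne2 h) h opY _
    · rw [rw_cm, rw_single, rho_gi, ih.1, hop]
      exact pv_comm (k3_ne1 h).symm h (k3_ne2 h) opY _

/-- The words `U g n`. -/
def U (g : Fin 36) (n : ℕ) : Wd :=
  if gI g = gJ g then [] else
    cm [(gi (gI g) (k3 (gI g) (gJ g)) (gL g), true)]
      (cm [(gi (k3 (gI g) (gJ g)) (gI g) 1, true)] (Fp 3 (gI g) (gJ g) n).1)

lemma rw_U (χ : ℕ → Bool) (g : Fin 36) (n : ℕ) :
    rw' χ (U g n) = if χ n then rho χ g else 1 := by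
  by_cases h : gI g = gJ g
  · have : rho χ g = 1 := by rw [rho, h, pv_self]
    simp [U, h, rw_nil, this]
  · simp only [U, h, if_false]
    have hop1 : op χ 1 = opX := by simp [op]
    have hop3 : op χ 3 = opZ χ := by
      have h0 : (3 : Fin 4) ≠ 0 := by decide
      have h1 : (3 : Fin 4) ≠ 1 := by decide
      have h2 : (3 : Fin 4) ≠ 2 := by decide
      simp only [op, h0, h1, h2, if_false]
    rw [rw_cm, rw_cm, rw_single, rw_single, rho_gi, rho_gi, (rw_Fp χ 3 h n).1, hop1, hop3]
    rw [pv_comm (k3_ne1 h).symm h (k3_ne2 h), xyz]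
    rw [pv_comm (k3_ne1 h) (k3_ne2 h) h]
    by_cases hn : χ n
    · simp only [hn, if_true]
      rw [AddMonoidHom.comp_id]
      rfl
    · simp only [hn]
      have : (op χ (gL g)).comp (0 : V →+ V) = 0 := by
        ext f l; simp
      simp only [Bool.false_eq_true, if_false, this, pv_zero]

/-- The torsion words `T m`, representing `e_{01}(y^m)`. -/
def T (m : ℕ) : Wd := (Fp 0 0 1 m).1

lemma rw_T (χ : ℕ → Bool) (m : ℕ) : rw' χ (T m) = pv 0 1 (opYp m (AddMonoidHom.id V)) :=
  (rw_Fp χ 0 (by decide) m).1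

lemma rw_T_inj (χ : ℕ → Bool) {m n : ℕ} (h : rw' χ (T m) = rw' χ (T n)) : m = n := by
  rw [rw_T, rw_T] at h
  let v : Fin 3 → V := fun l => if l = 1 then (fun t => if t = [m] then 1 else 0) else 0
  have h1 : (pv 0 1 (opYp m (AddMonoidHom.id V))) v 0 [0] =
      (pv 0 1 (opYp n (AddMonoidHom.id V))) v 0 [0] := by rw [h]
  rw [pv_apply (by decide), pv_apply (by decide)] at h1
  simp only [tv, if_true, v, Pi.add_apply] at h1
  rw [opYp_apply, opYp_apply] at h1
  by_contra hne
  have hne' : ¬ n = m := fun e => hne e.symm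
  simp [hne'] at h1

lemma pv_sq {i j : Fin 3} (f : V →+ V) : pv i j f * pv i j f = 1 := by
  by_cases h : i ≠ j
  · apply Equiv.ext
    intro v
    rw [Equiv.Perm.mul_apply, pv_apply h, pv_apply h, tv_invol h]
    rfl
  · simp [pv, h]

lemma pv_mul_comm (f g : V →+ V) : pv 0 1 f * pv 0 1 g = pv 0 1 g * pv 0 1 f := by
  have h : (0 : Fin 3) ≠ 1 := by decide
  apply Equiv.ext
  intro v
  rw [Equiv.Perm.mul_apply, Equiv.Perm.mul_apply, pv_apply h, pv_apply h, pv_apply h, pv_apply h]
  funext l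
  by_cases hl : l = 0
  · subst hl
    simp only [tv, if_true, h.symm, if_false]
    abel
  · simp only [tv, hl, if_false]

end Pool.Agent.H715R3.Medv
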