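import Pool.Agent.H715R3.MedvB

set_option autoImplicit false

/-!
The group.
-/

namespace Pool.Agent.H715R3.Medv

open Nat.Partrec

/-- `n ∈ A` at stage `s`: the `n`-th program on input `n` outputs `0` within `s` steps. -/
def stg (n s : ℕ) : Option ℕ := Code.evaln s (Denumerable.ofNat Code n) n

/-- `A`. -/
def inA (n : ℕ) : Prop := ∃ s, stg n s = some 0
/-- `B`. -/
def inB (n : ℕ) : Prop := ∃ s, stg n s = some 1

lemma disjAB {n : ℕ} (h : inA n) (k : inB n) : False := by
  obtain ⟨s, hs⟩ := h
  obtain ⟨t, ht⟩ := k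
  have h1 := Code.evaln_sound (Option.mem_def.2 hs)
  have h2 := Code.evaln_sound (Option.mem_def.2 ht)
  exact absurd (Part.mem_unique h1 h2) (by decide)

/-- Relators for generator `g`. -/
def relU (g : Fin 36) (q : ℕ) : Wd :=
  if stg q.unpair.1 q.unpair.2 = some 0 then U g q.unpair.1
  else if stg q.unpair.1 q.unpair.2 = some 1 then U g q.unpair.1 ++ [(g, false)] else []

/-- The computable list of relators. -/
def rel (q : ℕ) : Wd :=
  ((List.ofFn (fun g : Fin 36 => relU g q.unpair.2))[q.unpair.1]?).getD
    (if q.unpair.1 = 36 then T q.unpair.2.unpair.1 ++ T q.unpair.2.unpair.1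
      else cm (T q.unpair.2.unpair.1) (T q.unpair.2.unpair.2))

lemma cm_primrec {α : Type*} [Primcodable α] {f g : α → Wd} (hf : Primrec f) (hg : Primrec g) :
    Primrec (fun a => cm (f a) (g a)) :=
  Primrec.list_append.comp hf (Primrec.list_append.comp hg (Primrec.list_append.comp hf hg))

lemma Fp_primrec (l0 : Fin 4) (i j : Fin 3) : Primrec (Fp l0 i j) := by
  have : Primrec₂ (fun (_ : ℕ) (p : Wd × Wd) =>
      (cm [(gi i (k3 i j) 2, true)] p.2, cm [(gi (k3 i j) i 2, true)] p.1)) := by
    refine Primrec.pair ?_ ?_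
    · exact cm_primrec (Primrec.const _) (Primrec.snd.comp Primrec.snd)
    · exact cm_primrec (Primrec.const _) (Primrec.fst.comp Primrec.snd)
  exact Primrec.nat_rec₁ _ this

lemma U_primrec (g : Fin 36) : Primrec (U g) := by
  by_cases h : gI g = gJ g
  · have : U g = fun _ => [] := by funext n; simp [U, h]
    rw [this]; exact Primrec.const _
  · have : U g = fun n => cm [(gi (gI g) (k3 (gI g) (gJ g)) (gL g), true)]
      (cm [(gi (k3 (gI g) (gJ g)) (gI g) 1, true)] (Fp 3 (gI g) (gJ g) n).1) := by
      funext n; simp [U, h]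
    rw [this]
    exact cm_primrec (Primrec.const _) (cm_primrec (Primrec.const _)
      (Primrec.fst.comp (Fp_primrec _ _ _)))

lemma T_primrec : Primrec T := Primrec.fst.comp (Fp_primrec 0 0 1)

lemma stg_primrec : Primrec₂ stg := by
  have := Code.primrec_evaln.comp ((Primrec.snd.pair ((Primrec.ofNat Code).comp Primrec.fst)).pair
    (Primrec.fst : Primrec (fun p : ℕ × ℕ => p.1)))
  exact this

lemma relU_primrec (g : Fin 36) : Primrec (relU g) := by
  have h1 : Primrec (fun q : ℕ => q.unpair.1) := Primrec.fst.comp Primrec.unpair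
  have h2 : Primrec (fun q : ℕ => q.unpair.2) := Primrec.snd.comp Primrec.unpair
  have h3 : Primrec (fun q : ℕ => stg q.unpair.1 q.unpair.2) := stg_primrec.comp h1 h2
  refine Primrec.ite (Primrec.eq.comp h3 (Primrec.const _)) ((U_primrec g).comp h1) ?_
  refine Primrec.ite (Primrec.eq.comp h3 (Primrec.const _)) ?_ (Primrec.const _)
  exact Primrec.list_append.comp ((U_primrec g).comp h1) (Primrec.const _)

lemma rel_primrec : Primrec rel := by
  have h1 : Primrec (fun q : ℕ => q.unpair.1) := Primrec.fst.comp Primrec.unpair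
  have h2 : Primrec (fun q : ℕ => q.unpair.2) := Primrec.snd.comp Primrec.unpair
  refine Primrec.option_getD.comp ?_ ?_
  · exact Primrec.list_getElem?.comp (Primrec.list_ofFn (fun g => (relU_primrec g).comp h2)) h1
  · refine Primrec.ite (Primrec.eq.comp h1 (Primrec.const _)) ?_ ?_
    · exact Primrec.list_append.comp (T_primrec.comp (h1.comp h2)) (T_primrec.comp (h1.comp h2))
    · exact cm_primrec (T_primrec.comp (h1.comp h2)) (T_primrec.comp (h2.comp h2))

/-- The set of relators in the free group. -/
def rels : Set (FreeGroup (Fin 36)) := Set.range (fun n => FreeGroup.mk (rel n))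

/-- The group `G`. -/
abbrev GG : Type := PresentedGroup rels

/-- Its generators. -/
def gens (g : Fin 36) : GG := PresentedGroup.of g

/-- Evaluation of words. -/
def ev (w : Wd) : GG := (w.map fun p => cond p.2 (gens p.1) (gens p.1)⁻¹).prod

lemma ev_eq (w : Wd) : ev w = (QuotientGroup.mk (FreeGroup.mk w) : GG) := by
  have h : ev w = FreeGroup.lift gens (FreeGroup.mk w) := by
    rw [FreeGroup.lift_mk]; rfl
  rw [h]
  have : (FreeGroup.lift gens : FreeGroup (Fin 36) →* GG) = PresentedGroup.mk rels := by
    ext g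
    simp [gens, PresentedGroup.of]
  rw [this]
  rfl

lemma ev_append (u v : Wd) : ev (u ++ v) = ev u * ev v := by
  simp [ev]

lemma ev_single (g : Fin 36) : ev [(g, true)] = gens g := by simp [ev]

lemma ev_rel (n : ℕ) : ev (rel n) = 1 := by
  rw [ev_eq]
  exact (QuotientGroup.eq_one_iff _).2 (Subgroup.subset_normalClosure ⟨n, rfl⟩)

theorem ev_re : REPred (fun w : Wd => ev w = 1) := by
  refine REPred.of_eq (wordProblem_re rel rel_primrec) ?_
  intro w
  rw [ev_eq]
  exact (QuotientGroup.eq_one_iff _).symm

theorem gens_closure : Subgroup.closure (Set.range gens) = ⊤ :=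
  PresentedGroup.closure_range_of rels

lemma rel_U (g : Fin 36) (n s : ℕ) :
    rel (Nat.pair g.val (Nat.pair n s)) = relU g (Nat.pair n s) := by
  simp only [rel, Nat.unpair_pair]
  rw [List.getElem?_ofFn]
  simp

lemma ev_U_A {n : ℕ} (h : inA n) (g : Fin 36) : ev (U g n) = 1 := by
  obtain ⟨s, hs⟩ := h
  have := ev_rel (Nat.pair g.val (Nat.pair n s))
  rw [rel_U] at this
  simp only [relU, Nat.unpair_pair, hs, if_true] at this
  exact this

lemma ev_U_B {n : ℕ} (h : inB n) (g : Fin 36) : ev (U g n) = gens g := by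
  obtain ⟨s, hs⟩ := h
  have := ev_rel (Nat.pair g.val (Nat.pair n s))
  rw [rel_U] at this
  simp only [relU, Nat.unpair_pair, hs] at this
  simp only [Option.some.injEq, one_ne_zero, if_false, if_true, ev_append] at this
  have e : ev [(g, false)] = (gens g)⁻¹ := by simp [ev]
  rw [e] at this
  exact mul_inv_eq_one.1 this

lemma ev_T_sq (m : ℕ) : ev (T m) * ev (T m) = 1 := by
  have := ev_rel (Nat.pair 36 (Nat.pair m 0))
  simp only [rel, Nat.unpair_pair] at this
  rw [List.getElem?_ofFn] at this
  simp only [lt_self_iff_false, dite_false, Option.getD_none, if_true, ev_append] at this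
  exact this

lemma ev_T_comm (m n : ℕ) : ev (T m) * (ev (T n) * (ev (T m) * ev (T n))) = 1 := by
  have := ev_rel (Nat.pair 37 (Nat.pair m n))
  simp only [rel, Nat.unpair_pair] at this
  rw [List.getElem?_ofFn] at this
  have h2 : ev (cm (T m) (T n)) = 1 := by simpa using this
  rwa [cm, ev_append, ev_append, ev_append] at h2

/-- The set `B` as a characteristic function. -/
noncomputable def chi (n : ℕ) : Bool := by
  classical
  exact decide (inB n)

lemma rw_rel (q : ℕ) : rw' chi (rel q) = 1 := by
  classical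
  simp only [rel]
  rw [List.getElem?_ofFn]
  by_cases h : q.unpair.1 < 36
  · simp only [h, dite_true, Option.getD_some, relU]
    set n := q.unpair.2.unpair.1
    set s := q.unpair.2.unpair.2
    by_cases h0 : stg n s = some 0
    · have hB : chi n = false := by
        simp only [chi, decide_eq_false_iff_not]
        exact fun hb => disjAB ⟨s, h0⟩ hb
      simp [h0, rw_U, hB]
    · by_cases h1 : stg n s = some 1
      · have hB : chi n = true := by
          simp only [chi, decide_eq_true_eq]
          exact ⟨s, h1⟩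
        simp [h1, rw_append, rw_U, hB, rw_single_inv]
      · simp [h0, h1, rw_nil]
  · simp only [h, dite_false, Option.getD_none]
    by_cases h36 : q.unpair.1 = 36
    · simp only [h36, if_true, rw_append, rw_T, pv_sq]
    · simp only [h36, if_false, rw_cm, rw_T]
      generalize opYp (Nat.unpair (Nat.unpair q).2).1 (AddMonoidHom.id V) = f
      generalize opYp (Nat.unpair (Nat.unpair q).2).2 (AddMonoidHom.id V) = g
      rw [pv_mul_comm f g, ← mul_assoc (pv 0 1 g) (pv 0 1 g), pv_sq, one_mul, pv_sq]

/-- The representation of `G`. -/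
noncomputable def repG : GG →* Equiv.Perm (Fin 3 → V) :=
  PresentedGroup.toGroup (f := rho chi) (by
    rintro _ ⟨q, rfl⟩
    exact rw_rel q)

lemma repG_ev (w : Wd) : repG (ev w) = rw' chi w := by
  rw [ev_eq]
  rfl

lemma T_inj : Function.Injective (fun m => ev (T m)) := by
  intro m n h
  have : repG (ev (T m)) = repG (ev (T n)) := congrArg _ h
  rw [repG_ev, repG_ev] at this
  exact rw_T_inj _ this

instance : Infinite GG := Infinite.of_injective _ T_inj

/-- `G` is not virtually free. -/
theorem not_virtually_free : ¬ ∃ H : Subgroup GG, H.FiniteIndex ∧ IsFreeGroup H := by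
  rintro ⟨H, hfin, hfree⟩
  have hq : Finite (GG ⧸ H) := Subgroup.finite_quotient_of_finiteIndex
  obtain ⟨m, n, hmn, he⟩ := Finite.exists_ne_map_eq_of_infinite
    (fun m : ℕ => (QuotientGroup.mk (ev (T m)) : GG ⧸ H))
  have hmem : (ev (T m))⁻¹ * ev (T n) ∈ H := QuotientGroup.eq.1 he
  have hinv : (ev (T m))⁻¹ = ev (T m) := inv_eq_of_mul_eq_one_right (ev_T_sq m)
  rw [hinv] at hmem
  have hsq : (⟨ev (T m) * ev (T n), hmem⟩ : H) ^ 2 = 1 := by
    apply Subtype.ext
    simp only [pow_two, Subgroup.coe_mul, Subgroup.coe_one]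
    rw [mul_assoc]
    exact ev_T_comm m n
  have h1 : (⟨ev (T m) * ev (T n), hmem⟩ : H) = 1 := by
    have e := IsFreeGroup.toFreeGroup H
    apply e.injective
    rw [map_one]
    have h2 : (e (⟨ev (T m) * ev (T n), hmem⟩ : H)) ^ 2 = 1 ^ 2 := by
      rw [← map_pow, hsq, map_one, one_pow]
    exact pow_left_injective (two_ne_zero) h2
  have h2 : ev (T m) * ev (T n) = 1 := congrArg Subtype.val h1
  have h3 : ev (T m) = ev (T n) := by
    have := inv_eq_of_mul_eq_one_right h2
    rw [← this, hinv]
  exact hmn (T_inj h3)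

end Pool.Agent.H715R3.Medv
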