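import Mathlib

set_option autoImplicit false

/-!
A `Π⁰₁` class of measure at least `3/4` without computable members, and a majority-vote lemma.
-/

namespace Pool.Agent.H715R3.Medv

open Nat.Partrec

lemma bex {β : Type*} [Primcodable β] {R : ℕ → β → Prop} (hR : PrimrecRel R) {f : β → ℕ}
    (hf : Primrec f) : PrimrecPred (fun b => ∃ x < f b, R x b) := by
  have := hR.exists_mem_list.comp (Primrec.list_range.comp hf) Primrec.id
  refine PrimrecPred.of_eq this ?_
  intro b; simp

lemma ball {β : Type*} [Primcodable β] {R : ℕ → β → Prop} (hR : PrimrecRel R) {f : β → ℕ}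
    (hf : Primrec f) : PrimrecPred (fun b => ∀ x < f b, R x b) := by
  have := hR.forall_mem_list.comp (Primrec.list_range.comp hf) Primrec.id
  refine PrimrecPred.of_eq this ?_
  intro b; simp

/-- Initial segment of length `m` as a list. -/
def pre (x : ℕ → ℕ) (m : ℕ) : List ℕ := List.ofFn fun j : Fin m => x j.val

lemma pre_getElem? (x : ℕ → ℕ) (m i : ℕ) : (pre x m)[i]? = if i < m then some (x i) else none := by
  rw [pre, List.getElem?_ofFn]
  by_cases h : i < m <;> simp [h]

lemma pre_length (x : ℕ → ℕ) (m : ℕ) : (pre x m).length = m := by simp [pre]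

lemma pre_prefix (x : ℕ → ℕ) {m n : ℕ} (h : m ≤ n) : pre x m <+: pre x n := by
  rw [List.prefix_iff_getElem?]
  intro i hi
  rw [pre_length] at hi
  rw [pre_getElem?, if_pos (by omega)]
  simp [pre]

lemma pre_eq_map (x : ℕ → ℕ) (m : ℕ) : pre x m = (List.range m).map x := by
  apply List.ext_getElem?
  intro i
  rw [pre_getElem?]
  by_cases h : i < m <;> simp [h]

lemma prefix_getElem? {l l' : List ℕ} (h : l <+: l') {i v : ℕ} (hv : l[i]? = some v) :
    l'[i]? = some v := by
  obtain ⟨t, rfl⟩ := h
  have hi : i < l.length := by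
    by_contra hcon
    push Not at hcon
    rw [List.getElem?_eq_none hcon] at hv
    exact absurd hv (by simp)
  rw [List.getElem?_append_left hi]
  exact hv

/-- A string is killed if for some `e` its first `e+3` bits are produced by program `e`. -/
def Kill (τ : List ℕ) : Prop :=
  ∃ e < τ.length, e + 3 ≤ τ.length ∧
    ∀ k < e + 3, Code.evaln τ.length (Denumerable.ofNat Code e) k = τ[k]?

lemma Kill_primrec : PrimrecPred Kill := by
  have h1 : PrimrecRel (fun (k : ℕ) (p : ℕ × List ℕ) =>
      Code.evaln p.2.length (Denumerable.ofNat Code p.1) k = p.2[k]?) := by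
    refine Primrec.eq.comp ?_ ?_
    · have := Code.primrec_evaln.comp (((Primrec.list_length.comp
        (Primrec.snd.comp Primrec.snd)).pair ((Primrec.ofNat Code).comp
        (Primrec.fst.comp Primrec.snd))).pair
        (Primrec.fst : Primrec (fun q : ℕ × (ℕ × List ℕ) => q.1)))
      exact this
    · exact Primrec.list_getElem?.comp (Primrec.snd.comp Primrec.snd) Primrec.fst
  have h2 : PrimrecPred (fun (p : ℕ × List ℕ) => ∀ k < p.1 + 3,
      Code.evaln p.2.length (Denumerable.ofNat Code p.1) k = p.2[k]?) :=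
    ball h1 (Primrec.nat_add.comp Primrec.fst (Primrec.const 3))
  have h3 : PrimrecRel (fun (e : ℕ) (τ : List ℕ) => e + 3 ≤ τ.length ∧ ∀ k < e + 3,
      Code.evaln τ.length (Denumerable.ofNat Code e) k = τ[k]?) := by
    refine PrimrecPred.and ?_ h2
    exact Primrec.nat_le.comp (Primrec.nat_add.comp Primrec.fst (Primrec.const 3))
      (Primrec.list_length.comp Primrec.snd)
  exact bex h3 Primrec.list_length

lemma Kill_mono {σ τ : List ℕ} (h : σ <+: τ) (hσ : Kill σ) : Kill τ := by
  obtain ⟨e, he, he3, hk⟩ := hσ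
  have hl := h.length_le
  refine ⟨e, by omega, by omega, fun k hk' => ?_⟩
  have h1 := hk k hk'
  have hkl : k < σ.length := by omega
  rw [List.getElem?_eq_getElem hkl] at h1
  have h2 := Code.evaln_mono hl (Option.mem_def.2 h1)
  rw [Option.mem_def.1 h2]
  symm
  exact prefix_getElem? h (List.getElem?_eq_getElem hkl)

/-- The class. -/
def PP : Set (ℕ → ℕ) := {x | (∀ n, x n ≤ 1) ∧ ∀ m, ¬ Kill (pre x m)}

/-- König's lemma. -/
lemma konig (Φ : List ℕ → Prop) (hm : ∀ σ τ, σ <+: τ → Φ τ → Φ σ)
    (hex : ∀ M, ∃ z : ℕ → ℕ, (∀ n, z n ≤ 1) ∧ Φ (pre z M)) :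
    ∃ z : ℕ → ℕ, (∀ n, z n ≤ 1) ∧ ∀ M, Φ (pre z M) := by
  let t : ℕ → Set (ℕ → Bool) := fun M => {z | Φ (pre (fun i => (z i).toNat) M)}
  have hcl : ∀ M, IsClosed (t M) := by
    intro M
    have hc : Continuous (fun (z : ℕ → Bool) (i : Fin M) => z i.val) := by fun_prop
    have : t M = (fun (z : ℕ → Bool) (i : Fin M) => z i.val) ⁻¹'
        {w | Φ (List.ofFn fun j => (w j).toNat)} := rfl
    rw [this]
    exact (isClosed_discrete _).preimage hc
  have hne : ∀ M, (t M).Nonempty := by
    intro M
    obtain ⟨z, hz, hΦ⟩ := hex M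
    refine ⟨fun i => decide (z i = 1), ?_⟩
    show Φ (pre (fun i => (decide (z i = 1)).toNat) M)
    have : (fun i => (decide (z i = 1)).toNat) = z := by
      funext i
      have := hz i
      by_cases h1 : z i = 1
      · simp [h1]
      · have : z i = 0 := by omega
        simp [this]
    rw [this]; exact hΦ
  have hanti : ∀ M, t (M + 1) ⊆ t M := fun M z hz => hm _ _ (pre_prefix _ (Nat.le_succ M)) hz
  obtain ⟨z, hz⟩ := IsCompact.nonempty_iInter_of_sequence_nonempty_isCompact_isClosed t hanti hne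
    ((hcl 0).isCompact) hcl
  exact ⟨fun i => (z i).toNat, fun n => Bool.toNat_le _, fun M => Set.mem_iInter.1 hz M⟩

/-- The `i`-th binary digit of `j`. -/
def bt (j i : ℕ) : ℕ := (j / 2 ^ i) % 2

lemma bt_le (j i : ℕ) : bt j i ≤ 1 := by unfold bt; omega

lemma bt_eq (j i : ℕ) : bt j i = (j.testBit i).toNat := by
  rw [bt, Nat.testBit_eq_decide_div_mod_eq]
  have : (j / 2 ^ i) % 2 < 2 := Nat.mod_lt _ (by norm_num)
  by_cases h : (j / 2 ^ i) % 2 = 1
  · simp [h]
  · have : (j / 2 ^ i) % 2 = 0 := by omega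
    simp [this]

open Finset in
/-- The number of killed strings of length `L`. -/
lemma kill_count (L : ℕ) [DecidablePred Kill] :
    4 * #{j ∈ range (2 ^ L) | Kill (pre (bt j) L)} ≤ 2 ^ L := by
  classical
  rcases Nat.lt_or_ge L 2 with hL | hL
  · have : #{j ∈ range (2 ^ L) | Kill (pre (bt j) L)} = 0 := by
      rw [card_eq_zero, filter_eq_empty_iff]
      rintro j _ ⟨e, he, he3, -⟩
      rw [pre_length] at he3
      omega
    rw [this]; simp
  · let K : ℕ → Finset ℕ := fun e => {j ∈ range (2 ^ L) | ∀ k < e + 3,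
      Code.evaln L (Denumerable.ofNat Code e) k = some (bt j k)}
    have hsub : {j ∈ range (2 ^ L) | Kill (pre (bt j) L)} ⊆ (range (L - 2)).biUnion K := by
      intro j hj
      rw [mem_filter] at hj
      obtain ⟨hj, e, he, he3, hk⟩ := hj
      rw [pre_length] at he he3 hk
      rw [mem_biUnion]
      refine ⟨e, mem_range.2 (by omega), ?_⟩
      rw [mem_filter]
      refine ⟨hj, fun k hk' => ?_⟩
      rw [hk k hk', pre_getElem?, if_pos (by omega)]
    have hK : ∀ e ∈ range (L - 2), #(K e) ≤ 2 ^ (L - 2 - 1 - e) := by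
      intro e he
      rw [mem_range] at he
      have hinj : Set.InjOn (fun j => j / 2 ^ (e + 3)) (K e : Set ℕ) := by
        intro j hj j' hj' hjj
        simp only [K, coe_filter, Set.mem_ofPred_eq] at hj hj'
        have hmod : j % 2 ^ (e + 3) = j' % 2 ^ (e + 3) := by
          apply Nat.eq_of_testBit_eq
          intro i
          rw [Nat.testBit_mod_two_pow, Nat.testBit_mod_two_pow]
          by_cases hi : i < e + 3
          · have h1 := (hj.2 i hi).symm.trans (hj'.2 i hi)
            have h2 : bt j i = bt j' i := Option.some.inj h1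
            rw [bt_eq, bt_eq] at h2
            have : j.testBit i = j'.testBit i := by
              revert h2
              cases j.testBit i <;> cases j'.testBit i <;> simp
            rw [this]
          · simp [hi]
        have hjj' : j / 2 ^ (e + 3) = j' / 2 ^ (e + 3) := hjj
        rw [← Nat.div_add_mod j (2 ^ (e + 3)), ← Nat.div_add_mod j' (2 ^ (e + 3)), hmod, hjj']
      have hmaps : Set.MapsTo (fun j => j / 2 ^ (e + 3)) (K e : Set ℕ)
          (range (2 ^ (L - 2 - 1 - e)) : Set ℕ) := by
        intro j hj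
        simp only [K, coe_filter, Set.mem_ofPred_eq, mem_range] at hj
        simp only [coe_range, Set.mem_Iio]
        rw [Nat.div_lt_iff_lt_mul (by positivity), ← pow_add]
        have : L - 2 - 1 - e + (e + 3) = L := by omega
        rw [this]; exact hj.1
      have := card_le_card_of_injOn _ hmaps hinj
      rwa [card_range] at this
    have hsum : ∀ N : ℕ, ∑ i ∈ range N, 2 ^ i + 1 = 2 ^ N := by
      intro N
      induction N with
      | zero => simp
      | succ N ih => rw [sum_range_succ, pow_succ]; omega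
    calc 4 * #{j ∈ range (2 ^ L) | Kill (pre (bt j) L)}
        ≤ 4 * ∑ e ∈ range (L - 2), 2 ^ (L - 2 - 1 - e) := by
          gcongr
          exact (card_le_card hsub).trans (card_biUnion_le.trans (sum_le_sum hK))
      _ = 4 * ∑ i ∈ range (L - 2), 2 ^ i := by rw [sum_range_reflect (fun i => 2 ^ i) (L - 2)]
      _ ≤ 4 * 2 ^ (L - 2) := by
          have := hsum (L - 2)
          omega
      _ = 2 ^ L := by
          have : 2 ^ L = 2 ^ (L - 2 + 2) := by congr 1; omega
          rw [this, pow_add]; ring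

open Finset in
/-- A set of strings of length `L` of relative size more than `1/4` contains a string with an
extension in the class. -/
lemma exists_ext (L : ℕ) (S : Finset ℕ) (hS : S ⊆ range (2 ^ L)) (hc : 2 ^ L < 4 * #S) :
    ∃ z ∈ PP, ∃ j ∈ S, pre z L = pre (bt j) L := by
  classical
  let Φ : List ℕ → Prop := fun τ => ¬ Kill τ ∧ ∃ j ∈ S, ∀ i < L, ∀ v, τ[i]? = some v → v = bt j i
  have hm : ∀ σ τ, σ <+: τ → Φ τ → Φ σ := by
    rintro σ τ h ⟨h1, j, hj, h2⟩
    exact ⟨fun hk => h1 (Kill_mono h hk), j, hj, fun i hi v hv => h2 i hi v (prefix_getElem? h hv)⟩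
  have hex : ∀ M, ∃ z : ℕ → ℕ, (∀ n, z n ≤ 1) ∧ Φ (pre z M) := by
    have key : ∀ M, L ≤ M → ∃ z : ℕ → ℕ, (∀ n, z n ≤ 1) ∧ Φ (pre z M) := by
      intro M hLM
      by_contra hcon
      push Not at hcon
      -- all extensions are killed
      have hall : ∀ j ∈ S, ∀ t, Kill (pre (bt (j + 2 ^ L * t)) M) := by
        intro j hj t
        by_contra hk
        apply hcon (bt (j + 2 ^ L * t)) (fun n => bt_le _ _)
        refine ⟨hk, j, hj, fun i hi v hv => ?_⟩
        rw [pre_getElem?, if_pos (by omega)] at hv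
        rw [← Option.some.inj hv, bt_eq, bt_eq]
        congr 1
        have hjlt : j < 2 ^ L := mem_range.1 (hS hj)
        have : j = (j + 2 ^ L * t) % 2 ^ L := by
          rw [Nat.add_mul_mod_self_left, Nat.mod_eq_of_lt hjlt]
        conv_rhs => rw [this]
        rw [Nat.testBit_mod_two_pow]
        simp [hi]
      have hsub : (S ×ˢ range (2 ^ (M - L))).image (fun p => p.1 + 2 ^ L * p.2) ⊆
          {j ∈ range (2 ^ M) | Kill (pre (bt j) M)} := by
        intro x hx
        rw [mem_image] at hx
        obtain ⟨⟨j, t⟩, hp, rfl⟩ := hx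
        rw [mem_product] at hp
        have hjlt : j < 2 ^ L := mem_range.1 (hS hp.1)
        have htlt : t < 2 ^ (M - L) := mem_range.1 hp.2
        rw [mem_filter]
        refine ⟨?_, hall j hp.1 t⟩
        rw [mem_range]
        have hpow : 2 ^ M = 2 ^ L * 2 ^ (M - L) := by
          rw [← pow_add]; congr 1; omega
        rw [hpow]
        calc j + 2 ^ L * t < 2 ^ L + 2 ^ L * t := by omega
          _ = 2 ^ L * (t + 1) := by ring
          _ ≤ 2 ^ L * 2 ^ (M - L) := by gcongr; omega
      have hinj : Set.InjOn (fun p : ℕ × ℕ => p.1 + 2 ^ L * p.2)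
          ((S ×ˢ range (2 ^ (M - L)) : Finset (ℕ × ℕ)) : Set (ℕ × ℕ)) := by
        rintro ⟨j, t⟩ hp ⟨j', t'⟩ hp' h
        simp only [coe_product, Set.mem_prod, mem_coe] at hp hp'
        have hj : j < 2 ^ L := mem_range.1 (hS hp.1)
        have hj' : j' < 2 ^ L := mem_range.1 (hS hp'.1)
        have h' : j + 2 ^ L * t = j' + 2 ^ L * t' := h
        have e1 : j = j' := by
          have := congrArg (· % 2 ^ L) h'
          simp only [Nat.add_mul_mod_self_left] at this
          rwa [Nat.mod_eq_of_lt hj, Nat.mod_eq_of_lt hj'] at this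
        subst e1
        have e2 : 2 ^ L * t = 2 ^ L * t' := by omega
        have e3 : t = t' := Nat.eq_of_mul_eq_mul_left (by positivity) e2
        rw [e3]
      have hcard := card_le_card hsub
      rw [card_image_of_injOn hinj, card_product, card_range] at hcard
      have hk := kill_count M
      have hpow : 2 ^ M = 2 ^ L * 2 ^ (M - L) := by
        rw [← pow_add]; congr 1; omega
      have : 4 * (#S * 2 ^ (M - L)) ≤ 2 ^ L * 2 ^ (M - L) := by
        rw [← hpow]; exact (Nat.mul_le_mul_left 4 hcard).trans hk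
      have h3 : 4 * #S ≤ 2 ^ L := by
        have hpos : 0 < 2 ^ (M - L) := by positivity
        rw [← mul_assoc] at this
        exact Nat.le_of_mul_le_mul_right this hpos
      omega
    intro M
    obtain ⟨z, hz, hΦ⟩ := key (max L M) (le_max_left _ _)
    exact ⟨z, hz, hm _ _ (pre_prefix z (le_max_right _ _)) hΦ⟩
  obtain ⟨z, hz, hΦ⟩ := konig Φ hm hex
  obtain ⟨_, j, hj, hji⟩ := hΦ L
  refine ⟨z, ⟨hz, fun m => (hΦ m).1⟩, j, hj, ?_⟩
  apply List.ext_getElem?
  intro i
  rw [pre_getElem?, pre_getElem?]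
  by_cases hi : i < L
  · simp only [hi, if_true]
    have := hji i hi (z i) (by rw [pre_getElem?, if_pos hi])
    rw [this]
  · simp [hi]

lemma PP_nonempty : PP.Nonempty := by
  obtain ⟨z, hz, -⟩ := exists_ext 0 {0} (by simp) (by simp)
  exact ⟨z, hz⟩

open Finset in
/-- Majority lemma. -/
lemma exists_majority (q : Bool → List ℕ → Bool)
    (hq : ∀ b σ τ, σ <+: τ → q b σ = true → q b τ = true)
    (hex : ∀ z ∈ PP, ∃ m b, q b (pre z m) = true) :
    ∃ L b, 2 ^ L < 4 * #{j ∈ range (2 ^ L) | q b (pre (bt j) L) = true} := by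
  classical
  have h1 : ∃ L, ∀ z : ℕ → ℕ, (∀ n, z n ≤ 1) → ¬ Kill (pre z L) → ∃ b, q b (pre z L) = true := by
    by_contra hcon
    push Not at hcon
    obtain ⟨z, hz, hΦ⟩ := konig (fun τ => ¬ Kill τ ∧ ∀ b, q b τ ≠ true)
      (by
        rintro σ τ h ⟨h1, h2⟩
        exact ⟨fun hk => h1 (Kill_mono h hk), fun b hb => h2 b (hq b _ _ h hb)⟩)
      (by
        intro M
        obtain ⟨z, hz, hk, hb⟩ := hcon M
        exact ⟨z, hz, hk, fun b => hb b⟩)
    obtain ⟨m, b, hb⟩ := hex z ⟨hz, fun m => (hΦ m).1⟩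
    exact (hΦ m).2 b hb
  obtain ⟨L, hL⟩ := h1
  by_contra hcon
  push Not at hcon
  have c1 := hcon L true
  have c2 := hcon L false
  have c3 := kill_count L
  have hcover : range (2 ^ L) ⊆ {j ∈ range (2 ^ L) | Kill (pre (bt j) L)} ∪
      ({j ∈ range (2 ^ L) | q true (pre (bt j) L) = true} ∪
       {j ∈ range (2 ^ L) | q false (pre (bt j) L) = true}) := by
    intro j hj
    rw [mem_union, mem_union, mem_filter, mem_filter, mem_filter]
    by_cases hk : Kill (pre (bt j) L)
    · exact Or.inl ⟨hj, hk⟩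
    · obtain ⟨b, hb⟩ := hL (bt j) (bt_le j) hk
      cases b
      · exact Or.inr (Or.inr ⟨hj, hb⟩)
      · exact Or.inr (Or.inl ⟨hj, hb⟩)
  have hcc := card_le_card hcover
  rw [card_range] at hcc
  have hcc2 := hcc.trans ((card_union_le _ _).trans (Nat.add_le_add_left (card_union_le _ _) _))
  have hpos : 0 < 2 ^ L := by positivity
  omega

/-- The class has no computable member. -/
lemma PP_not_computable {z : ℕ → ℕ} (hz : z ∈ PP) : ¬ Computable z := by
  intro hc
  obtain ⟨c, hcode⟩ := Code.exists_code.1 (Partrec.nat_iff.1 hc.partrec)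
  have h1 : ∀ k, ∃ s, Code.evaln s c k = some (z k) := by
    intro k
    have : z k ∈ Code.eval c k := by
      rw [hcode]; simp
    obtain ⟨s, hs⟩ := Code.evaln_complete.1 this
    exact ⟨s, Option.mem_def.1 hs⟩
  choose s hs using h1
  set e := Encodable.encode c with he
  have hce : Denumerable.ofNat Code e = c := Denumerable.ofNat_encode c
  let M := max (e + 3) ((Finset.range (e + 3)).sup s)
  apply hz.2 M
  refine ⟨e, ?_, ?_, fun k hk => ?_⟩
  · rw [pre_length]
    exact lt_of_lt_of_le (by omega) (le_max_left (e + 3) _)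
  · rw [pre_length]; exact le_max_left _ _
  · rw [pre_length, hce, pre_getElem?, if_pos (lt_of_lt_of_le hk (le_max_left _ _))]
    have h1 : s k ≤ M := le_trans (Finset.le_sup (Finset.mem_range.2 hk)) (le_max_right _ _)
    exact Option.mem_def.1 (Code.evaln_mono h1 (Option.mem_def.2 (hs k)))

end Pool.Agent.H715R3.Medv
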