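import Pool.Agent.H715R3.MedvC
import Pool.Agent.H715R3.MedvD

set_option autoImplicit false

namespace Pool.Agent.H715R3.Medv

open Nat.Partrec Encodable

lemma const_of_gens {α : Type*} (x : GG → α) (h : ∀ g s, x g = x (g * gens s)) (g : GG) :
    x g = x 1 := by
  have key : ∀ a : GG, a ∈ Subgroup.closure (Set.range gens) → ∀ g, x (g * a) = x g := by
    intro a ha
    induction ha using Subgroup.closure_induction with
    | mem a ha =>
      obtain ⟨s, rfl⟩ := ha
      intro g; exact (h g s).symm
    | one => intro g; rw [mul_one]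
    | mul a b _ _ iha ihb => intro g; rw [← mul_assoc, ihb, iha]
    | inv a _ iha =>
      intro g
      have := iha (g * a⁻¹)
      rw [inv_mul_cancel_right] at this
      exact this.symm
  have := key g (by rw [gens_closure]; trivial) 1
  rwa [one_mul] at this

/-- Two-variable version of `U`. -/
lemma U_primrec₂ : Primrec₂ U := by
  have h : Primrec (fun p : Fin 36 × ℕ => ((List.ofFn (fun g : Fin 36 => U g p.2))[p.1.val]?).getD []) := by
    refine Primrec.option_getD.comp ?_ (Primrec.const [])
    exact Primrec.list_getElem?.comp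
      (Primrec.list_ofFn (fun g => (U_primrec g).comp Primrec.snd)) (Primrec.fin_val.comp Primrec.fst)
  refine Primrec.of_eq h ?_
  rintro ⟨g, n⟩
  show ((List.ofFn (fun g : Fin 36 => U g n))[g.val]?).getD [] = U g n
  rw [List.getElem?_ofFn]
  simp only [Fin.is_lt, dite_true, Fin.eta, Option.getD_some]

/-- The basic check. -/
def aux (F : List ℕ) (n : ℕ) (b : Bool) (t : ℕ) : Bool :=
  ((decode t : Option (Wd × Fin 36)).map (fun p =>
    (F[encode p.1]?).isSome && ((F[encode (p.1 ++ [(p.2, true)])]?).isSome &&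
    ((F[encode (p.1 ++ U p.2 n)]?).isSome &&
    ((! decide (F[encode p.1]? = F[encode (p.1 ++ [(p.2, true)])]?)) &&
      decide (decide (F[encode (p.1 ++ U p.2 n)]? = F[encode p.1]?) = b)))))).getD false

lemma aux_primrec : Primrec (fun q : ((List ℕ × ℕ) × (ℕ × Bool)) × ℕ =>
    aux q.1.1.1 q.1.2.1 q.1.2.2 q.2) := by
  let β := (((List ℕ × ℕ) × (ℕ × Bool)) × ℕ) × (Wd × Fin 36)
  have F : Primrec (fun a : β => a.1.1.1.1) :=
    Primrec.fst.comp (Primrec.fst.comp (Primrec.fst.comp Primrec.fst))
  have w : Primrec (fun a : β => a.2.1) := Primrec.fst.comp Primrec.snd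
  have g : Primrec (fun a : β => a.2.2) := Primrec.snd.comp Primrec.snd
  have n : Primrec (fun a : β => a.1.1.2.1) :=
    Primrec.fst.comp (Primrec.snd.comp (Primrec.fst.comp Primrec.fst))
  have b : Primrec (fun a : β => a.1.1.2.2) :=
    Primrec.snd.comp (Primrec.snd.comp (Primrec.fst.comp Primrec.fst))
  have wg : Primrec (fun a : β => a.2.1 ++ [(a.2.2, true)]) :=
    Primrec.list_append.comp w (Primrec.list_cons.comp (g.pair (Primrec.const true))
      (Primrec.const []))
  have wu : Primrec (fun a : β => a.2.1 ++ U a.2.2 a.1.1.2.1) :=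
    Primrec.list_append.comp w (U_primrec₂.comp g n)
  have a1 : Primrec (fun a : β => (a.1.1.1.1)[encode a.2.1]?) :=
    Primrec.list_getElem?.comp F (Primrec.encode.comp w)
  have a2 : Primrec (fun a : β => (a.1.1.1.1)[encode (a.2.1 ++ [(a.2.2, true)])]?) :=
    Primrec.list_getElem?.comp F (Primrec.encode.comp wg)
  have a3 : Primrec (fun a : β => (a.1.1.1.1)[encode (a.2.1 ++ U a.2.2 a.1.1.2.1)]?) :=
    Primrec.list_getElem?.comp F (Primrec.encode.comp wu)
  have e1 : Primrec (fun a : β => decide ((a.1.1.1.1)[encode a.2.1]? =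
      (a.1.1.1.1)[encode (a.2.1 ++ [(a.2.2, true)])]?)) :=
    (Primrec.eq.comp a1 a2).decide
  have e2 : Primrec (fun a : β => decide ((a.1.1.1.1)[encode (a.2.1 ++ U a.2.2 a.1.1.2.1)]? =
      (a.1.1.1.1)[encode a.2.1]?)) :=
    (Primrec.eq.comp a3 a1).decide
  have e3 : Primrec (fun a : β => decide (decide ((a.1.1.1.1)[encode (a.2.1 ++ U a.2.2 a.1.1.2.1)]? =
      (a.1.1.1.1)[encode a.2.1]?) = a.1.1.2.2)) :=
    (Primrec.eq.comp e2 b).decide
  refine Primrec.option_getD.comp (Primrec.option_map (Primrec.decode.comp Primrec.snd) ?_)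
    (Primrec.const false)
  exact Primrec.and.comp (Primrec.option_isSome.comp a1) (Primrec.and.comp
    (Primrec.option_isSome.comp a2) (Primrec.and.comp (Primrec.option_isSome.comp a3)
      (Primrec.and.comp (Primrec.not.comp e1) e3)))

lemma aux_iff (F : List ℕ) (n : ℕ) (b : Bool) (t : ℕ) : aux F n b t = true ↔
    ∃ (w : Wd) (g : Fin 36) (v1 v2 v3 : ℕ), decode t = some (w, g) ∧
      F[encode w]? = some v1 ∧ F[encode (w ++ [(g, true)])]? = some v2 ∧
      F[encode (w ++ U g n)]? = some v3 ∧ v1 ≠ v2 ∧ (decide (v3 = v1) = b) := by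
  constructor
  · intro h
    simp only [aux] at h
    cases hd : (decode t : Option (Wd × Fin 36)) with
    | none => rw [hd] at h; simp at h
    | some p =>
      obtain ⟨w, g⟩ := p
      rw [hd] at h
      simp only [Option.map_some, Option.getD_some, Bool.and_eq_true, Bool.not_eq_true',
        decide_eq_false_iff_not, decide_eq_true_eq] at h
      obtain ⟨h1, h2, h3, h4, h5⟩ := h
      obtain ⟨v1, hv1⟩ := Option.isSome_iff_exists.1 h1
      obtain ⟨v2, hv2⟩ := Option.isSome_iff_exists.1 h2
      obtain ⟨v3, hv3⟩ := Option.isSome_iff_exists.1 h3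
      refine ⟨w, g, v1, v2, v3, rfl, hv1, hv2, hv3, ?_, ?_⟩
      · intro e
        apply h4
        rw [hv1, hv2, e]
      · rw [← h5, hv3, hv1]
        simp
  · rintro ⟨w, g, v1, v2, v3, hd, h1, h2, h3, h4, h5⟩
    simp only [aux, hd, Option.map_some, Option.getD_some, h1, h2, h3, Option.isSome_some,
      Bool.true_and]
    simp [h4, h5]

lemma aux_mono {F F' : List ℕ} (h : F <+: F') {n : ℕ} {b : Bool} {t : ℕ}
    (ha : aux F n b t = true) : aux F' n b t = true := by
  rw [aux_iff] at ha ⊢
  obtain ⟨w, g, v1, v2, v3, hd, h1, h2, h3, h4, h5⟩ := ha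
  exact ⟨w, g, v1, v2, v3, hd, prefix_getElem? h h1, prefix_getElem? h h2, prefix_getElem? h h3,
    h4, h5⟩

/-- The predicate: there is a witness below `N`. -/
def EE (p : (List ℕ × ℕ) × (ℕ × Bool)) : Prop := ∃ t < p.1.2, aux p.1.1 p.2.1 p.2.2 t = true

instance : DecidablePred EE := fun p => by unfold EE; infer_instance

lemma EE_primrec : PrimrecPred EE := by
  have h : PrimrecRel (fun (t : ℕ) (p : (List ℕ × ℕ) × (ℕ × Bool)) =>
      aux p.1.1 p.2.1 p.2.2 t = true) :=
    Primrec.eq.comp (aux_primrec.comp (Primrec.snd.pair Primrec.fst)) (Primrec.const true)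
  exact bex h (Primrec.snd.comp Primrec.fst)

section

variable (f : List ℕ → List ℕ)

/-- The query predicate. -/
def qq (n : ℕ) (b : Bool) (τ : List ℕ) : Bool := decide (EE ((f τ, τ.length), (n, b)))

/-- Counting. -/
def cnt (n : ℕ) (b : Bool) (L : ℕ) : ℕ :=
  Nat.rec 0 (fun j acc => acc + (qq f n b (pre (bt j) L)).toNat) (2 ^ L)

end

lemma pow_primrec : Primrec (fun p : ℕ × ℕ => p.1 ^ p.2) := Primrec₂.unpaired'.1 Nat.Primrec.pow

lemma pre_bt_primrec : Primrec (fun p : ℕ × ℕ => pre (bt p.1) p.2) := by
  have h : Primrec (fun p : ℕ × ℕ => (List.range p.2).map (fun i => bt p.1 i)) := by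
    refine Primrec.list_map (Primrec.list_range.comp Primrec.snd) ?_
    exact Primrec.nat_mod.comp (Primrec.nat_div.comp (Primrec.fst.comp Primrec.fst)
      (pow_primrec.comp ((Primrec.const 2).pair Primrec.snd))) (Primrec.const 2)
  refine Primrec.of_eq h ?_
  intro p
  rw [pre_eq_map]

lemma qq_computable {f : List ℕ → List ℕ} (hf : Computable f) :
    Computable (fun p : (ℕ × Bool) × List ℕ => qq f p.1.1 p.1.2 p.2) := by
  have h := EE_primrec.decide.to_comp
  exact h.comp (((hf.comp Computable.snd).pair (Computable.list_length.comp Computable.snd)).pair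
    Computable.fst)

lemma toNat_computable : Computable (fun b : Bool => b.toNat) := (Primrec.dom_bool _).to_comp

lemma count_comp {α : Type*} [Primcodable α] {p : α → ℕ → Bool} (hp : Computable₂ p) {N : α → ℕ}
    (hN : Computable N) :
    Computable (fun a => (Nat.rec 0 (fun j acc => acc + (p a j).toNat) (N a) : ℕ)) := by
  have h3 : Computable₂ (fun (a : α) (q : ℕ × ℕ) => q.2 + (p a q.1).toNat) :=
    (Primrec.nat_add.to_comp : Computable₂ _).comp (Computable.snd.comp Computable.snd)
      (toNat_computable.comp (hp.comp Computable.fst (Computable.fst.comp Computable.snd)))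
  exact Computable.nat_rec hN (Computable.const 0) h3

lemma two_pow_computable {α : Type*} [Primcodable α] {N : α → ℕ}
    (hN : Computable N) : Computable (fun a => 2 ^ N a) := by
  have h : Computable (fun n : ℕ => 2 ^ n) :=
    (pow_primrec.comp ((Primrec.const 2).pair Primrec.id)).to_comp
  exact h.comp hN

seal qq pre bt in
lemma cnt_computable {f : List ℕ → List ℕ} (hf : Computable f) :
    Computable (fun p : (ℕ × Bool) × ℕ => cnt f p.1.1 p.1.2 p.2) := by
  have h1 : Computable₂ (fun (a : (ℕ × Bool) × ℕ) (j : ℕ) =>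
      qq f a.1.1 a.1.2 (pre (bt j) a.2)) := by
    have hq : Computable (fun q : ((ℕ × Bool) × ℕ) × ℕ => ((q.2, q.1.2) : ℕ × ℕ)) :=
      Computable.snd.pair (Computable.snd.comp Computable.fst)
    have hp0 := pre_bt_primrec.to_comp.comp hq
    have hp : Computable (fun q : ((ℕ × Bool) × ℕ) × ℕ => pre (bt q.2) q.1.2) := hp0
    have hg : Computable (fun q : ((ℕ × Bool) × ℕ) × ℕ => (q.1.1, pre (bt q.2) q.1.2)) :=
      (Computable.fst.comp Computable.fst).pair hp
    have h5 := (qq_computable hf).comp hg
    exact h5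
  have h2 := count_comp h1 (two_pow_computable (Computable.snd (α := ℕ × Bool) (β := ℕ)))
  unfold cnt
  exact h2

open Finset in
lemma rec_count (p : ℕ → Bool) (N : ℕ) :
    (Nat.rec 0 (fun j acc => acc + (p j).toNat) N : ℕ) = #{j ∈ range N | p j = true} := by
  induction N with
  | zero => simp
  | succ N ih =>
    rw [range_add_one, filter_insert]
    show (Nat.rec 0 (fun j acc => acc + (p j).toNat) N : ℕ) + (p N).toNat = _
    rw [ih]
    by_cases h : p N = true
    · rw [if_pos h, card_insert_of_notMem (by simp)]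
      simp [h]
    · rw [if_neg h]
      simp [h]

open Finset in
lemma cnt_eq (f : List ℕ → List ℕ) (n : ℕ) (b : Bool) (L : ℕ) :
    cnt f n b L = #{j ∈ range (2 ^ L) | qq f n b (pre (bt j) L) = true} :=
  rec_count _ _

/-- The test. -/
def tst (f : List ℕ → List ℕ) (n L : ℕ) : Bool :=
  decide (2 ^ L < 4 * cnt f n true L) || decide (2 ^ L < 4 * cnt f n false L)

lemma lt_comp_gen {α : Type*} [Primcodable α] {u v : α → ℕ} (hu : Computable u)
    (hv : Computable v) : Computable (fun a => decide (u a < v a)) :=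
  (Primrec.nat_lt.decide : Primrec₂ _).to_comp.comp hu hv

lemma four_mul_computable {α : Type*} [Primcodable α] {N : α → ℕ}
    (hN : Computable N) : Computable (fun a => 4 * N a) := by
  have h : Computable (fun n : ℕ => 4 * n) :=
    (Primrec.nat_mul.comp (Primrec.const 4) Primrec.id).to_comp
  exact h.comp hN

seal qq cnt pre bt in
lemma lt_computable {f : List ℕ → List ℕ} (hf : Computable f) (b : Bool) :
    Computable₂ (fun n L : ℕ => decide (2 ^ L < 4 * cnt f n b L)) := by
  have h0 : Computable (fun p : ℕ × ℕ => cnt f p.1 b p.2) :=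
    (cnt_computable hf).comp ((Computable.fst.pair (Computable.const b)).pair Computable.snd)
  have h1 : Computable (fun p : ℕ × ℕ => 2 ^ p.2) := two_pow_computable Computable.snd
  exact lt_comp_gen h1 (four_mul_computable h0)

seal qq cnt pre bt in
lemma tst_computable {f : List ℕ → List ℕ} (hf : Computable f) : Computable₂ (tst f) :=
  Primrec.or.to_comp.comp (lt_computable hf true) (lt_computable hf false)

/-- `A` and `B` are computably inseparable. -/
theorem inseparable (sep : ℕ → Bool) (hs : Computable sep) (hA : ∀ n, inA n → sep n = true)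
    (hB : ∀ n, inB n → sep n = false) : False := by
  have h1 : Computable (fun n => (sep n).toNat) := (Primrec.dom_bool Bool.toNat).to_comp.comp hs
  obtain ⟨c, hc⟩ := Code.exists_code.1 (Partrec.nat_iff.1 h1.partrec)
  set e := encode c with he
  have hce : Denumerable.ofNat Code e = c := Denumerable.ofNat_encode c
  have h2 : (sep e).toNat ∈ Code.eval c e := by rw [hc]; simp
  obtain ⟨s, hs⟩ := Code.evaln_complete.1 h2
  have h3 : stg e s = some (sep e).toNat := by
    rw [stg, hce]; exact Option.mem_def.1 hs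
  cases hse : sep e with
  | true =>
    rw [hse] at h3
    have := hB e ⟨s, h3⟩
    rw [hse] at this; exact absurd this (by decide)
  | false =>
    rw [hse] at h3
    have := hA e ⟨s, h3⟩
    rw [hse] at this; exact absurd this (by decide)

/-- The class `PP` does not uniformly compute non-constant configurations. -/
theorem no_reduction {f : List ℕ → List ℕ} (hf : Computable f)
    (hmono : ∀ σ τ : List ℕ, σ <+: τ → f σ <+: f τ)
    (hred : ∀ z ∈ PP, ∃ (y : ℕ → ℕ) (x : GG → ℕ), (∀ w : Wd, y (encode w) = x (ev w)) ∧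
      (∃ g, x g ≠ x 1) ∧ ∀ n : ℕ, ∃ m : ℕ, ∀ i < n, (f (pre z m))[i]? = some (y i)) : False := by
  classical
  have hqmono : ∀ n b σ τ, σ <+: τ → qq f n b σ = true → qq f n b τ = true := by
    intro n b σ τ h hq
    simp only [qq, decide_eq_true_eq] at hq ⊢
    obtain ⟨t, ht, ha⟩ := hq
    exact ⟨t, lt_of_lt_of_le ht h.length_le, aux_mono (hmono _ _ h) ha⟩
  -- values read off are correct
  have hval : ∀ (z : ℕ → ℕ) (y : ℕ → ℕ) (hy : ∀ n : ℕ, ∃ m : ℕ, ∀ i < n,
      (f (pre z m))[i]? = some (y i)) (L i v : ℕ), (f (pre z L))[i]? = some v → v = y i := by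
    intro z y hy L i v hv
    obtain ⟨m, hm⟩ := hy (i + 1)
    have h1 := hm i (by omega)
    have h2 := prefix_getElem? (hmono _ _ (pre_prefix z (le_max_left m L))) h1
    have h3 := prefix_getElem? (hmono _ _ (pre_prefix z (le_max_right m L))) hv
    rw [h2] at h3
    exact (Option.some.inj h3).symm
  have hex : ∀ n, ∃ L, tst f n L = true := by
    intro n
    obtain ⟨L, b, hL⟩ := exists_majority (qq f n) (fun b => hqmono n b) (by
      intro z hz
      obtain ⟨y, x, hyx, ⟨g, hg⟩, hy⟩ := hred z hz
      -- find a pair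
      have hpair : ∃ g s, x g ≠ x (g * gens s) := by
        by_contra hcon
        push Not at hcon
        exact hg (const_of_gens x hcon g)
      obtain ⟨g0, s, hne⟩ := hpair
      obtain ⟨w, hw⟩ : ∃ w, ev w = g0 := by
        obtain ⟨a, rfl⟩ := QuotientGroup.mk_surjective g0
        refine ⟨a.toWord, ?_⟩
        rw [ev_eq, FreeGroup.mk_toWord]
      set N := max (encode w) (max (encode (w ++ [(s, true)])) (encode (w ++ U s n))) + 1 with hN
      obtain ⟨m, hm⟩ := hy N
      let t := encode (w, s)
      let M := max m (t + 1)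
      let b : Bool := decide (y (encode (w ++ U s n)) = y (encode w))
      refine ⟨M, b, ?_⟩
      simp only [qq, decide_eq_true_eq]
      refine ⟨t, ?_, ?_⟩
      · show t < (pre z M).length
        rw [pre_length]
        exact lt_of_lt_of_le (Nat.lt_succ_self t) (le_max_right _ _)
      · show aux (f (pre z M)) n b t = true
        rw [aux_iff]
        have hp := hmono _ _ (pre_prefix z (le_max_left m (t + 1)))
        refine ⟨w, s, y (encode w), y (encode (w ++ [(s, true)])), y (encode (w ++ U s n)),
          by simp [t], ?_, ?_, ?_, ?_, rfl⟩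
        · exact prefix_getElem? hp (hm _ (by omega))
        · exact prefix_getElem? hp (hm _ (by omega))
        · exact prefix_getElem? hp (hm _ (by omega))
        · rw [hyx, hyx, ev_append, ev_single, hw]; exact hne)
    refine ⟨L, ?_⟩
    simp only [tst, Bool.or_eq_true, decide_eq_true_eq]
    rw [← cnt_eq] at hL
    cases b
    · exact Or.inr hL
    · exact Or.inl hL
  let L0 : ℕ → ℕ := fun n => Nat.find (hex n)
  have hL0 : Computable L0 := by
    have hp : Partrec (fun n : ℕ => Nat.rfind ((fun s => tst f n s : ℕ → Bool) : ℕ →. Bool)) :=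
      Partrec.rfind (tst_computable hf).partrec₂
    refine Partrec.of_eq_tot hp ?_
    intro n
    rw [Nat.mem_rfind]
    refine ⟨?_, fun {m} hm => ?_⟩
    · have := Nat.find_spec (hex n)
      show true ∈ Part.some (tst f n (L0 n))
      rw [Part.mem_some_iff]
      exact this.symm
    · have := Nat.find_min (hex n) hm
      show false ∈ Part.some (tst f n m)
      rw [Part.mem_some_iff]
      simp only [Bool.not_eq_true] at this
      exact this.symm
  let sep : ℕ → Bool := fun n => decide (2 ^ (L0 n) < 4 * cnt f n true (L0 n))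
  have hsep : Computable sep := (lt_computable hf true).comp Computable.id hL0
  -- reading a witness
  have hread : ∀ n b, 2 ^ (L0 n) < 4 * cnt f n b (L0 n) →
      ∃ (x : GG → ℕ) (w : Wd) (g : Fin 36), x (ev w) ≠ x (ev w * gens g) ∧
        decide (x (ev w * ev (U g n)) = x (ev w)) = b := by
    intro n b hlt
    rw [cnt_eq] at hlt
    obtain ⟨z, hz, j, hj, hzj⟩ := exists_ext (L0 n) _ (Finset.filter_subset _ _) hlt
    rw [Finset.mem_filter] at hj
    obtain ⟨y, x, hyx, -, hy⟩ := hred z hz
    have hq := hj.2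
    rw [← hzj] at hq
    simp only [qq, decide_eq_true_eq] at hq
    obtain ⟨t, -, ha⟩ := hq
    rw [aux_iff] at ha
    obtain ⟨w, g, v1, v2, v3, -, h1, h2, h3, h4, h5⟩ := ha
    have e1 := hval z y hy _ _ _ h1
    have e2 := hval z y hy _ _ _ h2
    have e3 := hval z y hy _ _ _ h3
    rw [hyx] at e1 e2 e3
    rw [ev_append, ev_single] at e2
    rw [ev_append] at e3
    refine ⟨x, w, g, ?_, ?_⟩
    · rw [← e1, ← e2]; exact h4
    · rw [← e3, ← e1]; exact h5
  refine inseparable sep hsep (fun n hn => ?_) (fun n hn => ?_)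
  · by_contra hcon
    have h1 : ¬ (2 ^ (L0 n) < 4 * cnt f n true (L0 n)) := by
      intro h; exact hcon (by simp only [sep]; exact decide_eq_true h)
    have h2 : 2 ^ (L0 n) < 4 * cnt f n false (L0 n) := by
      have hspec : tst f n (L0 n) = true := Nat.find_spec (hex n)
      simp only [tst, Bool.or_eq_true, decide_eq_true_eq] at hspec
      rcases hspec with h | h
      · exact absurd h h1
      · exact h
    obtain ⟨x, w, g, _, hd⟩ := hread n false h2
    rw [ev_U_A hn, mul_one] at hd
    simp at hd
  · by_contra hcon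
    have h1 : 2 ^ (L0 n) < 4 * cnt f n true (L0 n) := by
      by_contra h
      exact hcon (by simp only [sep]; exact decide_eq_false h)
    obtain ⟨x, w, g, hne, hd⟩ := hread n true h1
    rw [ev_U_B hn, decide_eq_true_eq] at hd
    exact hne hd.symm

/-- A computable point cannot compute a member of `PP`. -/
theorem no_computable_reduction {g : List ℕ → List ℕ} (hg : Computable g)
    (hmono : ∀ σ τ : List ℕ, σ <+: τ → g σ <+: g τ) {y : ℕ → ℕ} (hy : Computable y)
    {x : ℕ → ℕ} (hx : x ∈ PP)
    (h : ∀ n : ℕ, ∃ m : ℕ, ∀ i < n, (g (pre y m))[i]? = some (x i)) : False := by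
  apply PP_not_computable hx
  have hpre : Computable (fun m => pre y m) := by
    have hrec : Computable (fun m : ℕ => (Nat.rec [] (fun j acc => acc ++ [y j]) m : List ℕ)) := by
      have h3 : Computable₂ (fun (_ : ℕ) (q : ℕ × List ℕ) => q.2 ++ [y q.1]) :=
        Computable.list_concat.comp (Computable.snd.comp Computable.snd)
          (hy.comp (Computable.fst.comp Computable.snd))
      exact Computable.nat_rec Computable.id (Computable.const ([] : List ℕ)) h3
    refine Computable.of_eq hrec ?_
    intro m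
    rw [pre_eq_map]
    induction m with
    | zero => rfl
    | succ m ih =>
      rw [List.range_succ, List.map_append, ← ih]
      rfl
  have h2 : Computable₂ (fun (i m : ℕ) => (g (pre y m))[i]?) :=
    Computable.list_getElem?.comp (hg.comp (hpre.comp Computable.snd)) Computable.fst
  refine Partrec.of_eq_tot (Partrec.rfindOpt h2) ?_
  intro i
  rw [Nat.rfindOpt_mono]
  · obtain ⟨m, hm⟩ := h (i + 1)
    exact ⟨m, Option.mem_def.2 (hm i (by omega))⟩
  · intro a m n hmn ha
    exact Option.mem_def.2 (prefix_getElem? (hmono _ _ (pre_prefix y hmn)) (Option.mem_def.1 ha))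

end Pool.Agent.H715R3.Medv
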