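import Mathlib

set_option autoImplicit false

/-!
Definitions: subshifts of finite type, factor maps, sofic subshifts on finitely generated groups,
Medvedev reducibility.
-/

namespace Pool.Agent.H715R3.Sof

open Encodable

/-- The group element represented by a word over the generators and their inverses. -/
def wordVal {G : Type} [Group G] {r : ℕ} (gens : Fin r → G) (w : List (Fin r × Bool)) : G :=
  (w.map fun p => cond p.2 (gens p.1) (gens p.1)⁻¹).prod

/-- `G` has a presentation with generators `gens` and an r.e. set `R` of relators: `gens` generates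
`G` and the kernel of the evaluation map from the free group is the normal closure of `R`. -/
def RecursivelyPresented {G : Type} [Group G] {r : ℕ} (gens : Fin r → G) : Prop :=
  Subgroup.closure (Set.range gens) = ⊤ ∧
  ∃ R : Set (List (Fin r × Bool)), REPred (fun w => w ∈ R) ∧
    (FreeGroup.lift gens : FreeGroup (Fin r) →* G).ker =
      Subgroup.normalClosure (FreeGroup.mk '' R)

/-- The action of the group on configurations: `(g x)(h) = x(g⁻¹ h)`. -/
def translate {G : Type} [Group G] {k : ℕ} (g : G) (x : G → Fin k) : G → Fin k :=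
  fun h => x (g⁻¹ * h)

/-- The finite pattern `p` (a finite set of prescriptions `h ↦ a`) occurs in `x` at `g`. -/
def Occurs {G : Type} [Group G] {k : ℕ} (p : Finset (G × Fin k)) (x : G → Fin k) (g : G) : Prop :=
  ∀ q ∈ p, x (g * q.1) = q.2

/-- `X` is a subshift of finite type: the set of configurations in which no pattern of some finite
set of finite patterns occurs. -/
def IsSFT {G : Type} [Group G] {k : ℕ} (X : Set (G → Fin k)) : Prop :=
  ∃ F : Set (Finset (G × Fin k)), F.Finite ∧ X = {x | ∀ p ∈ F, ∀ g, ¬ Occurs p x g}

/-- `φ` is a factor map from `X` onto `Y`: continuous, equivariant, with range `Y`. -/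
def IsFactorMap {G : Type} [Group G] {k l : ℕ} (X : Set (G → Fin k)) (Y : Set (G → Fin l))
    (φ : X → (G → Fin l)) : Prop :=
  Continuous φ ∧ (∀ (g : G) (x x' : X), x'.1 = translate g x.1 → φ x' = translate g (φ x)) ∧
    Set.range φ = Y

/-- `Y` is sofic: a factor of a subshift of finite type. -/
def IsSofic {G : Type} [Group G] {l : ℕ} (Y : Set (G → Fin l)) : Prop :=
  ∃ (k : ℕ) (X : Set (G → Fin k)) (φ : X → (G → Fin l)), IsSFT X ∧ IsFactorMap X Y φ

/-- Initial segment of length `m`. -/
def seg (y : ℕ → ℕ) (m : ℕ) : List ℕ := List.ofFn fun j : Fin m => y j.val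

/-- Medvedev reducibility `P ≤ Q`: some Turing functional (given by a computable monotone map on
finite strings) is defined on every element of `Q` and maps it to an element of `P`. -/
def MedvedevLe (P Q : Set (ℕ → ℕ)) : Prop :=
  ∃ f : List ℕ → List ℕ, Computable f ∧ (∀ σ τ : List ℕ, σ <+: τ → f σ <+: f τ) ∧
    ∀ y ∈ Q, ∃ x ∈ P, ∀ n : ℕ, ∃ m : ℕ, ∀ i < n, (f (seg y m))[i]? = some (x i)

/-- The set of pullbacks `(x(w))_{w ∈ S^*}`, `x ∈ X`, coded on `ℕ` through the standard computable
coding of words (value `0` at numbers that code no word). -/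
def pull {G : Type} [Group G] {r : ℕ} (gens : Fin r → G) {k : ℕ} (X : Set (G → Fin k)) :
    Set (ℕ → ℕ) :=
  {y | ∃ x ∈ X, ∀ n : ℕ, y n = (decode n : Option (List (Fin r × Bool))).elim 0
    (fun w => (x (wordVal gens w)).val)}

end Pool.Agent.H715R3.Sof
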