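import Pool.Agent.H715R3.MedvE
import Pool.Agent.H715R3.SDefs

set_option autoImplicit false

/-!
The group `GG × ℤ`, its presentation and basic computability facts.
-/

namespace Pool.Agent.H715R3.Sof

open Encodable Nat.Partrec Pool.Agent.H715R3.Medv

/-- The group. -/
abbrev G2 : Type := GG × Multiplicative ℤ

/-- The generators. -/
def gens2 (i : Fin 37) : G2 :=
  if h : i.val < 36 then (gens ⟨i.val, h⟩, 1) else (1, Multiplicative.ofAdd 1)

/-- Embedding of letters. -/
def emb (i : Fin 36) : Fin 37 := i.castSucc
/-- The last letter. -/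
def zt : Fin 37 := ⟨36, by omega⟩

lemma gens2_emb (i : Fin 36) : gens2 (emb i) = (gens i, 1) := by
  have : (emb i).val < 36 := i.2
  simp only [gens2, this, dif_pos]
  rfl

lemma gens2_zt : gens2 zt = (1, Multiplicative.ofAdd 1) := by
  simp [gens2, zt]

lemma fin37_cases (i : Fin 37) : (∃ j, i = emb j) ∨ i = zt := by
  by_cases h : i.val < 36
  · exact Or.inl ⟨⟨i.val, h⟩, Fin.ext rfl⟩
  · right
    apply Fin.ext
    show i.val = 36
    omega

/-- Words. -/
abbrev Wd2 : Type := List (Fin 37 × Bool)

/-- Embedding of words. -/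
def embW (w : Wd) : Wd2 := w.map (fun p => (emb p.1, p.2))

/-- Commutation relators. -/
def cw (i : Fin 36) : Wd2 := [(emb i, true), (zt, true), (emb i, false), (zt, false)]

/-- All relators. -/
def rel2 (q : ℕ) : Wd2 := ((List.ofFn cw)[q.unpair.1]?).getD (embW (rel q.unpair.2))

lemma embW_primrec : Primrec embW := by
  have h : Primrec (fun p : Fin 36 × Bool => (emb p.1, p.2)) :=
    (Primrec.dom_finite _)
  exact Primrec.list_map Primrec.id (h.comp Primrec.snd).to₂

lemma rel2_primrec : Primrec rel2 := by
  refine Primrec.option_getD.comp ?_ ?_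
  · exact Primrec.list_getElem?.comp (Primrec.const _) (Primrec.fst.comp Primrec.unpair)
  · exact embW_primrec.comp (rel_primrec.comp (Primrec.snd.comp Primrec.unpair))

lemma wordVal_append {G : Type} [Group G] {r : ℕ} (gs : Fin r → G) (u v : List (Fin r × Bool)) :
    wordVal gs (u ++ v) = wordVal gs u * wordVal gs v := by
  simp [wordVal]

lemma wordVal_lift {G : Type} [Group G] {r : ℕ} (gs : Fin r → G) (w : List (Fin r × Bool)) :
    wordVal gs w = FreeGroup.lift gs (FreeGroup.mk w) := by
  rw [FreeGroup.lift_mk]; rfl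

lemma wordVal_embW (w : Wd) : wordVal gens2 (embW w) = (ev w, 1) := by
  induction w with
  | nil => rfl
  | cons p w ih =>
    have h1 : embW (p :: w) = [(emb p.1, p.2)] ++ embW w := rfl
    have h2 : ev (p :: w) = cond p.2 (gens p.1) (gens p.1)⁻¹ * ev w := by simp [ev]
    rw [h1, wordVal_append, ih, h2]
    obtain ⟨i, b⟩ := p
    cases b
    · simp [wordVal, gens2_emb]
    · simp [wordVal, gens2_emb]

/-- Normal subgroup of relations. -/
def NN : Subgroup (FreeGroup (Fin 37)) :=
  Subgroup.normalClosure (Set.range (fun n => FreeGroup.mk (rel2 n)))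

instance : NN.Normal := Subgroup.normalClosure_normal

lemma rel2_cw (i : Fin 36) : rel2 (Nat.pair i.val 0) = cw i := by
  simp only [rel2, Nat.unpair_pair]
  rw [List.getElem?_ofFn]
  simp

lemma rel2_rel (n : ℕ) : rel2 (Nat.pair 36 n) = embW (rel n) := by
  simp only [rel2, Nat.unpair_pair]
  rw [List.getElem?_ofFn]
  simp

lemma rel2_mem (n : ℕ) : (FreeGroup.mk (rel2 n)) ∈ NN :=
  Subgroup.subset_normalClosure ⟨n, rfl⟩

/-- Quotient. -/
abbrev QQ : Type := FreeGroup (Fin 37) ⧸ NN

/-- The map from the free group on 36 letters. -/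
def fe : FreeGroup (Fin 36) →* FreeGroup (Fin 37) := FreeGroup.map emb

lemma fe_mk (w : Wd) : fe (FreeGroup.mk w) = FreeGroup.mk (embW w) := by
  rw [fe, FreeGroup.map.mk]; rfl

/-- Inclusion of `GG` in the quotient. -/
def iot : GG →* QQ :=
  PresentedGroup.toGroup (f := fun i => (QuotientGroup.mk (FreeGroup.of (emb i)) : QQ)) (by
    rintro _ ⟨n, rfl⟩
    have h : (FreeGroup.lift (fun i => (QuotientGroup.mk (FreeGroup.of (emb i)) : QQ))) =
        (QuotientGroup.mk' NN).comp fe := by
      ext i
      simp [fe]
    show FreeGroup.lift _ (FreeGroup.mk (rel n)) = 1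
    rw [h, MonoidHom.comp_apply, fe_mk, ← rel2_rel]
    exact (QuotientGroup.eq_one_iff _).2 (rel2_mem _))

lemma iot_gens (i : Fin 36) : iot (gens i) = (QuotientGroup.mk (FreeGroup.of (emb i)) : QQ) := by
  unfold iot gens
  exact PresentedGroup.toGroup.of _

/-- The central element. -/
def zq : QQ := QuotientGroup.mk (FreeGroup.of zt)

lemma comm_gen (i : Fin 36) : Commute (iot (gens i)) zq := by
  rw [iot_gens]
  have h := (QuotientGroup.eq_one_iff (N := NN) _).2 (rel2_mem (Nat.pair i.val 0))
  rw [rel2_cw] at h
  have e : FreeGroup.mk (cw i) = FreeGroup.of (emb i) * FreeGroup.of zt * (FreeGroup.of (emb i))⁻¹ *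
      (FreeGroup.of zt)⁻¹ := by
    simp only [FreeGroup.of, FreeGroup.inv_mk, FreeGroup.mul_mk]
    rfl
  rw [e] at h
  have h' : (QuotientGroup.mk (FreeGroup.of (emb i)) : QQ) * zq *
      (QuotientGroup.mk (FreeGroup.of (emb i)) : QQ)⁻¹ * zq⁻¹ = 1 := h
  rw [mul_inv_eq_one, mul_inv_eq_iff_eq_mul] at h'
  exact h'

lemma comm_all (g : GG) : Commute (iot g) zq := by
  have hg : g ∈ Subgroup.closure (Set.range gens) := by rw [gens_closure]; trivial
  induction hg using Subgroup.closure_induction with
  | mem x hx => obtain ⟨i, rfl⟩ := hx; exact comm_gen i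
  | one => rw [map_one]; exact Commute.one_left _
  | mul x y _ _ hx hy => rw [map_mul]; exact hx.mul_left hy
  | inv x _ hx => rw [map_inv]; exact hx.inv_left

/-- The inverse map. -/
def psi : G2 →* QQ :=
  iot.noncommCoprod (zpowersHom QQ zq) (fun g n => by
    rw [zpowersHom_apply]
    exact (comm_all g).zpow_right _)

lemma psi_lift : psi.comp (FreeGroup.lift gens2) = QuotientGroup.mk' NN := by
  ext i
  rw [MonoidHom.comp_apply, FreeGroup.lift_apply_of]
  rcases fin37_cases i with ⟨j, rfl⟩ | rfl
  · rw [gens2_emb]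
    simp [psi, iot_gens]
  · rw [gens2_zt]
    simp [psi, zq]

lemma gens2_closure : Subgroup.closure (Set.range gens2) = ⊤ := by
  rw [Subgroup.eq_top_iff']
  rintro ⟨g, n⟩
  have h1 : ∀ g : GG, ((g, 1) : G2) ∈ Subgroup.closure (Set.range gens2) := by
    intro g
    have hg : g ∈ Subgroup.closure (Set.range gens) := by rw [gens_closure]; trivial
    induction hg using Subgroup.closure_induction with
    | mem x hx =>
      obtain ⟨i, rfl⟩ := hx
      exact Subgroup.subset_closure ⟨emb i, gens2_emb i⟩
    | one => exact Subgroup.one_mem _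
    | mul x y _ _ hx hy =>
      have := Subgroup.mul_mem _ hx hy
      simpa using this
    | inv x _ hx =>
      have := Subgroup.inv_mem _ hx
      simpa using this
  have h2 : ((1, n) : G2) ∈ Subgroup.closure (Set.range gens2) := by
    have h3 : ((1, Multiplicative.ofAdd 1) : G2) ∈ Subgroup.closure (Set.range gens2) :=
      Subgroup.subset_closure ⟨zt, gens2_zt⟩
    have h4 := Subgroup.zpow_mem _ h3 (Multiplicative.toAdd n)
    have h5 : ((1, Multiplicative.ofAdd 1) : G2) ^ (Multiplicative.toAdd n) = (1, n) := by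
      ext1
      · simp
      · simp only [Prod.pow_snd]
        rw [← ofAdd_zsmul]
        simp
    rwa [h5] at h4
  have := Subgroup.mul_mem _ (h1 g) h2
  simpa using this

theorem rp2 : RecursivelyPresented gens2 := by
  refine ⟨gens2_closure, Set.range rel2, ?_, ?_⟩
  · have hR : Computable₂ (fun (w : Wd2) (n : ℕ) => decide (rel2 n = w)) := by
      have h1 : PrimrecPred (fun p : Wd2 × ℕ => rel2 p.2 = p.1) :=
        Primrec.eq.comp (rel2_primrec.comp Primrec.snd) Primrec.fst
      exact h1.decide.to_comp
    refine REPred.of_eq (rePred_exists hR) ?_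
    intro w
    simp [Set.mem_range]
  · have himg : FreeGroup.mk '' Set.range rel2 = Set.range (fun n => FreeGroup.mk (rel2 n)) := by
      ext x; simp
    rw [himg]
    show _ = NN
    apply le_antisymm
    · intro x hx
      rw [MonoidHom.mem_ker] at hx
      have h1 : psi (FreeGroup.lift gens2 x) = QuotientGroup.mk' NN x := by
        rw [← MonoidHom.comp_apply, psi_lift]
      rw [hx, map_one] at h1
      exact (QuotientGroup.eq_one_iff x).1 h1.symm
    · refine Subgroup.normalClosure_le_normal ?_
      rintro _ ⟨n, rfl⟩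
      show _ ∈ (FreeGroup.lift gens2).ker
      rw [MonoidHom.mem_ker, ← wordVal_lift]
      simp only [rel2]
      rw [List.getElem?_ofFn]
      by_cases h : n.unpair.1 < 36
      · simp only [h, dite_true, Option.getD_some, cw, wordVal]
        simp [gens2_emb, gens2_zt]
      · simp only [h, dite_false, Option.getD_none]
        rw [wordVal_embW, ev_rel]
        rfl

/-! ### Computable configurations -/

lemma ev_surj (g : GG) : ∃ w, ev w = g := by
  obtain ⟨a, rfl⟩ := QuotientGroup.mk_surjective g
  refine ⟨a.toWord, ?_⟩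
  rw [ev_eq, FreeGroup.mk_toWord]

/-- A computable configuration on `GG` is constant. -/
theorem const_of_computable {k : ℕ} (x : GG → Fin k)
    (hx : Computable (fun w : Wd => (x (ev w)).val)) (g : GG) : x g = x 1 := by
  by_contra hcon
  have hpair : ∃ g s, x g ≠ x (g * gens s) := by
    by_contra hc
    push Not at hc
    exact hcon (const_of_gens x hc g)
  obtain ⟨g0, s, hne⟩ := hpair
  obtain ⟨w, hw⟩ := ev_surj g0
  let sep : ℕ → Bool := fun n => decide ((x (ev (w ++ U s n))).val = (x g0).val)
  have hsep : Computable sep := by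
    have h1 : Computable (fun n => w ++ U s n) :=
      (Primrec.list_append.comp (Primrec.const w) (U_primrec s)).to_comp
    have h2 : Computable (fun v : ℕ => decide (v = (x g0).val)) :=
      (Primrec.eq.comp Primrec.id (Primrec.const _)).decide.to_comp
    exact h2.comp (hx.comp h1)
  refine inseparable sep hsep (fun n hn => ?_) (fun n hn => ?_)
  · simp only [sep]
    rw [ev_append, ev_U_A hn, mul_one, hw]
    simp
  · simp only [sep]
    rw [ev_append, ev_U_B hn, hw]
    rw [decide_eq_false_iff_not]
    intro e
    exact hne (Fin.ext e).symm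

/-- Powers of the central letter. -/
def zw (n : ℤ) : Wd2 := List.replicate n.natAbs (zt, decide (0 ≤ n))

lemma wordVal_zw (n : ℤ) : wordVal gens2 (zw n) = (1, Multiplicative.ofAdd n) := by
  unfold zw wordVal
  rw [List.map_replicate, List.prod_replicate]
  by_cases h : 0 ≤ n
  · simp only [h, decide_true, cond_true, gens2_zt]
    ext1
    · simp
    · simp only [Prod.pow_snd]
      rw [← ofAdd_nsmul]
      congr 1
      simp only [nsmul_eq_mul, mul_one]
      omega
  · simp only [h, decide_false, cond_false, gens2_zt]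
    ext1
    · simp
    · simp only [Prod.pow_snd, Prod.snd_inv]
      rw [← ofAdd_neg, ← ofAdd_nsmul]
      congr 1
      simp only [nsmul_eq_mul]
      omega

/-- A computable configuration on `G2` is `GG`-invariant. -/
theorem inv_of_computable {k : ℕ} (x : G2 → Fin k)
    (hx : Computable (fun w : Wd2 => (x (wordVal gens2 w)).val)) (g : GG) (n : Multiplicative ℤ) :
    x (g, n) = x (1, n) := by
  refine const_of_computable (fun g => x (g, n)) ?_ g
  have h1 : Computable (fun w : Wd => embW w ++ zw (Multiplicative.toAdd n)) :=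
    (Primrec.list_append.comp embW_primrec (Primrec.const _)).to_comp
  refine Computable.of_eq (hx.comp h1) ?_
  intro w
  show (x (wordVal gens2 (embW w ++ zw (Multiplicative.toAdd n)))).val = _
  rw [wordVal_append, wordVal_embW, wordVal_zw]
  simp

/-- Reductions preserve computability. -/
lemma computable_of_reduction {g : List ℕ → List ℕ} (hg : Computable g)
    (hmono : ∀ σ τ : List ℕ, σ <+: τ → g σ <+: g τ) {y : ℕ → ℕ} (hy : Computable y)
    {x : ℕ → ℕ} (h : ∀ n : ℕ, ∃ m : ℕ, ∀ i < n, (g (pre y m))[i]? = some (x i)) :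
    Computable x := by
  have hpre : Computable (fun m => pre y m) := by
    have hrec : Computable (fun m : ℕ => (Nat.rec [] (fun j acc => acc ++ [y j]) m : List ℕ)) := by
      have h3 : Computable₂ (fun (_ : ℕ) (q : ℕ × List ℕ) => q.2 ++ [y q.1]) :=
        Computable.list_concat.comp (Computable.snd.comp Computable.snd)
          (hy.comp (Computable.fst.comp Computable.snd))
      exact Computable.nat_rec Computable.id (Computable.const ([] : List ℕ)) h3
    refine Computable.of_eq hrec ?_
    intro m
    rw [pre_eq_map]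
    induction m with
    | zero => rfl
    | succ m ih =>
      rw [List.range_succ, List.map_append, ← ih]
      rfl
  have h2 : Computable₂ (fun (i m : ℕ) => (g (pre y m))[i]?) :=
    Computable.list_getElem?.comp (hg.comp (hpre.comp Computable.snd)) Computable.fst
  refine Partrec.of_eq_tot (Partrec.rfindOpt h2) ?_
  intro i
  rw [Nat.rfindOpt_mono]
  · obtain ⟨m, hm⟩ := h (i + 1)
    exact ⟨m, Option.mem_def.2 (hm i (by omega))⟩
  · intro a m n hmn ha
    exact Option.mem_def.2 (prefix_getElem? (hmono _ _ (pre_prefix y hmn)) (Option.mem_def.1 ha))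

end Pool.Agent.H715R3.Sof
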