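import Pool.Agent.H715R3.MedvC

set_option autoImplicit false

/-!
A tree-like action: states are pairs of polynomials over `ZMod 2`, on which three involutions act;
the subgroup generated by three generators of the group acts through it.
-/

namespace Pool.Agent.H715R3.Sof

open Polynomial Pool.Agent.H715R3.Medv

/-- Polynomials. -/
abbrev Pl : Type := Polynomial (ZMod 2)
/-- States. -/
abbrev St : Type := Pl × Pl

lemma pl_add_self (a : Pl) : a + a = 0 := by
  ext n
  simp [CharTwo.add_self_eq_zero]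

/-- First involution. -/
noncomputable def sA (s : St) : St := (s.1, s.2 + X * s.1)
/-- Second involution. -/
noncomputable def sC (s : St) : St := (s.1, s.2 + s.1)
/-- Third involution. -/
noncomputable def sB (s : St) : St := (s.1 + X * s.2, s.2)

lemma sA_sA (s : St) : sA (sA s) = s := by
  simp only [sA]
  ext1
  · rfl
  · show s.2 + X * s.1 + X * s.1 = s.2
    rw [add_assoc, pl_add_self, add_zero]

lemma sC_sC (s : St) : sC (sC s) = s := by
  simp only [sC]
  ext1
  · rfl
  · show s.2 + s.1 + s.1 = s.2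
    rw [add_assoc, pl_add_self, add_zero]

lemma sB_sB (s : St) : sB (sB s) = s := by
  simp only [sB]
  ext1
  · show s.1 + X * s.2 + X * s.2 = s.1
    rw [add_assoc, pl_add_self, add_zero]
  · rfl

lemma sC_sA (s : St) : sC (sA s) = sA (sC s) := by
  simp only [sA, sC]
  ext1
  · rfl
  · show s.2 + X * s.1 + s.1 = s.2 + s.1 + X * s.1
    ring

/-- The first region. -/
def P1 (s : St) : Prop := s.2.degree < s.1.degree

lemma key_deg {p q u : Pl} (h : q.degree < p.degree) (hu : p.degree ≤ u.degree) :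
    p.degree ≤ (q + u).degree := by
  rw [degree_add_eq_right_of_degree_lt (lt_of_lt_of_le h hu)]
  exact hu

lemma deg_X_mul (p : Pl) : (X * p).degree = p.degree + 1 := by
  rw [degree_mul, degree_X, add_comm]

lemma P1_sA {s : St} (h : P1 s) : ¬ P1 (sA s) := by
  unfold P1 at h ⊢
  rw [not_lt]
  refine key_deg h ?_
  rw [deg_X_mul]
  have hp : s.1 ≠ 0 := by
    intro e; rw [e, degree_zero] at h; exact not_lt_bot h
  show s.1.degree ≤ s.1.degree + 1
  rw [degree_eq_natDegree hp]
  exact_mod_cast Nat.le_succ _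

lemma P1_sC {s : St} (h : P1 s) : ¬ P1 (sC s) := by
  unfold P1 at h ⊢
  rw [not_lt]
  exact key_deg h le_rfl

lemma P1_sAC {s : St} (h : P1 s) : ¬ P1 (sA (sC s)) := by
  unfold P1 at h ⊢
  rw [not_lt]
  have e : (sA (sC s)).2 = s.2 + (s.1 + X * s.1) := by
    show s.2 + s.1 + X * s.1 = _
    ring
  rw [e]
  refine key_deg h ?_
  have hp : s.1 ≠ 0 := by
    intro e; rw [e, degree_zero] at h; exact not_lt_bot h
  have h1 : s.1.degree < (X * s.1).degree := by
    rw [deg_X_mul, degree_eq_natDegree hp]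
    exact_mod_cast Nat.lt_succ_self _
  rw [degree_add_eq_right_of_degree_lt h1]
  exact h1.le

lemma P1_sB {s : St} (h : ¬ P1 s) (h0 : s ≠ (0, 0)) : P1 (sB s) := by
  unfold P1 at h ⊢
  rw [not_lt] at h
  have hq : s.2 ≠ 0 := by
    intro e
    rw [e, degree_zero, le_bot_iff, degree_eq_bot] at h
    exact h0 (Prod.ext h e)
  have h1 : s.2.degree < (X * s.2).degree := by
    rw [deg_X_mul, degree_eq_natDegree hq]
    exact_mod_cast Nat.lt_succ_self _
  show s.2.degree < (s.1 + X * s.2).degree
  rw [degree_add_eq_right_of_degree_lt (lt_of_le_of_lt h h1)]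
  exact h1

/-- Reachable states. -/
inductive R : St → Prop
  | start : R (0, 1)
  | b {s : St} : R s → ¬ P1 s → R (sB s)
  | a {s : St} : R s → P1 s → R (sA s)
  | c {s : St} : R s → P1 s → R (sC s)
  | ac {s : St} : R s → P1 s → R (sA (sC s))

lemma sA_zero : sA (0, 0) = (0, 0) := by simp [sA]
lemma sB_zero : sB (0, 0) = (0, 0) := by simp [sB]
lemma sC_zero : sC (0, 0) = (0, 0) := by simp [sC]

lemma sA_ne {s : St} (h : s ≠ (0, 0)) : sA s ≠ (0, 0) := by
  intro e; apply h; rw [← sA_sA s, e, sA_zero]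
lemma sB_ne {s : St} (h : s ≠ (0, 0)) : sB s ≠ (0, 0) := by
  intro e; apply h; rw [← sB_sB s, e, sB_zero]
lemma sC_ne {s : St} (h : s ≠ (0, 0)) : sC s ≠ (0, 0) := by
  intro e; apply h; rw [← sC_sC s, e, sC_zero]

lemma R.ne {s : St} (h : R s) : s ≠ (0, 0) := by
  induction h with
  | start => intro e; exact one_ne_zero (congrArg Prod.snd e)
  | b _ _ ih => exact sB_ne ih
  | a _ _ ih => exact sA_ne ih
  | c _ _ ih => exact sC_ne ih
  | ac _ _ ih => exact sA_ne (sC_ne ih)

lemma not_P1_start : ¬ P1 ((0, 1) : St) := by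
  unfold P1
  simp

lemma sA_start : sA (0, 1) = (0, 1) := by simp [sA]
lemma sC_start : sC (0, 1) = (0, 1) := by simp [sC]

lemma R.A {s : St} (h : R s) : R (sA s) := by
  by_cases hp : P1 s
  · exact R.a h hp
  · cases h with
    | start => rw [sA_start]; exact R.start
    | b h' hp' => exact absurd (P1_sB hp' h'.ne) hp
    | a h' hp' => rw [sA_sA]; exact h'
    | c h' hp' => exact R.ac h' hp'
    | ac h' hp' => rw [sA_sA]; exact R.c h' hp'

lemma R.C {s : St} (h : R s) : R (sC s) := by
  by_cases hp : P1 s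
  · exact R.c h hp
  · cases h with
    | start => rw [sC_start]; exact R.start
    | b h' hp' => exact absurd (P1_sB hp' h'.ne) hp
    | a h' hp' => rw [sC_sA]; exact R.ac h' hp'
    | c h' hp' => rw [sC_sC]; exact h'
    | ac h' hp' => rw [sC_sA, sC_sC]; exact R.a h' hp'

lemma R.B {s : St} (h : R s) : R (sB s) := by
  by_cases hp : P1 s
  · cases h with
    | start => exact absurd hp not_P1_start
    | b h' hp' => rw [sB_sB]; exact h'
    | a h' hp' => exact absurd hp (P1_sA hp')
    | c h' hp' => exact absurd hp (P1_sC hp')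
    | ac h' hp' => exact absurd hp (P1_sAC hp')
  · exact R.b h hp

open Classical in
/-- The pointer layer. -/
noncomputable def TT (s : St) : Fin 3 := if P1 s then 2 else if P1 (sA s) then 1 else 0

lemma TT_two {s : St} (h : P1 s) : TT s = 2 := by simp [TT, h]

lemma TT_one {s : St} (h : P1 s) : TT (sA s) = 1 := by
  have h1 := P1_sA h
  simp [TT, h1, sA_sA, h]

lemma TT_zero {s : St} (h : P1 s) : TT (sC s) = 0 := by
  have h1 := P1_sC h
  have h2 := P1_sAC h
  simp [TT, h1, h2]

lemma TT_zero' {s : St} (h : P1 s) : TT (sA (sC s)) = 0 := by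
  have h1 := P1_sC h
  have h2 := P1_sAC h
  simp [TT, h1, h2, sA_sA]

lemma TT_start : TT (0, 1) = 0 := by
  simp [TT, not_P1_start, sA_start]

lemma rule1 {s : St} (h : R s) : TT (sB s) = 2 ∨ TT (sA s) = 1 := by
  by_cases hp : P1 s
  · exact Or.inr (TT_one hp)
  · exact Or.inl (TT_two (P1_sB hp h.ne))

lemma rule2 {s : St} (h : R s) : TT (sC s) = 0 ∨ TT (sC (sB s)) = 0 := by
  by_cases hp : P1 s
  · exact Or.inl (TT_zero hp)
  · exact Or.inr (TT_zero (P1_sB hp h.ne))

/-- The level relation. -/
inductive Lv : St → ℕ → Prop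
  | base {s : St} : TT s = 0 → Lv s 0
  | b {s : St} {n : ℕ} : TT s = 2 → Lv (sB s) n → Lv s (n + 1)
  | a {s : St} {n : ℕ} : TT s = 1 → Lv (sA s) n → Lv s (n + 1)

lemma Lv.unique {s : St} {n m : ℕ} (h : Lv s n) (k : Lv s m) : n = m := by
  induction h generalizing m with
  | base h0 =>
    cases k with
    | base _ => rfl
    | b h2 _ => rw [h0] at h2; exact absurd h2 (by decide)
    | a h1 _ => rw [h0] at h1; exact absurd h1 (by decide)
  | b h0 _ ih =>
    cases k with
    | base h2 => rw [h0] at h2; exact absurd h2 (by decide)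
    | b _ h3 => rw [ih h3]
    | a h1 _ => rw [h0] at h1; exact absurd h1 (by decide)
  | a h0 _ ih =>
    cases k with
    | base h2 => rw [h0] at h2; exact absurd h2 (by decide)
    | b h2 _ => rw [h0] at h2; exact absurd h2 (by decide)
    | a _ h3 => rw [ih h3]

lemma R.lv {s : St} (h : R s) : ∃ n, Lv s n := by
  induction h with
  | start => exact ⟨0, Lv.base TT_start⟩
  | @b s h' hp ih =>
    obtain ⟨n, hn⟩ := ih
    exact ⟨n + 1, Lv.b (TT_two (P1_sB hp h'.ne)) (by rw [sB_sB]; exact hn)⟩
  | a h' hp ih =>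
    obtain ⟨n, hn⟩ := ih
    exact ⟨n + 1, Lv.a (TT_one hp) (by rw [sA_sA]; exact hn)⟩
  | c h' hp _ => exact ⟨0, Lv.base (TT_zero hp)⟩
  | ac h' hp _ => exact ⟨0, Lv.base (TT_zero' hp)⟩

open Classical in
/-- The level. -/
noncomputable def lev (s : St) : ℕ := if h : ∃ n, Lv s n then h.choose else 0

lemma lev_eq {s : St} {n : ℕ} (h : Lv s n) : lev s = n := by
  have hex : ∃ n, Lv s n := ⟨n, h⟩
  rw [lev, dif_pos hex]
  exact hex.choose_spec.unique h

lemma lev_base {s : St} (h : TT s = 0) : lev s = 0 := lev_eq (Lv.base h)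

lemma lev_B {s : St} (hs : R s) (h : TT (sB s) = 2) : lev (sB s) = lev s + 1 := by
  obtain ⟨n, hn⟩ := hs.lv
  rw [lev_eq hn]
  exact lev_eq (Lv.b h (by rw [sB_sB]; exact hn))

lemma lev_A {s : St} (hs : R s) (h : TT (sA s) = 1) : lev (sA s) = lev s + 1 := by
  obtain ⟨n, hn⟩ := hs.lv
  rw [lev_eq hn]
  exact lev_eq (Lv.a h (by rw [sA_sA]; exact hn))

/-! ### The functionals -/

/-- The list of `n` zeros. -/
def zl (n : ℕ) : List ℕ := List.replicate n 0

/-- Evaluation against a polynomial. -/
noncomputable def E (f : V) (p : Pl) : ZMod 2 := p.sum (fun i c => c * f (zl i))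

lemma E_add (f : V) (p q : Pl) : E f (p + q) = E f p + E f q := by
  unfold E
  refine Polynomial.sum_add_index p q _ (fun i => by simp) (fun i a b => by ring)

lemma E_zero (f : V) : E f 0 = 0 := by
  unfold E
  exact Polynomial.sum_zero_index _

lemma E_monomial (f : V) (n : ℕ) (c : ZMod 2) : E f (monomial n c) = c * f (zl n) := by
  unfold E
  exact Polynomial.sum_monomial_index _ _ (by simp)

lemma E_add_left (f g : V) (p : Pl) : E (f + g) p = E f p + E g p := by
  induction p using Polynomial.induction_on' with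
  | add p q hp hq => rw [E_add, E_add, E_add, hp, hq]; ring
  | monomial n c =>
    rw [E_monomial, E_monomial, E_monomial, Pi.add_apply]; ring

lemma E_X (f : V) (p : Pl) : E (opX f) p = E f (X * p) := by
  induction p using Polynomial.induction_on' with
  | add p q hp hq => rw [E_add, mul_add, E_add, hp, hq]
  | monomial n c =>
    rw [X_mul_monomial, E_monomial, E_monomial]
    rfl

/-- The functional attached to a state. -/
noncomputable def Ph (s : St) (v : Fin 3 → V) : ZMod 2 := E (v 0) s.1 + E (v 1) s.2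

lemma Ph_A (s : St) (v : Fin 3 → V) : Ph s (pv 0 1 opX v) = Ph (sA s) v := by
  rw [pv_apply (by decide)]
  simp only [Ph, tv, sA, if_true]
  have h10 : ¬ ((1 : Fin 3) = 0) := by decide
  simp only [h10, if_false]
  rw [E_add_left, E_X, E_add]
  ring

lemma Ph_C (s : St) (v : Fin 3 → V) :
    Ph s (pv 0 1 (AddMonoidHom.id V) v) = Ph (sC s) v := by
  rw [pv_apply (by decide)]
  simp only [Ph, tv, sC, if_true]
  have h10 : ¬ ((1 : Fin 3) = 0) := by decide
  simp only [h10, if_false]
  rw [E_add_left, E_add]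
  simp only [AddMonoidHom.id_apply]
  ring

lemma Ph_B (s : St) (v : Fin 3 → V) : Ph s (pv 1 0 opX v) = Ph (sB s) v := by
  rw [pv_apply (by decide)]
  simp only [Ph, tv, sB, if_true]
  have h10 : ¬ ((0 : Fin 3) = 1) := by decide
  simp only [h10, if_false]
  rw [E_add_left, E_X, E_add]
  ring

lemma E_delta (n : ℕ) (p : Pl) : E (fun l => if l = zl n then 1 else 0) p = p.coeff n := by
  induction p using Polynomial.induction_on' with
  | add p q hp hq => rw [E_add, hp, hq, coeff_add]
  | monomial m c =>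
    rw [E_monomial, coeff_monomial]
    by_cases h : m = n
    · subst h; simp
    · have h' : zl m ≠ zl n := by
        intro e
        have := congrArg List.length e
        simp only [zl, List.length_replicate] at this
        exact h this
      simp [h, h']

lemma E_zero_left (p : Pl) : E 0 p = 0 := by
  have h := E_add_left 0 0 p
  rw [add_zero] at h
  exact left_eq_add.1 h

lemma Ph_inj {s s' : St} (h : ∀ v, Ph s v = Ph s' v) : s = s' := by
  ext n
  · have := h (fun i => if i = 0 then (fun l => if l = zl n then 1 else 0) else 0)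
    have h10 : ¬ ((1 : Fin 3) = 0) := by decide
    simp only [Ph, if_true, h10, if_false, E_zero_left, add_zero, E_delta] at this
    exact this
  · have := h (fun i => if i = 1 then (fun l => if l = zl n then 1 else 0) else 0)
    have h10 : ¬ ((0 : Fin 3) = 1) := by decide
    simp only [Ph, if_true, h10, if_false, E_zero_left, zero_add, E_delta] at this
    exact this

/-! ### The group elements -/

/-- `a = e_{01}(x)`. -/
def ga : GG := gens (gi 0 1 1)
/-- `b = e_{10}(x)`. -/
def gb : GG := gens (gi 1 0 1)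
/-- `c = e_{01}(1)`. -/
def gc : GG := gens (gi 0 1 0)

lemma repG_gens (g : Fin 36) : repG (gens g) = rho chi g := by
  rw [← ev_single, repG_ev, rw_single]

lemma repG_ga : repG ga = pv 0 1 opX := by
  rw [ga, repG_gens, rho_gi]; simp [op]
lemma repG_gb : repG gb = pv 1 0 opX := by
  rw [gb, repG_gens, rho_gi]; simp [op]
lemma repG_gc : repG gc = pv 0 1 (AddMonoidHom.id V) := by
  rw [gc, repG_gens, rho_gi]; simp [op]

lemma rep_inv {x : GG} {i j : Fin 3} {f : V →+ V} (h : repG x = pv i j f) :
    repG x⁻¹ = repG x := by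
  rw [map_inv, h]
  exact inv_eq_of_mul_eq_one_right (pv_sq f)

/-- The subgroup. -/
def HH : Subgroup GG := Subgroup.closure {ga, gb, gc}

lemma ga_mem : ga ∈ HH := Subgroup.subset_closure (by simp)
lemma gb_mem : gb ∈ HH := Subgroup.subset_closure (by simp)
lemma gc_mem : gc ∈ HH := Subgroup.subset_closure (by simp)

lemma exists_state {h : GG} (hh : h ∈ HH) :
    ∃ s : St, R s ∧ ∀ v, repG h v 1 [] = Ph s v := by
  unfold HH at hh
  have key : ∀ (g x : GG), x = ga ∨ x = gb ∨ x = gc →
      (∃ s : St, R s ∧ ∀ v, repG g v 1 [] = Ph s v) →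
      ∃ s : St, R s ∧ ∀ v, repG g (repG x v) 1 [] = Ph s v := by
    rintro g x hx ⟨s, hs, hv⟩
    rcases hx with rfl | rfl | rfl
    · exact ⟨sA s, hs.A, fun v => by rw [hv, repG_ga, Ph_A]⟩
    · exact ⟨sB s, hs.B, fun v => by rw [hv, repG_gb, Ph_B]⟩
    · exact ⟨sC s, hs.C, fun v => by rw [hv, repG_gc, Ph_C]⟩
  induction hh using Subgroup.closure_induction_right with
  | one =>
    refine ⟨(0, 1), R.start, fun v => ?_⟩
    rw [map_one, Equiv.Perm.one_apply]
    simp only [Ph, E_zero, zero_add]
    have : (1 : Pl) = monomial 0 1 := rfl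
    rw [this, E_monomial, one_mul]
    rfl
  | mul_right g _ x hg ih =>
    obtain ⟨s, hs, hv⟩ := key g x (by simpa using hg) ih
    exact ⟨s, hs, fun v => by rw [map_mul, Equiv.Perm.mul_apply]; exact hv v⟩
  | mul_inv_cancel g _ x hg ih =>
    obtain ⟨s, hs, hv⟩ := key g x (by simpa using hg) ih
    refine ⟨s, hs, fun v => ?_⟩
    have hg' : x = ga ∨ x = gb ∨ x = gc := by simpa using hg
    have : repG x⁻¹ = repG x := by
      rcases hg' with rfl | rfl | rfl
      · exact rep_inv repG_ga
      · exact rep_inv repG_gb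
      · exact rep_inv repG_gc
    rw [map_mul, Equiv.Perm.mul_apply, this]; exact hv v

/-- The `HH`-component. -/
noncomputable def hc (g : GG) : GG := (QuotientGroup.mk g : GG ⧸ HH).out⁻¹ * g

lemma hc_mem (g : GG) : hc g ∈ HH := by
  obtain ⟨h, hh⟩ := QuotientGroup.mk_out_eq_mul HH g
  rw [hc, hh, mul_inv_rev, mul_assoc, inv_mul_cancel, mul_one]
  exact HH.inv_mem h.2

lemma hc_mul (g x : GG) (hx : x ∈ HH) : hc (g * x) = hc g * x := by
  have h : (QuotientGroup.mk (g * x) : GG ⧸ HH) = QuotientGroup.mk g := by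
    rw [QuotientGroup.mk_mul_of_mem g hx]
  rw [hc, hc, h, mul_assoc]

/-- The state of a group element. -/
noncomputable def st (g : GG) : St := (exists_state (hc_mem g)).choose

lemma st_R (g : GG) : R (st g) := (exists_state (hc_mem g)).choose_spec.1
lemma st_Ph (g : GG) (v : Fin 3 → V) : repG (hc g) v 1 [] = Ph (st g) v :=
  (exists_state (hc_mem g)).choose_spec.2 v

lemma st_a (g : GG) : st (g * ga) = sA (st g) := by
  apply Ph_inj
  intro v
  rw [← st_Ph, hc_mul g ga ga_mem, map_mul, Equiv.Perm.mul_apply, st_Ph, repG_ga, Ph_A]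

lemma st_b (g : GG) : st (g * gb) = sB (st g) := by
  apply Ph_inj
  intro v
  rw [← st_Ph, hc_mul g gb gb_mem, map_mul, Equiv.Perm.mul_apply, st_Ph, repG_gb, Ph_B]

lemma st_c (g : GG) : st (g * gc) = sC (st g) := by
  apply Ph_inj
  intro v
  rw [← st_Ph, hc_mul g gc gc_mem, map_mul, Equiv.Perm.mul_apply, st_Ph, repG_gc, Ph_C]

end Pool.Agent.H715R3.Sof
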