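import Pool.Agent.H715R3.S1

set_option autoImplicit false

/-!
Local rules define subshifts of finite type; invariant points give periodic points.
-/

namespace Pool.Agent.H715R3.Sof

open Encodable

/-- Local rules define subshifts of finite type. -/
lemma isSFT_of_local {G : Type} [Group G] {k : ℕ} (D : Finset G) (P : (G → Fin k) → Prop)
    (hP : ∀ x x' : G → Fin k, (∀ d ∈ D, x d = x' d) → P x → P x') :
    IsSFT {x : G → Fin k | ∀ g, P (fun h => x (g * h))} := by
  classical
  let pat : (D → Fin k) → Finset (G × Fin k) := fun u => Finset.univ.image (fun d : D => (d.1, u d))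
  refine ⟨{p | ∃ u : D → Fin k, p = pat u ∧ ∀ x : G → Fin k, (∀ d : D, x d.1 = u d) → ¬ P x},
    ?_, ?_⟩
  · refine (Set.finite_range pat).subset ?_
    rintro p ⟨u, rfl, -⟩
    exact ⟨u, rfl⟩
  · ext x
    constructor
    · rintro hx p ⟨u, rfl, hu⟩ g hocc
      refine hu (fun h => x (g * h)) (fun d => ?_) (hx g)
      exact hocc (d.1, u d) (Finset.mem_image.2 ⟨d, Finset.mem_univ _, rfl⟩)
    · intro hx g
      by_contra hcon
      refine hx (pat (fun d : D => x (g * d.1))) ⟨_, rfl, ?_⟩ g ?_
      · intro x' hx' hP'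
        exact hcon (hP x' _ (fun d hd => hx' ⟨d, hd⟩) hP')
      · intro q hq
        obtain ⟨d, -, rfl⟩ := Finset.mem_image.1 hq
        rfl

/-- An invariant point of a subshift of finite type gives an invariant periodic point. -/
theorem exists_periodic {K : Type} [Group K] {k : ℕ} {X : Set (K × Multiplicative ℤ → Fin k)}
    (hX : IsSFT X) {x : K × Multiplicative ℤ → Fin k} (hx : x ∈ X)
    (hinv : ∀ g n, x (g, n) = x (1, n)) :
    ∃ x' ∈ X, ∃ p : ℤ, 0 < p ∧ ∀ g n, x' (g, Multiplicative.ofAdd (n + p)) =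
      x' (g, Multiplicative.ofAdd n) := by
  classical
  obtain ⟨F, hF, rfl⟩ := hX
  -- bound for the supports
  obtain ⟨N, hN⟩ : ∃ N : ℕ, ∀ p ∈ F, ∀ q ∈ p, (Multiplicative.toAdd q.1.2).natAbs ≤ N := by
    let S : Finset ((K × Multiplicative ℤ) × Fin k) := hF.toFinset.biUnion id
    refine ⟨S.sup (fun q => (Multiplicative.toAdd q.1.2).natAbs), fun p hp q hq => ?_⟩
    exact Finset.le_sup (f := fun q : (K × Multiplicative ℤ) × Fin k =>
      (Multiplicative.toAdd q.1.2).natAbs) (Finset.mem_biUnion.2 ⟨p, hF.mem_toFinset.2 hp, hq⟩)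
  let z : ℤ → Fin k := fun n => x (1, Multiplicative.ofAdd n)
  -- pigeonhole
  obtain ⟨i, j, hij, hw⟩ : ∃ i j : ℕ, i < j ∧
      (fun t : Fin (2 * N + 1) => z (i + t.val)) = fun t : Fin (2 * N + 1) => z (j + t.val) := by
    obtain ⟨a, b, hab, he⟩ := Finite.exists_ne_map_eq_of_infinite
      (fun i : ℕ => (fun t : Fin (2 * N + 1) => z (i + t.val)))
    rcases lt_or_gt_of_ne hab with h | h
    · exact ⟨a, b, h, he⟩
    · exact ⟨b, a, h, he.symm⟩
  set p : ℤ := (j : ℤ) - i with hp
  have hp0 : 0 < p := by omega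
  let z' : ℤ → Fin k := fun n => z (i + (n - i) % p)
  have hper : ∀ n, z' (n + p) = z' n := by
    intro n
    simp only [z']
    have : (n + p - i) % p = (n - i) % p := by
      have : n + p - i = n - i + p := by ring
      rw [this, Int.add_emod_right]
    rw [this]
  have hagree : ∀ m : ℕ, (m : ℤ) < p + (2 * N + 1) → z' (i + m) = z (i + m) := by
    intro m
    induction m using Nat.strong_induction_on with
    | _ m ih =>
      intro hm
      by_cases h : (m : ℤ) < p
      · simp only [z']
        have : ((i : ℤ) + m - i) % p = m := by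
          have : (i : ℤ) + m - i = m := by ring
          rw [this]
          exact Int.emod_eq_of_lt (by omega) h
        rw [this]
      · push Not at h
        obtain ⟨m', hm'⟩ : ∃ m' : ℕ, (m' : ℤ) = m - p := ⟨((m : ℤ) - p).toNat, by omega⟩
        have h1 : (i : ℤ) + m = (i + m') + p := by rw [hm']; ring
        rw [h1, hper, ih m' (by omega) (by omega)]
        have h2 := congrFun hw ⟨m', by omega⟩
        simp only at h2
        rw [h2]
        congr 1
        omega
  have hwin : ∀ n : ℤ, ∃ n' : ℤ, ∀ o : ℤ, o.natAbs ≤ N → z' (n + o) = z (n' + o) := by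
    intro n
    have hr0 := Int.emod_nonneg (n - N - i) hp0.ne'
    have hr1 := Int.emod_lt_of_pos (n - N - i) hp0
    have hr2 := Int.emod_add_mul_ediv (n - N - i) p
    set r := (n - N - i) % p with hr
    set q := (n - N - i) / p with hq
    refine ⟨i + r + N, fun o ho => ?_⟩
    obtain ⟨m, hm⟩ : ∃ m : ℕ, (m : ℤ) = r + N + o := ⟨(r + N + o).toNat, by omega⟩
    have h1 := hagree m (by omega)
    have h2 : (i : ℤ) + r + N + o = i + m := by rw [hm]; ring
    rw [h2, ← h1]
    simp only [z']
    have h3 : (n + o - i) % p = (i + m - i) % p := by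
      have : n + o - i = (i + m - i) + p * q := by
        rw [hm]; linear_combination -hr2
      rw [this, Int.add_mul_emod_self_left]
    rw [h3]
  refine ⟨fun g => z' (Multiplicative.toAdd g.2), ?_, p, hp0, fun g n => hper n⟩
  intro pt hpt g hocc
  obtain ⟨n', hn'⟩ := hwin (Multiplicative.toAdd g.2)
  refine hx pt hpt (1, Multiplicative.ofAdd n') ?_
  intro q hq
  have h1 := hocc q hq
  have h2 := hn' (Multiplicative.toAdd q.1.2) (hN pt hpt q hq)
  have h3 : x ((1, Multiplicative.ofAdd n') * q.1) = z (n' + Multiplicative.toAdd q.1.2) := by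
    simp only [z]
    exact hinv _ _
  rw [h3, ← h2]
  exact h1

end Pool.Agent.H715R3.Sof
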