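import Pool.Agent.H715R3.S2
import Pool.Agent.H715R3.S3

set_option autoImplicit false

/-!
The subshift of finite type and its sofic factor.
-/

namespace Pool.Agent.H715R3.Sof

open Encodable Pool.Agent.H715R3.Medv

/-! ### Arithmetic -/

lemma succ_ediv {d : ℤ} (hd : 0 < d) (n : ℤ) :
    (n + 1) / d = n / d + if d ∣ n + 1 then 1 else 0 := by
  by_cases h : d ∣ n + 1
  · rw [if_pos h]
    obtain ⟨q, hq⟩ := h
    have h1 : (n + 1) / d = q := by rw [hq]; exact Int.mul_ediv_cancel_left q hd.ne'
    have h2 : n / d = q - 1 := by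
      refine ((Int.ediv_emod_unique hd (a := n) (r := d - 1) (q := q - 1)).2 ⟨?_, ?_, ?_⟩).1
      · linear_combination -hq
      · omega
      · omega
    rw [h1, h2]; ring
  · rw [if_neg h]
    have h0 := Int.emod_nonneg n hd.ne'
    have h1 := Int.emod_lt_of_pos n hd
    have h2 := Int.emod_add_mul_ediv n d
    have h3 : n % d + 1 ≠ d := by
      intro e
      apply h
      refine ⟨n / d + 1, ?_⟩
      linear_combination (-1 : ℤ) * h2 + e
    have h4 := ((Int.ediv_emod_unique hd (a := n + 1) (r := n % d + 1) (q := n / d)).2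
      ⟨by linear_combination h2, by omega, by omega⟩).1
    rw [h4]; ring

lemma xor_decide_odd (a : ℤ) (P : Prop) [Decidable P] :
    decide ((a + if P then 1 else 0) % 2 = 1) = xor (decide (a % 2 = 1)) (decide P) := by
  by_cases h : P
  · simp only [h, if_true, decide_true, Bool.xor_true]
    by_cases h1 : a % 2 = 1
    · have : ¬ (a + 1) % 2 = 1 := by omega
      simp [h1, this]
    · have : (a + 1) % 2 = 1 := by omega
      simp [h1, this]
  · simp [h]

/-- The structure of the markers. -/
lemma markers {M W : ℕ → ℤ → Bool} (h0 : ∀ n, M 0 n = true)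
    (h1 : ∀ j n, M (j + 1) n = (M j n && !(W j n)))
    (h2 : ∀ j n, W j (n + 1) = xor (W j n) (M j (n + 1))) (j : ℕ) :
    ∃ c : ℤ, ∀ n, M j n = true ↔ (2 ^ j : ℤ) ∣ n - c := by
  induction j with
  | zero => exact ⟨0, fun n => by simp [h0]⟩
  | succ j ih =>
    obtain ⟨c, hc⟩ := ih
    have hd : (0 : ℤ) < 2 ^ j := by positivity
    have hW : ∀ m : ℤ, W j (c + m) = xor (W j c) (decide ((m / 2 ^ j) % 2 = 1)) := by
      have hstep : ∀ m : ℤ, xor (W j c) (decide (((m + 1) / 2 ^ j) % 2 = 1)) =
          xor (xor (W j c) (decide ((m / 2 ^ j) % 2 = 1))) (M j (c + (m + 1))) := by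
        intro m
        have e : M j (c + (m + 1)) = decide ((2 ^ j : ℤ) ∣ m + 1) := by
          rw [Bool.eq_iff_iff, hc, decide_eq_true_iff]
          have : c + (m + 1) - c = m + 1 := by ring
          rw [this]
        rw [e, succ_ediv hd, xor_decide_odd, Bool.xor_assoc]
      have hstep2 : ∀ m : ℤ, W j (c + (m + 1)) = xor (W j (c + m)) (M j (c + (m + 1))) := by
        intro m
        have := h2 j (c + m)
        rwa [add_assoc] at this
      intro m
      induction m using Int.induction_on with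
      | zero => simp
      | succ i ih => rw [hstep2, hstep, ih]
      | pred i ih =>
        have a1 := hstep2 (-(i : ℤ) - 1)
        have a2 := hstep (-(i : ℤ) - 1)
        have e : -(i : ℤ) - 1 + 1 = -i := by ring
        rw [e] at a1 a2
        rw [ih, a2] at a1
        revert a1
        cases M j (c + -(i : ℤ)) <;> cases W j (c + (-(i : ℤ) - 1)) <;>
          cases (xor (W j c) (decide ((-(i : ℤ) - 1) / 2 ^ j % 2 = 1))) <;> simp
    have hM : ∀ m : ℤ, M (j + 1) (c + m) = true ↔ (2 ^ j : ℤ) ∣ m ∧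
        (xor (W j c) (decide ((m / 2 ^ j) % 2 = 1))) = false := by
      intro m
      rw [h1, Bool.and_eq_true, hc, Bool.not_eq_true', hW]
      have : c + m - c = m := by ring
      rw [this]
    cases hWc : W j c with
    | false =>
      refine ⟨c, fun n => ?_⟩
      have := hM (n - c)
      rw [add_sub_cancel, hWc] at this
      rw [this]
      constructor
      · rintro ⟨⟨q, hq⟩, h⟩
        rw [hq, Int.mul_ediv_cancel_left q hd.ne'] at h
        simp only [Bool.false_xor, decide_eq_false_iff_not] at h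
        obtain ⟨r, hr⟩ : ∃ r, q = 2 * r := ⟨q / 2, by omega⟩
        exact ⟨r, by rw [hq, hr, pow_succ]; ring⟩
      · rintro ⟨r, hr⟩
        have hr' : n - c = 2 ^ j * (2 * r) := by rw [hr, pow_succ]; ring
        refine ⟨⟨2 * r, hr'⟩, ?_⟩
        rw [hr', Int.mul_ediv_cancel_left _ hd.ne']
        simp
    | true =>
      refine ⟨c + 2 ^ j, fun n => ?_⟩
      have := hM (n - c)
      rw [add_sub_cancel, hWc] at this
      rw [this]
      constructor
      · rintro ⟨⟨q, hq⟩, h⟩
        rw [hq, Int.mul_ediv_cancel_left q hd.ne'] at h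
        simp only [Bool.true_xor, Bool.not_eq_false', decide_eq_true_eq] at h
        obtain ⟨r, hr⟩ : ∃ r, q = 2 * r + 1 := ⟨q / 2, by omega⟩
        refine ⟨r, ?_⟩
        have : n - (c + 2 ^ j) = (n - c) - 2 ^ j := by ring
        rw [this, hq, hr, pow_succ]; ring
      · rintro ⟨r, hr⟩
        have hr' : n - c = 2 ^ j * (2 * r + 1) := by
          have : n - c = (n - (c + 2 ^ j)) + 2 ^ j := by ring
          rw [this, hr, pow_succ]; ring
        refine ⟨⟨2 * r + 1, hr'⟩, ?_⟩
        rw [hr', Int.mul_ediv_cancel_left _ hd.ne']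
        have : (2 * r + 1) % 2 = 1 := by omega
        simp [this]

/-- The marked sequence is not periodic. -/
lemma not_periodic {M W : ℕ → ℤ → Bool} {y : ℤ → Bool} (h0 : ∀ n, M 0 n = true)
    (h1 : ∀ j n, M (j + 1) n = (M j n && !(W j n)))
    (h2 : ∀ j n, W j (n + 1) = xor (W j n) (M j (n + 1)))
    (hy : ∀ j n, M j n = true → W j n = true → y n = decide (j % 2 = 1))
    {p : ℤ} (hp : 0 < p) (hper : ∀ n, y (n + p) = y n) : False := by
  obtain ⟨a, q, hq, hpa⟩ : ∃ (a : ℕ) (q : ℤ), q % 2 = 1 ∧ p = 2 ^ a * q := by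
    obtain ⟨P, hP⟩ : ∃ P : ℕ, (P : ℤ) = p := ⟨p.toNat, by omega⟩
    obtain ⟨a, m, hm, hPm⟩ := Nat.exists_eq_two_pow_mul_odd (n := P) (by omega)
    refine ⟨a, m, ?_, ?_⟩
    · obtain ⟨r, hr⟩ := hm; omega
    · rw [← hP, hPm]; push_cast; ring
  obtain ⟨c0, hc0⟩ := markers h0 h1 h2 a
  obtain ⟨c1, hc1⟩ := markers h0 h1 h2 (a + 1)
  obtain ⟨c2, hc2⟩ := markers h0 h1 h2 (a + 2)
  -- a position in `M (a+1)` but not in `M (a+2)`
  have hc2M : M (a + 2) c2 = true := (hc2 c2).2 (by simp)
  have hc21 : M (a + 1) c2 = true := by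
    have := h1 (a + 1) c2
    rw [hc2M] at this
    exact (Bool.and_eq_true _ _ ▸ this.symm : _ ∧ _).1
  set n : ℤ := c2 + 2 ^ (a + 1) with hn
  have hn1 : M (a + 1) n = true := by
    rw [hc1] at hc21 ⊢
    have : n - c1 = (c2 - c1) + 2 ^ (a + 1) := by rw [hn]; ring
    rw [this]
    exact dvd_add hc21 (dvd_refl _)
  have hd : (0 : ℤ) < 2 ^ (a + 1) := by positivity
  have hn2 : ¬ M (a + 2) n = true := by
    rw [hc2]
    have : n - c2 = 2 ^ (a + 1) := by rw [hn]; ring
    rw [this]
    rintro ⟨r, hr⟩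
    have : (2 : ℤ) ^ (a + 1) * 1 = 2 ^ (a + 1) * (2 * r) := by rw [mul_one]; nth_rw 1 [hr]; ring
    have := mul_left_cancel₀ hd.ne' this
    omega
  have hnW : W (a + 1) n = true := by
    have := h1 (a + 1) n
    rw [hn1, Bool.true_and] at this
    by_contra hW
    rw [Bool.not_eq_true] at hW
    rw [hW] at this
    exact hn2 this
  have hyn := hy (a + 1) n hn1 hnW
  -- the shifted position
  have hn0 : M a n = true := by
    have := h1 a n
    rw [hn1] at this
    exact (Bool.and_eq_true _ _ ▸ this.symm : _ ∧ _).1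
  have hp0 : M a (n + p) = true := by
    rw [hc0] at hn0 ⊢
    have : n + p - c0 = (n - c0) + 2 ^ a * q := by rw [hpa]; ring
    rw [this]
    exact dvd_add hn0 (dvd_mul_right _ _)
  have hp1 : ¬ M (a + 1) (n + p) = true := by
    rw [hc1] at hn1 ⊢
    intro h
    have h3 : (2 ^ (a + 1) : ℤ) ∣ 2 ^ a * q := by
      have e : (2 : ℤ) ^ a * q = (n + p - c1) - (n - c1) := by rw [hpa]; ring
      rw [e]
      exact dvd_sub h hn1
    obtain ⟨r, hr⟩ := h3
    have hda : (0 : ℤ) < 2 ^ a := by positivity
    have : (2 : ℤ) ^ a * q = 2 ^ a * (2 * r) := by rw [hr, pow_succ]; ring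
    have := mul_left_cancel₀ hda.ne' this
    omega
  have hpW : W a (n + p) = true := by
    have := h1 a (n + p)
    rw [hp0, Bool.true_and] at this
    by_contra hW
    rw [Bool.not_eq_true] at hW
    rw [hW] at this
    exact hp1 this
  have hyp := hy a (n + p) hp0 hpW
  rw [hper, hyn] at hyp
  rw [decide_eq_decide] at hyp
  omega

/-! ### The alphabet and the rule -/

/-- Symbols: pointer, parity, marker, odometer, output. -/
abbrev Al : Type := Fin 3 × Bool × Bool × Bool × Bool

/-- Pointer. -/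
def aT (s : Al) : Fin 3 := s.1
/-- Parity. -/
def aP (s : Al) : Bool := s.2.1
/-- Marker. -/
def aM (s : Al) : Bool := s.2.2.1
/-- Odometer. -/
def aW (s : Al) : Bool := s.2.2.2.1
/-- Output. -/
def aY (s : Al) : Bool := s.2.2.2.2

/-- Coding of the alphabet. -/
noncomputable def eA : Al ≃ Fin (Fintype.card Al) := Fintype.equivFin Al

/-- `a`, `b`, `c` and the central generator in the product. -/
def a2 : G2 := (ga, 1)
/-- `b`. -/
def b2 : G2 := (gb, 1)
/-- `c`. -/
def c2 : G2 := (gc, 1)
/-- Central generator. -/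
def z2 : G2 := (1, Multiplicative.ofAdd 1)

/-- The local rule. -/
structure Rule (x : G2 → Al) : Prop where
  inv : ∀ i : Fin 36, aY (x (gens i, 1)) = aY (x 1)
  next : aT (x b2) = 2 ∨ aT (x a2) = 1
  base : aT (x c2) = 0 ∨ aT (x (b2 * c2)) = 0
  zT : aT (x z2) = aT (x 1)
  zP : aP (x z2) = aP (x 1)
  r0 : aT (x 1) = 0 → aM (x 1) = true ∧ aP (x 1) = false
  r1 : aT (x a2) = 1 → aM (x a2) = (aM (x 1) && !(aW (x 1))) ∧ aP (x a2) = !(aP (x 1))
  r2 : aT (x b2) = 2 → aM (x b2) = (aM (x 1) && !(aW (x 1))) ∧ aP (x b2) = !(aP (x 1))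
  w : aW (x z2) = xor (aW (x 1)) (aM (x z2))
  out : aM (x 1) = true → aW (x 1) = true → aY (x 1) = aP (x 1)

/-- The finite window. -/
noncomputable def DD : Finset G2 := by
  classical
  exact {1, a2, b2, c2, b2 * c2, z2} ∪ Finset.univ.image (fun i : Fin 36 => ((gens i, 1) : G2))

lemma Rule.congr {x x' : G2 → Al} (h : ∀ d ∈ DD, x d = x' d) (hx : Rule x) : Rule x' := by
  classical
  have e1 : x 1 = x' 1 := h _ (by simp [DD])
  have ea : x a2 = x' a2 := h _ (by simp [DD])
  have eb : x b2 = x' b2 := h _ (by simp [DD])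
  have ec : x c2 = x' c2 := h _ (by simp [DD])
  have ebc : x (b2 * c2) = x' (b2 * c2) := h _ (by simp [DD])
  have ez : x z2 = x' z2 := h _ (by simp [DD])
  have eg : ∀ i : Fin 36, x (gens i, 1) = x' (gens i, 1) := fun i => h _ (by
    unfold DD
    rw [Finset.mem_union]
    exact Or.inr (Finset.mem_image.2 ⟨i, Finset.mem_univ _, rfl⟩))
  constructor
  · intro i; rw [← eg, ← e1]; exact hx.inv i
  · rw [← ea, ← eb]; exact hx.next
  · rw [← ec, ← ebc]; exact hx.base
  · rw [← ez, ← e1]; exact hx.zT
  · rw [← ez, ← e1]; exact hx.zP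
  · rw [← e1]; exact hx.r0
  · rw [← ea, ← e1]; exact hx.r1
  · rw [← eb, ← e1]; exact hx.r2
  · rw [← ez, ← e1]; exact hx.w
  · rw [← e1]; exact hx.out

/-- The subshift of finite type. -/
def XX : Set (G2 → Fin (Fintype.card Al)) :=
  {x | ∀ g, Rule (fun h => eA.symm (x (g * h)))}

lemma XX_sft : IsSFT XX :=
  isSFT_of_local DD (fun x => Rule (fun h => eA.symm (x h))) (by
    intro x x' h hx
    exact Rule.congr (fun d hd => by rw [h d hd]) hx)

/-- The output map on symbols. -/
noncomputable def outS (s : Fin (Fintype.card Al)) : Fin 2 := if aY (eA.symm s) then 1 else 0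

/-- The sofic subshift. -/
def YY : Set (G2 → Fin 2) := {y | ∃ x ∈ XX, y = fun g => outS (x g)}

lemma YY_sofic : IsSofic YY := by
  refine ⟨Fintype.card Al, XX, fun x g => outS (x.1 g), XX_sft, ?_, ?_, ?_⟩
  · refine continuous_pi fun g => ?_
    have h1 : Continuous (fun x : XX => x.1 g) := (continuous_apply g).comp continuous_subtype_val
    exact (continuous_of_discreteTopology (f := outS)).comp h1
  · intro g x x' h
    funext t
    show outS (x'.1 t) = outS (x.1 (g⁻¹ * t))
    rw [h]
    rfl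
  · ext y
    constructor
    · rintro ⟨x, rfl⟩
      exact ⟨x.1, x.2, rfl⟩
    · rintro ⟨x, hx, rfl⟩
      exact ⟨⟨x, hx⟩, rfl⟩

/-- No point of the sofic subshift is periodic in the central direction. -/
theorem YY_aperiodic {y : G2 → Fin 2} (hy : y ∈ YY) {p : ℤ} (hp : 0 < p)
    (hper : ∀ g n, y (g, Multiplicative.ofAdd (n + p)) = y (g, Multiplicative.ofAdd n)) :
    False := by
  obtain ⟨x, hx, rfl⟩ := hy
  let X : GG → ℤ → Al := fun g n => eA.symm (x (g, Multiplicative.ofAdd n))
  have hr : ∀ g n, Rule (fun h => eA.symm (x ((g, Multiplicative.ofAdd n) * h))) :=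
    fun g n => hx _
  have hz : ∀ (g : GG) (n : ℤ), ((g, Multiplicative.ofAdd n) : G2) * z2 =
      (g, Multiplicative.ofAdd (n + 1)) := by
    intro g n
    simp [z2, Prod.mk_mul_mk, ofAdd_add]
  have hone : ∀ (g : GG) (n : ℤ), ((g, Multiplicative.ofAdd n) : G2) * 1 =
      (g, Multiplicative.ofAdd n) := fun g n => mul_one _
  have hmul : ∀ (g h : GG) (n : ℤ), ((g, Multiplicative.ofAdd n) : G2) * (h, 1) =
      (g * h, Multiplicative.ofAdd n) := by
    intro g h n
    simp [Prod.mk_mul_mk]
  have hbc : b2 * c2 = ((gb * gc, 1) : G2) := by simp [b2, c2]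
  -- translated rules
  have rinv : ∀ g n (i : Fin 36), aY (X (g * gens i) n) = aY (X g n) := by
    intro g n i
    have := (hr g n).inv i
    rw [hmul, hone] at this
    exact this
  have rnext : ∀ g n, aT (X (g * gb) n) = 2 ∨ aT (X (g * ga) n) = 1 := by
    intro g n
    have := (hr g n).next
    rw [a2, b2, hmul, hmul] at this
    exact this
  have rbase : ∀ g n, aT (X (g * gc) n) = 0 ∨ aT (X (g * (gb * gc)) n) = 0 := by
    intro g n
    have := (hr g n).base
    rw [hbc, c2, hmul, hmul] at this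
    exact this
  have rzT : ∀ g n, aT (X g (n + 1)) = aT (X g n) := by
    intro g n
    have := (hr g n).zT
    rw [hz, hone] at this
    exact this
  have rzP : ∀ g n, aP (X g (n + 1)) = aP (X g n) := by
    intro g n
    have := (hr g n).zP
    rw [hz, hone] at this
    exact this
  have rb0 : ∀ g n, aT (X g n) = 0 → aM (X g n) = true ∧ aP (X g n) = false := by
    intro g n
    have := (hr g n).r0
    rw [hone] at this
    exact this
  have rb1 : ∀ g n, aT (X (g * ga) n) = 1 → aM (X (g * ga) n) = (aM (X g n) && !(aW (X g n))) ∧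
      aP (X (g * ga) n) = !(aP (X g n)) := by
    intro g n
    have := (hr g n).r1
    rw [hone, a2, hmul] at this
    exact this
  have rb2 : ∀ g n, aT (X (g * gb) n) = 2 → aM (X (g * gb) n) = (aM (X g n) && !(aW (X g n))) ∧
      aP (X (g * gb) n) = !(aP (X g n)) := by
    intro g n
    have := (hr g n).r2
    rw [hone, b2, hmul] at this
    exact this
  have rw1 : ∀ g n, aW (X g (n + 1)) = xor (aW (X g n)) (aM (X g (n + 1))) := by
    intro g n
    have := (hr g n).w
    rw [hz, hone] at this
    exact this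
  have rout : ∀ g n, aM (X g n) = true → aW (X g n) = true → aY (X g n) = aP (X g n) := by
    intro g n
    have := (hr g n).out
    rw [hone] at this
    exact this
  have constZ : ∀ {α : Type} (f : ℤ → α), (∀ n, f (n + 1) = f n) → ∀ n, f n = f 0 := by
    intro α f hf n
    induction n using Int.induction_on with
    | zero => rfl
    | succ i ih => rw [hf, ih]
    | pred i ih =>
      rw [← ih]
      have := hf (-(i : ℤ) - 1)
      rw [sub_add_cancel] at this
      exact this.symm
  have cT : ∀ g n, aT (X g n) = aT (X g 0) := fun g => constZ _ (rzT g)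
  have cP : ∀ g n, aP (X g n) = aP (X g 0) := fun g => constZ _ (rzP g)
  have cY : ∀ g n, aY (X g n) = aY (X 1 n) := fun g n => const_of_gens (fun g => aY (X g n))
    (fun g s => (rinv g n s).symm) g
  -- the chain
  obtain ⟨k0, hk0⟩ : ∃ k0, aT (X k0 0) = 0 := by
    rcases rbase 1 0 with h | h
    · exact ⟨_, h⟩
    · exact ⟨_, h⟩
  have hnext : ∀ g : GG, ∃ g' : GG, ∀ n, aM (X g' n) = (aM (X g n) && !(aW (X g n))) ∧
      aP (X g' n) = !(aP (X g n)) := by
    intro g
    rcases rnext g 0 with h | h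
    · exact ⟨g * gb, fun n => rb2 g n (by rw [cT]; exact h)⟩
    · exact ⟨g * ga, fun n => rb1 g n (by rw [cT]; exact h)⟩
  choose nx hnx using hnext
  let ch : ℕ → GG := fun j => Nat.rec k0 (fun _ g => nx g) j
  have ch1 : ∀ j, ch (j + 1) = nx (ch j) := fun j => rfl
  have hpar : ∀ j n, aP (X (ch j) n) = decide (j % 2 = 1) := by
    intro j n
    induction j with
    | zero =>
      have := (rb0 k0 n (by rw [cT]; exact hk0)).2
      exact this
    | succ j ih =>
      rw [ch1, (hnx (ch j) n).2, ih]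
      by_cases h : j % 2 = 1
      · have : ¬ (j + 1) % 2 = 1 := by omega
        simp [h, this]
      · have : (j + 1) % 2 = 1 := by omega
        simp [h, this]
  refine not_periodic (M := fun j n => aM (X (ch j) n)) (W := fun j n => aW (X (ch j) n))
    (y := fun n => aY (X 1 n)) ?_ ?_ ?_ ?_ hp ?_
  · intro n
    exact (rb0 k0 n (by rw [cT]; exact hk0)).1
  · intro j n
    show aM (X (ch (j + 1)) n) = _
    rw [ch1]
    exact (hnx (ch j) n).1
  · intro j n
    exact rw1 _ _
  · intro j n hM hW
    show aY (X 1 n) = _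
    rw [← cY (ch j) n, rout (ch j) n hM hW, hpar]
  · intro n
    have := hper 1 n
    simp only [outS] at this
    by_cases h1 : aY (X 1 (n + p)) = true
    · by_cases h2 : aY (X 1 n) = true
      · show aY (X 1 (n + p)) = aY (X 1 n)
        rw [h1, h2]
      · exfalso
        have h1' : aY (eA.symm (x (1, Multiplicative.ofAdd (n + p)))) = true := h1
        have h2' : ¬ aY (eA.symm (x (1, Multiplicative.ofAdd n))) = true := h2
        rw [if_pos h1', if_neg h2'] at this
        exact absurd this (by decide)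
    · by_cases h2 : aY (X 1 n) = true
      · exfalso
        have h1' : ¬ aY (eA.symm (x (1, Multiplicative.ofAdd (n + p)))) = true := h1
        have h2' : aY (eA.symm (x (1, Multiplicative.ofAdd n))) = true := h2
        rw [if_neg h1', if_pos h2'] at this
        exact absurd this (by decide)
      · show aY (X 1 (n + p)) = aY (X 1 n)
        rw [Bool.not_eq_true] at h1 h2
        rw [h1, h2]

end Pool.Agent.H715R3.Sof
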