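import Pool.Agent.H715R3.S4

set_option autoImplicit false

/-!
A computable point of the sofic subshift; subshifts of finite type above it have none.
-/

namespace Pool.Agent.H715R3.Sof

open Encodable Pool.Agent.H715R3.Medv

/-- The output sequence: parity of the 2-adic valuation. -/
def yv (n : ℕ) : Bool := decide (∃ j < n, j % 2 = 1 ∧ n % 2 ^ j = 0 ∧ ¬ n % 2 ^ (j + 1) = 0)

lemma yv_primrec : Primrec yv := by
  have h : PrimrecRel (fun (j n : ℕ) => j % 2 = 1 ∧ n % 2 ^ j = 0 ∧ ¬ n % 2 ^ (j + 1) = 0) := by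
    have hp : Primrec (fun p : ℕ × ℕ => 2 ^ p.1) :=
      pow_primrec.comp ((Primrec.const 2).pair Primrec.fst)
    have hp1 : Primrec (fun p : ℕ × ℕ => 2 ^ (p.1 + 1)) :=
      pow_primrec.comp ((Primrec.const 2).pair (Primrec.succ.comp Primrec.fst))
    refine PrimrecPred.and ?_ (PrimrecPred.and ?_ ?_)
    · exact Primrec.eq.comp (Primrec.nat_mod.comp Primrec.fst (Primrec.const 2)) (Primrec.const 1)
    · exact Primrec.eq.comp (Primrec.nat_mod.comp Primrec.snd hp) (Primrec.const 0)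
    · exact (Primrec.eq.comp (Primrec.nat_mod.comp Primrec.snd hp1) (Primrec.const 0)).not
  exact (bex h Primrec.id).decide

lemma yv_spec {n : ℤ} {L : ℕ} (h1 : (2 ^ L : ℤ) ∣ n) (h2 : (n / 2 ^ L) % 2 = 1) :
    yv n.natAbs = decide (L % 2 = 1) := by
  have hd : (0 : ℤ) < 2 ^ L := by positivity
  obtain ⟨i, hi⟩ := h1
  rw [hi, Int.mul_ediv_cancel_left i hd.ne'] at h2
  have hN : n.natAbs = 2 ^ L * i.natAbs := by
    rw [hi, Int.natAbs_mul, Int.natAbs_pow]; rfl
  have hodd : i.natAbs % 2 = 1 := by omega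
  have hdvd : n.natAbs % 2 ^ L = 0 := by rw [hN]; exact Nat.mul_mod_right _ _
  have hnd : ¬ n.natAbs % 2 ^ (L + 1) = 0 := by
    intro h
    have h3 := Nat.dvd_of_mod_eq_zero h
    rw [hN, pow_succ] at h3
    have h4 := Nat.dvd_of_mul_dvd_mul_left (by positivity : 0 < 2 ^ L) h3
    omega
  have hlt : L < n.natAbs := by
    have h5 : L < 2 ^ L := Nat.lt_two_pow_self
    have h6 : 2 ^ L * 1 ≤ 2 ^ L * i.natAbs := Nat.mul_le_mul_left _ (by omega)
    omega
  unfold yv
  rw [decide_eq_decide]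
  constructor
  · rintro ⟨j, -, hj1, hj2, hj3⟩
    rcases lt_trichotomy j L with h | h | h
    · exfalso
      apply hj3
      apply Nat.mod_eq_zero_of_dvd
      exact (pow_dvd_pow 2 (by omega)).trans (Nat.dvd_of_mod_eq_zero hdvd)
    · rwa [← h]
    · exfalso
      apply hnd
      apply Nat.mod_eq_zero_of_dvd
      exact (pow_dvd_pow 2 (by omega)).trans (Nat.dvd_of_mod_eq_zero hj2)
  · intro h
    exact ⟨L, hlt, h, hdvd, hnd⟩

/-- The symbol at a position. -/
noncomputable def x0 (g : GG) (n : ℤ) : Al :=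
  (TT (st g), decide (lev (st g) % 2 = 1), decide ((2 ^ lev (st g) : ℤ) ∣ n),
    decide ((n / 2 ^ lev (st g)) % 2 = 1), yv n.natAbs)

lemma next_level (L : ℕ) (n : ℤ) : decide ((2 ^ (L + 1) : ℤ) ∣ n) =
    (decide ((2 ^ L : ℤ) ∣ n) && !decide ((n / 2 ^ L) % 2 = 1)) := by
  have hd : (0 : ℤ) < 2 ^ L := by positivity
  rw [Bool.eq_iff_iff, Bool.and_eq_true, decide_eq_true_iff, decide_eq_true_iff,
    Bool.not_eq_true', decide_eq_false_iff_not]
  constructor
  · rintro ⟨r, hr⟩
    have hr' : n = 2 ^ L * (2 * r) := by rw [hr, pow_succ]; ring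
    refine ⟨⟨_, hr'⟩, ?_⟩
    rw [hr', Int.mul_ediv_cancel_left _ hd.ne']
    omega
  · rintro ⟨⟨q, hq⟩, h⟩
    rw [hq, Int.mul_ediv_cancel_left q hd.ne'] at h
    obtain ⟨r, hr⟩ : ∃ r, q = 2 * r := ⟨q / 2, by omega⟩
    exact ⟨r, by rw [hq, hr, pow_succ]; ring⟩

lemma decide_succ_odd (L : ℕ) : decide ((L + 1) % 2 = 1) = !decide (L % 2 = 1) := by
  by_cases h : L % 2 = 1
  · have : ¬ (L + 1) % 2 = 1 := by omega
    simp [h, this]
  · have : (L + 1) % 2 = 1 := by omega
    simp [h, this]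

lemma aT_x0 (g : GG) (n : ℤ) : aT (x0 g n) = TT (st g) := rfl
lemma aP_x0 (g : GG) (n : ℤ) : aP (x0 g n) = decide (lev (st g) % 2 = 1) := rfl
lemma aM_x0 (g : GG) (n : ℤ) : aM (x0 g n) = decide ((2 ^ lev (st g) : ℤ) ∣ n) := rfl
lemma aW_x0 (g : GG) (n : ℤ) : aW (x0 g n) = decide ((n / 2 ^ lev (st g)) % 2 = 1) := rfl
lemma aY_x0 (g : GG) (n : ℤ) : aY (x0 g n) = yv n.natAbs := rfl

lemma b2c2 : b2 * c2 = ((gb * gc, 1) : G2) := by
  unfold b2 c2
  rw [Prod.mk_mul_mk, mul_one]

lemma rule_x0 (g : GG) (n : ℤ) :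
    Rule (fun h : G2 => x0 (g * h.1) (n + Multiplicative.toAdd h.2)) := by
  have hs := st_R g
  constructor
  · intro i
    simp only [aY_x0, Prod.snd_one]
  · simp only [aT_x0, b2, a2, st_a, st_b]
    exact rule1 hs
  · rw [b2c2]
    simp only [aT_x0, c2, ← mul_assoc, st_c, st_b]
    exact rule2 hs
  · simp only [aT_x0, z2, Prod.fst_one]
  · simp only [aP_x0, z2, Prod.fst_one]
  · simp only [aT_x0, aM_x0, aP_x0, Prod.fst_one, Prod.snd_one, mul_one]
    intro h
    rw [lev_base h]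
    constructor
    · simp
    · simp
  · simp only [aT_x0, aM_x0, aP_x0, aW_x0, a2, st_a, Prod.fst_one, Prod.snd_one, mul_one]
    intro h
    rw [lev_A hs h]
    exact ⟨next_level _ _, decide_succ_odd _⟩
  · simp only [aT_x0, aM_x0, aP_x0, aW_x0, b2, st_b, Prod.fst_one, Prod.snd_one, mul_one]
    intro h
    rw [lev_B hs h]
    exact ⟨next_level _ _, decide_succ_odd _⟩
  · simp only [aM_x0, aW_x0, z2, Prod.fst_one, Prod.snd_one, mul_one, toAdd_ofAdd, toAdd_one,
      add_zero]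
    rw [succ_ediv (by positivity), xor_decide_odd]
  · simp only [aY_x0, aM_x0, aP_x0, aW_x0, Prod.fst_one, Prod.snd_one, mul_one, toAdd_one,
      add_zero]
    intro hM hW
    rw [decide_eq_true_iff] at hM hW
    exact yv_spec hM hW

/-- The configuration. -/
noncomputable def xx (t : G2) : Fin (Fintype.card Al) := eA (x0 t.1 (Multiplicative.toAdd t.2))

lemma eA_xx (t : G2) : eA.symm (xx t) = x0 t.1 (Multiplicative.toAdd t.2) :=
  Equiv.symm_apply_apply _ _

lemma xx_mem : xx ∈ XX := by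
  intro t
  have h : (fun h : G2 => eA.symm (xx (t * h))) =
      fun h : G2 => x0 (t.1 * h.1) (Multiplicative.toAdd t.2 + Multiplicative.toAdd h.2) := by
    funext h
    rw [eA_xx, Prod.fst_mul, Prod.snd_mul, toAdd_mul]
  rw [h]
  exact rule_x0 _ _

/-- The point of the sofic subshift. -/
noncomputable def yy (t : G2) : Fin 2 := if yv (Multiplicative.toAdd t.2).natAbs then 1 else 0

lemma yy_mem : yy ∈ YY := by
  refine ⟨xx, xx_mem, ?_⟩
  funext t
  simp only [yy, outS, xx, Equiv.symm_apply_apply]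
  rfl

/-- Exponent counts. -/
def zs (w : Wd2) : ℕ × ℕ := w.foldr (fun p acc =>
  if p.1 = zt then (bif p.2 then (acc.1 + 1, acc.2) else (acc.1, acc.2 + 1)) else acc) (0, 0)

lemma zs_primrec : Primrec zs := by
  have hh : Primrec₂ (fun (_ : Wd2) (q : (Fin 37 × Bool) × (ℕ × ℕ)) =>
      if q.1.1 = zt then (bif q.1.2 then (q.2.1 + 1, q.2.2) else (q.2.1, q.2.2 + 1)) else q.2) := by
    have p1 : Primrec (fun a : Wd2 × ((Fin 37 × Bool) × (ℕ × ℕ)) => a.2.1.1) :=
      Primrec.fst.comp (Primrec.fst.comp Primrec.snd)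
    have p2 : Primrec (fun a : Wd2 × ((Fin 37 × Bool) × (ℕ × ℕ)) => a.2.1.2) :=
      Primrec.snd.comp (Primrec.fst.comp Primrec.snd)
    have p3 : Primrec (fun a : Wd2 × ((Fin 37 × Bool) × (ℕ × ℕ)) => a.2.2.1) :=
      Primrec.fst.comp (Primrec.snd.comp Primrec.snd)
    have p4 : Primrec (fun a : Wd2 × ((Fin 37 × Bool) × (ℕ × ℕ)) => a.2.2.2) :=
      Primrec.snd.comp (Primrec.snd.comp Primrec.snd)
    refine Primrec.ite (Primrec.eq.comp p1 (Primrec.const zt)) ?_ (Primrec.snd.comp Primrec.snd)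
    exact Primrec.cond p2 ((Primrec.succ.comp p3).pair p4) (p3.pair (Primrec.succ.comp p4))
  exact Primrec.list_foldr Primrec.id (Primrec.const (0, 0)) hh

lemma zs_spec (w : Wd2) : Multiplicative.toAdd (wordVal gens2 w).2 = ((zs w).1 : ℤ) - (zs w).2 := by
  induction w with
  | nil => simp [wordVal, zs]
  | cons p w ih =>
    have h1 : wordVal gens2 (p :: w) = cond p.2 (gens2 p.1) (gens2 p.1)⁻¹ * wordVal gens2 w := by
      simp [wordVal]
    have h2 : zs (p :: w) = if p.1 = zt then (bif p.2 then ((zs w).1 + 1, (zs w).2) else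
        ((zs w).1, (zs w).2 + 1)) else zs w := rfl
    rw [h1, h2, Prod.snd_mul, toAdd_mul, ih]
    obtain ⟨i, b⟩ := p
    rcases fin37_cases i with ⟨j, rfl⟩ | rfl
    · have hne : emb j ≠ zt := by
        intro e
        have := congrArg Fin.val e
        simp only [emb, zt, Fin.val_castSucc] at this
        have := j.2
        omega
      cases b
      · simp [gens2_emb, hne]
      · simp [gens2_emb, hne]
    · cases b
      · simp [gens2_zt]; ring
      · simp [gens2_zt]; ring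

/-- Computable function representing the point. -/
lemma yy_computable : ∃ y ∈ pull gens2 YY, Computable y := by
  let y : ℕ → ℕ := fun n => (decode n : Option (List (Fin 37 × Bool))).elim 0
    (fun w => (yy (wordVal gens2 w)).val)
  refine ⟨y, ⟨yy, yy_mem, fun n => rfl⟩, ?_⟩
  have h1 : Primrec (fun w : Wd2 => ((zs w).1 - (zs w).2) + ((zs w).2 - (zs w).1)) :=
    Primrec.nat_add.comp
      (Primrec.nat_sub.comp (Primrec.fst.comp zs_primrec) (Primrec.snd.comp zs_primrec))
      (Primrec.nat_sub.comp (Primrec.snd.comp zs_primrec) (Primrec.fst.comp zs_primrec))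
  have h2 : Primrec (fun w : Wd2 => bif yv (((zs w).1 - (zs w).2) + ((zs w).2 - (zs w).1))
      then 1 else 0) :=
    Primrec.cond (yv_primrec.comp h1) (Primrec.const 1) (Primrec.const 0)
  have h3 : ∀ w : Wd2, (bif yv (((zs w).1 - (zs w).2) + ((zs w).2 - (zs w).1)) then 1 else 0) =
      (yy (wordVal gens2 w)).val := by
    intro w
    have e : (Multiplicative.toAdd (wordVal gens2 w).2).natAbs =
        ((zs w).1 - (zs w).2) + ((zs w).2 - (zs w).1) := by
      rw [zs_spec]; omega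
    simp only [yy, e]
    cases yv (((zs w).1 - (zs w).2) + ((zs w).2 - (zs w).1)) <;> rfl
  have h4 : Primrec (fun w : Wd2 => (yy (wordVal gens2 w)).val) := h2.of_eq h3
  have hd : Primrec (fun n : ℕ => (decode n : Option (List (Fin 37 × Bool)))) := Primrec.decode
  have h5 : Primrec₂ (fun (_ : ℕ) (w : Wd2) => (yy (wordVal gens2 w)).val) :=
    (h4.comp Primrec.snd).to₂
  refine (Primrec.of_eq (Primrec.option_casesOn hd (Primrec.const 0) h5) ?_).to_comp
  intro n
  simp only [y]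
  cases (decode n : Option (List (Fin 37 × Bool))) <;> rfl

/-- No subshift of finite type mapping to the sofic subshift has a computable point. -/
theorem no_computable_point {k : ℕ} {X : Set (G2 → Fin k)} {φ : X → (G2 → Fin 2)}
    (hX : IsSFT X) (hφ : IsFactorMap X YY φ) {v : ℕ → ℕ} (hv : v ∈ pull gens2 X) :
    ¬ Computable v := by
  intro hc
  obtain ⟨x, hx, hxv⟩ := hv
  have hcx : Computable (fun w : Wd2 => (x (wordVal gens2 w)).val) := by
    refine Computable.of_eq (hc.comp Computable.encode) ?_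
    intro w
    rw [hxv, Encodable.encodek]
    rfl
  obtain ⟨x', hx', p, hp, hper⟩ := exists_periodic hX hx (fun g n => inv_of_computable x hcx g n)
  obtain ⟨-, heq, hran⟩ := hφ
  have h1 : φ ⟨x', hx'⟩ ∈ YY := by rw [← hran]; exact ⟨_, rfl⟩
  refine YY_aperiodic h1 hp (fun g n => ?_)
  have h2 := heq (1, Multiplicative.ofAdd (-p)) ⟨x', hx'⟩ ⟨x', hx'⟩ (by
    funext t
    obtain ⟨h, m, rfl⟩ : ∃ (h : GG) (m : ℤ), t = (h, Multiplicative.ofAdd m) :=
      ⟨t.1, Multiplicative.toAdd t.2, rfl⟩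
    show x' (h, Multiplicative.ofAdd m) = x' ((1, Multiplicative.ofAdd (-p))⁻¹ *
      (h, Multiplicative.ofAdd m))
    have e : ((1, Multiplicative.ofAdd (-p)) : G2)⁻¹ * (h, Multiplicative.ofAdd m) =
        (h, Multiplicative.ofAdd (m + p)) := by
      simp only [Prod.inv_mk, inv_one, Prod.mk_mul_mk, one_mul]
      rw [← ofAdd_neg, neg_neg, ← ofAdd_add, add_comm]
    rw [e, hper])
  have h3 := congrFun h2 (g, Multiplicative.ofAdd n)
  rw [h3]
  show _ = φ ⟨x', hx'⟩ ((1, Multiplicative.ofAdd (-p))⁻¹ * (g, Multiplicative.ofAdd n))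
  have e : ((1, Multiplicative.ofAdd (-p)) : G2)⁻¹ * (g, Multiplicative.ofAdd n) =
      (g, Multiplicative.ofAdd (n + p)) := by
    simp only [Prod.inv_mk, inv_one, Prod.mk_mul_mk, one_mul]
    rw [← ofAdd_neg, neg_neg, ← ofAdd_add, add_comm]
  rw [e]

end Pool.Agent.H715R3.Sof
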